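import Pool.Agent.LpBusemann.DimTwoDefs

/-!
# The Loewner lengths of a two-dimensional l^p complex, Euclidean triangles, thick edges

Definitions for the theorem on angles, on the problem MP_e44843_al.
-/

open scoped ENNReal

namespace Pool.Agent.LpBusemann

universe u v

/-- The norm of the triangle `v a b` in the coordinates at its vertex `v`: the norm, in the space
`l^p` in which the triangle is placed, of `x (a - v) + y (b - v)`. -/
noncomputable def LpComplex.triNorm {p : ℝ≥0∞} [Fact (1 ≤ p)] {V : Type u} [DecidableEq V]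
    {X : Type v} [MetricSpace X] (C : LpComplex p V X) (v a b : V) (x y : ℝ) : ℝ :=
  ‖x • (C.S.vtx {v, a, b} a - C.S.vtx {v, a, b} v) +
    y • (C.S.vtx {v, a, b} b - C.S.vtx {v, a, b} v)‖

/-- The quadratic form of the Euclidean triangle with vertices `v a b` and edge lengths `L`: the
square of the Euclidean length of `x (a - v) + y (b - v)`. -/
def triForm {V : Type u} (L : V → V → ℝ) (v a b : V) (x y : ℝ) : ℝ :=
  L v a ^ 2 * x ^ 2 + (L v a ^ 2 + L v b ^ 2 - L a b ^ 2) * x * y + L v b ^ 2 * y ^ 2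

/-- `L` are the Loewner lengths: for every triangle `v a b` the Euclidean triangle with edge
lengths `L` is the one whose unit disc is the ellipse of least area which contains the unit ball
of the l^p norm of the triangle. That is, the form of `L` lies below the square of the norm, and
it has the largest determinant among all nonnegative forms `a x² + 2 b x y + c y²` with this
property. -/
def LpComplex.IsLoewner {p : ℝ≥0∞} [Fact (1 ≤ p)] {V : Type u} [DecidableEq V] {X : Type v}
    [MetricSpace X] (C : LpComplex p V X) (L : V → V → ℝ) : Prop :=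
  (∀ u w, 0 ≤ L u w ∧ L u w = L w u) ∧ ∀ v a b : V, C.IsTri v a b →
    (∀ x y, triForm L v a b x y ≤ C.triNorm v a b x y ^ 2) ∧
    ∀ α β γ : ℝ, (∀ x y, 0 ≤ α * x ^ 2 + 2 * β * x * y + γ * y ^ 2 ∧
        α * x ^ 2 + 2 * β * x * y + γ * y ^ 2 ≤ C.triNorm v a b x y ^ 2) →
      α * γ - β ^ 2 ≤ L v a ^ 2 * L v b ^ 2 - ((L v a ^ 2 + L v b ^ 2 - L a b ^ 2) / 2) ^ 2

/-- The triangle `v a b`, with its l^p metric, is isometric to the Euclidean triangle with edge
lengths `L`. -/
def LpComplex.IsEuclideanTri {p : ℝ≥0∞} [Fact (1 ≤ p)] {V : Type u} [DecidableEq V] {X : Type v}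
    [MetricSpace X] (C : LpComplex p V X) (L : V → V → ℝ) (v a b : V) : Prop :=
  ∀ x y : ℝ, C.triNorm v a b x y ^ 2 = triForm L v a b x y

/-- The edge `u w` is thick: it lies in at least three triangles. -/
def LpComplex.IsThickEdge {p : ℝ≥0∞} [Fact (1 ≤ p)] {V : Type u} [DecidableEq V] {X : Type v}
    [MetricSpace X] (C : LpComplex p V X) (u w : V) : Prop :=
  ∃ c1 c2 c3 : V, c1 ≠ c2 ∧ c1 ≠ c3 ∧ c2 ≠ c3 ∧ C.IsTri u w c1 ∧ C.IsTri u w c2 ∧ C.IsTri u w c3

end Pool.Agent.LpBusemann
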