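import Pool.Agent.LpBusemann.Plane

/-!
# Developed segments are geodesics
-/

open scoped ENNReal
open Set

namespace Pool.Agent.LpBusemann

universe u v

section ChainGeo

variable {p : ℝ≥0∞} [Fact (1 ≤ p)] {V : Type u} {X : Type v} [MetricSpace X] [DecidableEq V]
  {C : LpComplex p V X}

/-- The developed segment, from `ε` to `ε e^{i φ}`. -/
noncomputable def zt (ε φ t : ℝ) : ℂ :=
  ⟨ε * ((1 - t) + t * Real.cos φ), ε * (t * Real.sin φ)⟩

theorem zt_sub (ε φ s t : ℝ) : zt ε φ s - zt ε φ t = (s - t) • (zt ε φ 1 - zt ε φ 0) := by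
  apply Complex.ext
  · simp only [zt, Complex.sub_re, Complex.smul_re, smul_eq_mul]
    ring
  · simp only [zt, Complex.sub_im, Complex.smul_im, smul_eq_mul]
    ring

theorem continuous_zt (ε φ : ℝ) : Continuous (zt ε φ) := by
  have : zt ε φ = fun t => ((ε * ((1 - t) + t * Real.cos φ) : ℝ) : ℂ) +
      ((ε * (t * Real.sin φ) : ℝ) : ℂ) * Complex.I := by
    funext t
    apply Complex.ext
    · simp only [zt, Complex.add_re, Complex.mul_re, Complex.ofReal_re, Complex.ofReal_im,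
        Complex.I_re, Complex.I_im]
      ring
    · simp only [zt, Complex.add_im, Complex.mul_im, Complex.ofReal_re, Complex.ofReal_im,
        Complex.I_re, Complex.I_im]
      ring
  rw [this]
  fun_prop

theorem sg_zt (ε φ t T : ℝ) :
    sg T (zt ε φ t) = ε * t * Real.sin (φ - T) - ε * (1 - t) * Real.sin T := by
  rw [sg, zt, Real.sin_sub]
  ring

theorem norm_zt_le {ε φ t : ℝ} (hε : 0 ≤ ε) (ht0 : 0 ≤ t) (ht1 : t ≤ 1) :
    ‖zt ε φ t‖ ≤ ε := by
  have e : zt ε φ t = (1 - t) • (zt ε φ 0) + t • (zt ε φ 1) := by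
    apply Complex.ext
    · simp only [zt, Complex.add_re, Complex.smul_re, smul_eq_mul]
      ring
    · simp only [zt, Complex.add_im, Complex.smul_im, smul_eq_mul]
      ring
  have h0 : ‖zt ε φ 0‖ = ε := by
    have : zt ε φ 0 = ((ε : ℝ) : ℂ) := by
      apply Complex.ext <;> simp [zt]
    rw [this, Complex.norm_real, Real.norm_eq_abs, abs_of_nonneg hε]
  have h1 : ‖zt ε φ 1‖ = ε := by
    have : zt ε φ 1 = ((ε : ℝ) : ℂ) * Complex.exp (φ * Complex.I) := by
      rw [Complex.exp_mul_I]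
      apply Complex.ext <;> simp [zt, Complex.cos_ofReal_re, Complex.sin_ofReal_re,
        Complex.cos_ofReal_im, Complex.sin_ofReal_im]
    rw [this, norm_mul, Complex.norm_exp_ofReal_mul_I, mul_one, Complex.norm_real,
      Real.norm_eq_abs, abs_of_nonneg hε]
  calc ‖zt ε φ t‖ ≤ ‖(1 - t) • (zt ε φ 0)‖ + ‖t • (zt ε φ 1)‖ := by
        rw [e]
        exact norm_add_le _ _
    _ = (1 - t) * ε + t * ε := by
        rw [norm_smul, norm_smul, h0, h1, Real.norm_eq_abs, Real.norm_eq_abs,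
          abs_of_nonneg (by linarith), abs_of_nonneg ht0]
    _ = ε := by ring

section Arg

variable {ε φ t : ℝ} (hε : 0 < ε) (hφ0 : 0 < φ) (hφπ : φ < Real.pi)

include hε in
theorem arg_zt_zero : (zt ε φ 0).arg = 0 := by
  have : zt ε φ 0 = ((ε : ℝ) : ℂ) := by
    apply Complex.ext <;> simp [zt]
  rw [this, Complex.arg_ofReal_of_nonneg hε.le]

include hε hφ0 hφπ

theorem zt_slit (ht0 : 0 ≤ t) : zt ε φ t ∈ Complex.slitPlane := by
  rw [Complex.mem_slitPlane_iff]
  rcases ht0.eq_or_lt with h | h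
  · left
    rw [← h]
    simp only [zt]
    linarith
  · right
    have := Real.sin_pos_of_pos_of_lt_pi hφ0 hφπ
    simp only [zt]
    positivity

theorem zt_ne_zero (ht0 : 0 ≤ t) : zt ε φ t ≠ 0 :=
  Complex.slitPlane_ne_zero (zt_slit hε hφ0 hφπ ht0)

theorem arg_zt_nonneg (ht0 : 0 ≤ t) : 0 ≤ (zt ε φ t).arg := by
  rw [Complex.arg_nonneg_iff]
  have := Real.sin_pos_of_pos_of_lt_pi hφ0 hφπ
  simp only [zt]
  positivity

theorem arg_zt_le (ht0 : 0 ≤ t) (ht1 : t ≤ 1) : (zt ε φ t).arg ≤ φ := by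
  by_contra hcon
  push Not at hcon
  have h1 : sg φ (zt ε φ t) ≤ 0 := by
    rw [sg_zt, sub_self, Real.sin_zero, mul_zero, zero_sub, neg_nonpos]
    have := Real.sin_pos_of_pos_of_lt_pi hφ0 hφπ
    exact mul_nonneg (mul_nonneg hε.le (by linarith)) this.le
  have h2 : 0 < ‖zt ε φ t‖ := norm_pos_iff.2 (zt_ne_zero hε hφ0 hφπ ht0)
  have h3 : 0 < Real.sin ((zt ε φ t).arg - φ) := by
    apply Real.sin_pos_of_pos_of_lt_pi (by linarith)
    have := Complex.arg_le_pi (zt ε φ t)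
    linarith
  rw [sg_polar] at h1
  have := mul_pos h2 h3
  linarith

theorem arg_zt_one : (zt ε φ 1).arg = φ := by
  have : zt ε φ 1 = ((ε : ℝ) : ℂ) * (Complex.cos φ + Complex.sin φ * Complex.I) := by
    apply Complex.ext <;> simp [zt, Complex.cos_ofReal_re, Complex.sin_ofReal_re,
        Complex.cos_ofReal_im, Complex.sin_ofReal_im]
  rw [this]
  exact Complex.arg_mul_cos_add_sin_mul_I hε ⟨by linarith, hφπ.le⟩

theorem arg_zt_pos (ht0 : 0 < t) : 0 < (zt ε φ t).arg := by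
  rcases (arg_zt_nonneg hε hφ0 hφπ ht0.le).eq_or_lt with h | h
  · exfalso
    have h1 : (zt ε φ t).im = 0 := (Complex.arg_eq_zero_iff.1 h.symm).2
    have := Real.sin_pos_of_pos_of_lt_pi hφ0 hφπ
    simp only [zt] at h1
    have h2 : 0 < ε * (t * Real.sin φ) := by positivity
    linarith
  · exact h

theorem continuousAt_arg_zt (ht0 : 0 ≤ t) : ContinuousAt (fun s => (zt ε φ s).arg) t :=
  ContinuousAt.comp (f := zt ε φ) (g := Complex.arg)
    (Complex.continuousAt_arg (zt_slit hε hφ0 hφπ ht0)) (continuous_zt ε φ).continuousAt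

end Arg

section Path

variable {v : V} {m : ℕ} {a : ℕ → V} {l θ : ℕ → ℝ}

theorem LpComplex.Chain.Th_strict (h : C.Chain v m a l θ) {i j : ℕ} (hij : i < j) (hj : j ≤ m) :
    Th θ i < Th θ j := by
  induction j with
  | zero => omega
  | succ j ih =>
    rw [Th_succ]
    have h1 := h.θ_pos j (by omega)
    rcases Nat.lt_or_ge i j with h2 | h2
    · have := ih h2 (by omega)
      linarith
    · have : i = j := by omega
      rw [this]
      linarith

theorem exists_index {ω : ℝ} (h0 : 0 ≤ ω)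
    (hm : ω < Th θ m) : ∃ i < m, Th θ i ≤ ω ∧ ω < Th θ (i + 1) := by
  classical
  have hex : ∃ j, ω < Th θ j := ⟨m, hm⟩
  have hspec := Nat.find_spec hex
  have hpos : 0 < Nat.find hex := by
    rcases Nat.eq_zero_or_pos (Nat.find hex) with h1 | h1
    · rw [h1, Th_zero] at hspec
      linarith
    · exact h1
  refine ⟨Nat.find hex - 1, ?_, ?_, ?_⟩
  · have := Nat.find_min' hex hm
    omega
  · exact not_lt.1 (Nat.find_min hex (show Nat.find hex - 1 < Nat.find hex by omega))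
  · rw [show Nat.find hex - 1 + 1 = Nat.find hex by omega]
    exact hspec

/-- Coordinates of `z` with argument in the sector number `i`. -/
theorem LpComplex.Chain.XX_nonneg (h : C.Chain v m a l θ) {i : ℕ} (hi : i < m) {z : ℂ}
    (h1 : Th θ i ≤ z.arg) (h2 : z.arg ≤ Th θ (i + 1)) : 0 ≤ XX l θ i z := by
  rw [XX, sg_polar]
  have h3 : 0 ≤ Real.sin (Th θ (i + 1) - z.arg) := by
    apply Real.sin_nonneg_of_nonneg_of_le_pi (by linarith)
    rw [Th_succ]
    have := h.θ_lt i hi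
    linarith
  have h4 : -(‖z‖ * Real.sin (z.arg - Th θ (i + 1))) =
      ‖z‖ * Real.sin (Th θ (i + 1) - z.arg) := by
    rw [← mul_neg, ← Real.sin_neg, neg_sub]
  rw [h4]
  have h5 := h.sin_pos hi
  have h6 := h.l_pos i hi.le
  positivity

theorem LpComplex.Chain.XX_pos (h : C.Chain v m a l θ) {i : ℕ} (hi : i < m) {z : ℂ}
    (hz : z ≠ 0) (h1 : Th θ i ≤ z.arg) (h2 : z.arg < Th θ (i + 1)) : 0 < XX l θ i z := by
  rw [XX, sg_polar]
  have h3 : 0 < Real.sin (Th θ (i + 1) - z.arg) := by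
    apply Real.sin_pos_of_pos_of_lt_pi (by linarith)
    rw [Th_succ]
    have := h.θ_lt i hi
    linarith
  have h4 : -(‖z‖ * Real.sin (z.arg - Th θ (i + 1))) =
      ‖z‖ * Real.sin (Th θ (i + 1) - z.arg) := by
    rw [← mul_neg, ← Real.sin_neg, neg_sub]
  rw [h4]
  have h5 := h.sin_pos hi
  have h6 := h.l_pos i hi.le
  have h7 := norm_pos_iff.2 hz
  positivity

theorem LpComplex.Chain.YY_nonneg (h : C.Chain v m a l θ) {i : ℕ} (hi : i < m) {z : ℂ}
    (h1 : Th θ i ≤ z.arg) (h2 : z.arg ≤ Th θ (i + 1)) : 0 ≤ YY l θ i z := by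
  rw [YY, sg_polar]
  have h3 : 0 ≤ Real.sin (z.arg - Th θ i) := by
    apply Real.sin_nonneg_of_nonneg_of_le_pi (by linarith)
    rw [Th_succ] at h2
    have := h.θ_lt i hi
    linarith
  have h5 := h.sin_pos hi
  have h6 := h.l_pos (i + 1) hi
  positivity

theorem LpComplex.Chain.YY_pos (h : C.Chain v m a l θ) {i : ℕ} (hi : i < m) {z : ℂ}
    (hz : z ≠ 0) (h1 : Th θ i < z.arg) (h2 : z.arg ≤ Th θ (i + 1)) : 0 < YY l θ i z := by
  rw [YY, sg_polar]
  have h3 : 0 < Real.sin (z.arg - Th θ i) := by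
    apply Real.sin_pos_of_pos_of_lt_pi (by linarith)
    rw [Th_succ] at h2
    have := h.θ_lt i hi
    linarith
  have h5 := h.sin_pos hi
  have h6 := h.l_pos (i + 1) hi
  have h7 := norm_pos_iff.2 hz
  positivity

/-- Small points have small coordinates. -/
theorem LpComplex.Chain.exists_eps (h : C.Chain v m a l θ) : ∃ ε0 : ℝ, 0 < ε0 ∧
    ∀ z : ℂ, ‖z‖ ≤ ε0 → ∀ i < m, XX l θ i z + YY l θ i z ≤ 1 / 2 := by
  set K : ℕ → ℝ := fun i => 1 / (l i * Real.sin (θ i)) + 1 / (l (i + 1) * Real.sin (θ i)) with hK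
  have hK0 : ∀ i < m, 0 ≤ K i := by
    intro i hi
    have h5 := h.sin_pos hi
    have h6 := h.l_pos i hi.le
    have h7 := h.l_pos (i + 1) hi
    simp only [hK]
    positivity
  set M : ℝ := 1 + ∑ i ∈ Finset.range m, K i with hM
  have hM0 : 0 < M := by
    have : 0 ≤ ∑ i ∈ Finset.range m, K i :=
      Finset.sum_nonneg fun i hi => hK0 i (Finset.mem_range.1 hi)
    linarith
  refine ⟨1 / (2 * M), by positivity, fun z hz i hi => ?_⟩
  have h5 := h.sin_pos hi
  have h6 := h.l_pos i hi.le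
  have h7 := h.l_pos (i + 1) hi
  have h8 : XX l θ i z ≤ ‖z‖ * (1 / (l i * Real.sin (θ i))) := by
    rw [XX, div_eq_mul_one_div]
    apply mul_le_mul_of_nonneg_right _ (by positivity)
    exact (neg_le_abs _).trans (abs_sg_le _ _)
  have h9 : YY l θ i z ≤ ‖z‖ * (1 / (l (i + 1) * Real.sin (θ i))) := by
    rw [YY, div_eq_mul_one_div]
    apply mul_le_mul_of_nonneg_right _ (by positivity)
    exact (le_abs_self _).trans (abs_sg_le _ _)
  have h10 : K i ≤ M := by
    have := Finset.single_le_sum (f := K) (fun j hj => hK0 j (Finset.mem_range.1 hj))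
      (Finset.mem_range.2 hi)
    linarith
  calc XX l θ i z + YY l θ i z ≤ ‖z‖ * K i := by
        simp only [hK]
        linarith
    _ ≤ 1 / (2 * M) * M := mul_le_mul hz h10 (hK0 i hi) (by positivity)
    _ = 1 / 2 := by field_simp

end Path

section Local

variable {v : V} {m : ℕ} {a : ℕ → V} {l θ : ℕ → ℝ}

theorem LpComplex.Chain.exists_path (h : C.Chain v m a l θ) {ε φ : ℝ} (hε : 0 < ε)
    (hφ0 : 0 < φ) (hφπ : φ < Real.pi) (hφm : φ < Th θ m)
    (hsmall : ∀ z : ℂ, ‖z‖ ≤ ε → ∀ i < m, XX l θ i z + YY l θ i z ≤ 1 / 2) :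
    ∃ c : ℝ → X, ∀ t, 0 ≤ t → t ≤ 1 → ∀ i < m, Th θ i ≤ (zt ε φ t).arg →
      (zt ε φ t).arg ≤ Th θ (i + 1) → C.wt (c t) = WW v a l θ i (zt ε φ t) := by
  have key : ∀ t, 0 ≤ t → t ≤ 1 → ∃ x : X, ∀ i < m, Th θ i ≤ (zt ε φ t).arg →
      (zt ε φ t).arg ≤ Th θ (i + 1) → C.wt x = WW v a l θ i (zt ε φ t) := by
    intro t ht0 ht1
    have harg0 := arg_zt_nonneg hε hφ0 hφπ ht0
    have hargφ := arg_zt_le hε hφ0 hφπ ht0 ht1
    obtain ⟨i, hi, hi1, hi2⟩ := exists_index (θ := θ) harg0 (lt_of_le_of_lt hargφ hφm)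
    obtain ⟨x, hx⟩ := h.exists_point hi (z := zt ε φ t) (h.XX_nonneg hi hi1 hi2.le)
      (h.YY_nonneg hi hi1 hi2.le) (hsmall _ (norm_zt_le hε.le ht0 ht1) i hi)
    refine ⟨x, fun j hj hj1 hj2 => ?_⟩
    have hji : j ≤ i := by
      by_contra hcon
      push Not at hcon
      have : Th θ (i + 1) ≤ Th θ j := by
        rcases Nat.lt_or_ge (i + 1) j with h1 | h1
        · exact (h.Th_strict h1 hj.le).le
        · have : i + 1 = j := by omega
          rw [this]
      linarith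
    rcases Nat.lt_or_ge j i with h1 | h1
    · have h2 : j + 1 = i := by
        by_contra hne
        have : Th θ (j + 1) < Th θ i := h.Th_strict (by omega) hi.le
        linarith
      have h3 : (zt ε φ t).arg = Th θ (j + 1) := le_antisymm hj2 (by rw [h2]; exact hi1)
      have h4 : sg (Th θ (j + 1)) (zt ε φ t) = 0 := by
        rw [sg_polar, h3, sub_self, Real.sin_zero, mul_zero]
      rw [h.WW_succ (by omega) h4, h2]
      exact hx
    · have : j = i := by omega
      rw [this]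
      exact hx
  obtain ⟨x0, -⟩ := key 0 le_rfl zero_le_one
  have key2 : ∀ t : ℝ, ∃ x : X, 0 ≤ t → t ≤ 1 → ∀ i < m, Th θ i ≤ (zt ε φ t).arg →
      (zt ε φ t).arg ≤ Th θ (i + 1) → C.wt x = WW v a l θ i (zt ε φ t) := by
    intro t
    by_cases ht : 0 ≤ t ∧ t ≤ 1
    · obtain ⟨x, hx⟩ := key t ht.1 ht.2
      exact ⟨x, fun _ _ => hx⟩
    · exact ⟨x0, fun h1 h2 => absurd ⟨h1, h2⟩ ht⟩
  choose c hc using key2
  exact ⟨c, hc⟩

theorem LpComplex.wt_pair {q : X} {v b : V} (hvb : b ≠ v) (hq : C.supp q ⊆ {v, b}) :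
    C.wt q = Finsupp.single v 1 + C.wt q b • ev v b := by
  have hsum := C.wt_sum q hq
  rw [Finset.sum_pair hvb.symm] at hsum
  ext w
  simp only [Finsupp.add_apply, Finsupp.smul_apply, smul_eq_mul, ev_apply, Finsupp.single_apply]
  by_cases h1 : w = v
  · subst h1
    simp only [if_true, if_neg hvb]
    linarith
  by_cases h2 : w = b
  · subst h2
    simp only [if_neg (Ne.symm h1), if_true]
    ring
  · rw [C.wt_eq_zero (fun h' => by
      have := hq h'
      simp [h1, h2] at this)]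
    simp only [if_neg (Ne.symm h1), if_neg (Ne.symm h2)]
    ring

/-- The point on the ray number `i`. -/
noncomputable def ray (l θ : ℕ → ℝ) (i : ℕ) (κ : ℝ) : ℂ :=
  ⟨κ * l i * Real.cos (Th θ i), κ * l i * Real.sin (Th θ i)⟩

theorem sg_ray (i : ℕ) (κ T : ℝ) : sg T (ray l θ i κ) = κ * l i * Real.sin (Th θ i - T) := by
  rw [sg, ray, Real.sin_sub]
  ring

theorem LpComplex.Chain.WW_ray (h : C.Chain v m a l θ) {i : ℕ} (hi : i < m) (κ : ℝ) :
    WW v a l θ i (ray l θ i κ) = Finsupp.single v 1 + κ • ev v (a i) := by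
  have h5 := h.sin_pos hi
  have h6 := h.l_pos i hi.le
  have e1 : XX l θ i (ray l θ i κ) = κ := by
    rw [XX, sg_ray, Th_succ, show Th θ i - (Th θ i + θ i) = -θ i by ring, Real.sin_neg]
    field_simp
  have e2 : YY l θ i (ray l θ i κ) = 0 := by
    rw [YY, sg_ray, sub_self, Real.sin_zero]
    simp
  rw [WW, e1, e2, zero_smul, add_zero]

theorem LpComplex.Chain.WW_ray_succ (h : C.Chain v m a l θ) {i : ℕ} (hi : i < m) (κ : ℝ) :
    WW v a l θ i (ray l θ (i + 1) κ) = Finsupp.single v 1 + κ • ev v (a (i + 1)) := by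
  have h5 := h.sin_pos hi
  have h6 := h.l_pos (i + 1) hi
  have e1 : XX l θ i (ray l θ (i + 1) κ) = 0 := by
    rw [XX, sg_ray, sub_self, Real.sin_zero]
    simp
  have e2 : YY l θ i (ray l θ (i + 1) κ) = κ := by
    rw [YY, sg_ray, Th_succ, show Th θ i + θ i - Th θ i = θ i by ring]
    field_simp
  rw [WW, e1, e2, zero_smul, add_zero]

theorem LpComplex.Chain.local_geo (hT : C.Tame) (hdim : ∀ s ∈ C.K.faces, s.card ≤ 3)
    (h : C.Chain v m a l θ) {ε φ : ℝ} (hε : 0 < ε) (hφ0 : 0 < φ) (hφπ : φ < Real.pi)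
    (hφm : φ < Th θ m)
    (hsmall : ∀ z : ℂ, ‖z‖ ≤ ε → ∀ i < m, XX l θ i z + YY l θ i z ≤ 1 / 2)
    {c : ℝ → X} (hc : ∀ t, 0 ≤ t → t ≤ 1 → ∀ i < m, Th θ i ≤ (zt ε φ t).arg →
      (zt ε φ t).arg ≤ Th θ (i + 1) → C.wt (c t) = WW v a l θ i (zt ε φ t))
    {t0 : ℝ} (ht0 : t0 ∈ Icc (0 : ℝ) 1) :
    ∃ η : ℝ, 0 < η ∧ ∀ s ∈ Icc (0 : ℝ) 1, ∀ s' ∈ Icc (0 : ℝ) 1, |s - t0| < η → |s' - t0| < η →
      dist (c s) (c s') = |s - s'| * C.pn v a l θ 0 (zt ε φ 1 - zt ε φ 0) := by
  set Lc : ℝ := C.pn v a l θ 0 (zt ε φ 1 - zt ε φ 0) with hLc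
  have hLc0 : 0 ≤ Lc := C.tn_nonneg _ _ _ _ _
  have harg0 : ∀ s, 0 ≤ s → 0 ≤ (zt ε φ s).arg := fun s hs => arg_zt_nonneg hε hφ0 hφπ hs
  have hargφ : ∀ s, 0 ≤ s → s ≤ 1 → (zt ε φ s).arg ≤ φ := fun s hs hs1 =>
    arg_zt_le hε hφ0 hφπ hs hs1
  have hz0 : ∀ s, 0 ≤ s → zt ε φ s ≠ 0 := fun s hs => zt_ne_zero hε hφ0 hφπ hs
  obtain ⟨i, hi, hi1, hi2⟩ := exists_index (θ := θ) (harg0 t0 ht0.1)
    (lt_of_le_of_lt (hargφ t0 ht0.1 ht0.2) hφm)
  -- distances inside one triangle
  have hn : ∀ k < m, ∀ s s' : ℝ,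
      C.nrm {v, a k, a (k + 1)} (WW v a l θ k (zt ε φ s) - WW v a l θ k (zt ε φ s')) =
        |s - s'| * Lc := by
    intro k hk s s'
    rw [nrm_WW_sub, h.pn_eq hk, zt_sub, C.pn_smul]
  have hsub : ∀ k, ∀ x : X, ∀ z : ℂ, C.wt x = WW v a l θ k z →
      C.supp x ⊆ {v, a k, a (k + 1)} := by
    intro k x z hx
    rw [C.supp_eq, hx]
    exact WW_support k z
  -- the wall
  have hav : a i ≠ v := h.ne_v i hi.le
  have hFsub : ({v, a i} : Finset V) ⊆ {v, a i, a (i + 1)} := by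
    intro x hx
    simp only [Finset.mem_insert, Finset.mem_singleton] at hx ⊢
    tauto
  have hFcard : ({v, a i} : Finset V).card = 2 := Finset.card_pair hav.symm
  have hF : C.Wall {v, a i} := by
    refine ⟨C.K.down_closed _ (h.face i hi) _ hFsub (by simp), fun s hs _ => ?_⟩
    rw [hFcard]
    exact hdim s hs
  obtain ⟨A, hA0, hA⟩ := C.exists_lip hT {v, a i}
  have hw0 := hc t0 ht0.1 ht0.2 i hi hi1 hi2.le
  have hXp : 0 < XX l θ i (zt ε φ t0) := h.XX_pos hi (hz0 t0 ht0.1) hi1 hi2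
  set m1 : ℝ := min (1 / 2) (XX l θ i (zt ε φ t0)) with hm1
  have hm1p : 0 < m1 := lt_min (by norm_num) hXp
  have hlow0 : ∀ w ∈ ({v, a i} : Finset V), m1 ≤ C.wt (c t0) w := by
    intro w hw
    simp only [Finset.mem_insert, Finset.mem_singleton] at hw
    rcases hw with rfl | rfl
    · rw [hw0, WW_v h hi]
      have h1 := hsmall _ (norm_zt_le (φ := φ) hε.le ht0.1 ht0.2) i hi
      have h2 : m1 ≤ 1 / 2 := min_le_left _ _
      linarith
    · rw [hw0, WW_a h hi]
      exact min_le_right _ _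
  -- continuity of the argument
  have hcontarg := continuousAt_arg_zt hε hφ0 hφπ (t := t0) ht0.1
  set g2 : ℝ := if 0 < i then (zt ε φ t0).arg - Th θ (i - 1) else 1 with hg2
  have hg2p : 0 < g2 := by
    rw [hg2]
    split_ifs with hi0
    · have := h.Th_strict (show i - 1 < i by omega) hi.le
      linarith
    · exact one_pos
  set g3 : ℝ := if Th θ i < (zt ε φ t0).arg then (zt ε φ t0).arg - Th θ i else 1 with hg3
  have hg3p : 0 < g3 := by
    rw [hg3]
    split_ifs with hlt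
    · linarith
    · exact one_pos
  set e : ℝ := min (Th θ (i + 1) - (zt ε φ t0).arg) (min g2 g3) with he
  have hep : 0 < e := lt_min (by linarith) (lt_min hg2p hg3p)
  obtain ⟨η1, hη1, hη1'⟩ := Metric.continuousAt_iff.1 hcontarg e hep
  have hnear : ∀ s ∈ Icc (0 : ℝ) 1, |s - t0| < η1 →
      (Th θ i ≤ (zt ε φ s).arg ∧ (zt ε φ s).arg ≤ Th θ (i + 1)) ∨
      (0 < i ∧ (zt ε φ t0).arg = Th θ i ∧ Th θ (i - 1) ≤ (zt ε φ s).arg ∧
        (zt ε φ s).arg < Th θ i) := by
    intro s hs hst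
    have h1 := hη1' (x := s) (by rw [Real.dist_eq]; exact hst)
    rw [Real.dist_eq] at h1
    have h2 := abs_lt.1 h1
    have h3 : e ≤ Th θ (i + 1) - (zt ε φ t0).arg := min_le_left _ _
    have h4 : e ≤ g2 := (min_le_right _ _).trans (min_le_left _ _)
    have h5 : e ≤ g3 := (min_le_right _ _).trans (min_le_right _ _)
    by_cases h6 : Th θ i ≤ (zt ε φ s).arg
    · left
      exact ⟨h6, by linarith⟩
    · right
      push Not at h6
      have h7 : 0 < i := by
        rcases Nat.eq_zero_or_pos i with h0 | h0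
        · exfalso
          rw [h0, Th_zero] at h6
          have := harg0 s hs.1
          linarith
        · exact h0
      have h8 : ¬ Th θ i < (zt ε φ t0).arg := by
        intro hlt
        rw [hg3, if_pos hlt] at h5
        linarith
      rw [hg2, if_pos h7] at h4
      exact ⟨h7, le_antisymm (not_lt.1 h8) hi1, by linarith, h6⟩
  set η2 : ℝ := m1 / (8 * (A * (Lc + 1))) with hη2
  have hη2p : 0 < η2 := by positivity
  have hη2A : ∀ r, r ≤ η2 → 0 ≤ r → A * (r * Lc) ≤ m1 / 8 := by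
    intro r hr hr0
    calc A * (r * Lc) ≤ A * (η2 * (Lc + 1)) := by
          apply mul_le_mul_of_nonneg_left _ hA0.le
          exact mul_le_mul hr (by linarith) hLc0 hη2p.le
      _ = m1 / 8 := by
          rw [hη2]
          have : Lc + 1 ≠ 0 := by positivity
          field_simp
  refine ⟨min η1 η2, lt_min hη1 hη2p, ?_⟩
  -- distance to the base point
  have hup : ∀ s ∈ Icc (0 : ℝ) 1, |s - t0| < min η1 η2 → dist (c s) (c t0) ≤ |s - t0| * Lc := by
    intro s hs hst
    rcases hnear s hs (lt_of_lt_of_le hst (min_le_left _ _)) with ⟨h1, h2⟩ | ⟨h0, h1, h2, h3⟩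
    · have hw := hc s hs.1 hs.2 i hi h1 h2
      have h4 := C.dist_le (h.face i hi) (hsub i _ _ hw) (hsub i _ _ hw0)
      rw [C.dist_pos_nrm, hw, hw0, hn i hi] at h4
      exact h4
    · obtain ⟨j, rfl⟩ : ∃ j, i = j + 1 := ⟨i - 1, by omega⟩
      simp only [Nat.add_sub_cancel] at h2
      have hw := hc s hs.1 hs.2 j (by omega) h2 h3.le
      have hw' := hc t0 ht0.1 ht0.2 j (by omega) (by
        rw [h1]
        exact (h.Th_strict (Nat.lt_succ_self j) hi.le).le) h1.le
      have h4 := C.dist_le (h.face j (by omega)) (hsub j _ _ hw) (hsub j _ _ hw')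
      rw [C.dist_pos_nrm, hw, hw', hn j (by omega)] at h4
      exact h4
  -- coordinates near the base point
  have hlow : ∀ s ∈ Icc (0 : ℝ) 1, |s - t0| < min η1 η2 → ∀ w ∈ ({v, a i} : Finset V),
      m1 / 2 < C.wt (c s) w := by
    intro s hs hst w hw
    have h1 := hA.bound hA0 (c s) (c t0) hw
    have h2 := mul_le_mul_of_nonneg_left (hup s hs hst) hA0.le
    have h3 := hη2A |s - t0| (hst.le.trans (min_le_right _ _)) (abs_nonneg _)
    have h4 := (abs_le.1 h1).1
    have h5 := hlow0 w hw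
    linarith
  have hAd : ∀ s ∈ Icc (0 : ℝ) 1, ∀ s' ∈ Icc (0 : ℝ) 1, |s - t0| < min η1 η2 →
      |s' - t0| < min η1 η2 → ∀ w ∈ ({v, a i} : Finset V), A * dist (c s) (c s') < C.wt (c s) w := by
    intro s hs s' hs' hst hst' w hw
    have h1 := dist_triangle (c s) (c t0) (c s')
    rw [dist_comm (c t0) (c s')] at h1
    have h2 := mul_le_mul_of_nonneg_left (h1.trans (add_le_add (hup s hs hst) (hup s' hs' hst')))
      hA0.le
    have h3 := hη2A |s - t0| (hst.le.trans (min_le_right _ _)) (abs_nonneg _)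
    have h4 := hη2A |s' - t0| (hst'.le.trans (min_le_right _ _)) (abs_nonneg _)
    have h5 := hlow s hs hst w hw
    rw [mul_add] at h2
    linarith
  -- both points in one triangle
  have hsame : ∀ k < m, ∀ s ∈ Icc (0 : ℝ) 1, ∀ s' ∈ Icc (0 : ℝ) 1, |s - t0| < min η1 η2 →
      |s' - t0| < min η1 η2 → C.wt (c s) = WW v a l θ k (zt ε φ s) →
      C.wt (c s') = WW v a l θ k (zt ε φ s') → dist (c s) (c s') = |s - s'| * Lc := by
    intro k hk s hs s' hs' hst hst' hw hw'
    rw [← hF.share hA0 hA (hAd s hs s' hs' hst hst') (h.face k hk) (hsub k _ _ hw)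
      (hsub k _ _ hw'), C.dist_pos_nrm, hw, hw', hn k hk]
  -- the two points on the two sides of the wall
  have hmixed : ∀ s ∈ Icc (0 : ℝ) 1, ∀ s' ∈ Icc (0 : ℝ) 1, |s - t0| < min η1 η2 →
      |s' - t0| < min η1 η2 → 0 < i → (zt ε φ t0).arg = Th θ i → Th θ (i - 1) ≤ (zt ε φ s).arg →
      (zt ε φ s).arg < Th θ i → Th θ i < (zt ε φ s').arg → (zt ε φ s').arg ≤ Th θ (i + 1) →
      dist (c s) (c s') = |s - s'| * Lc := by
    intro s hs s' hs' hst hst' hi0 hωi g1 g2' g3' g4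
    obtain ⟨j, rfl⟩ : ∃ j, i = j + 1 := ⟨i - 1, by omega⟩
    simp only [Nat.add_sub_cancel] at g1
    have hjm : j < m := by omega
    have hw := hc s hs.1 hs.2 j hjm g1 g2'.le
    have hw' := hc s' hs'.1 hs'.2 (j + 1) hi g3'.le g4
    have hnorm : ∀ s, 0 ≤ s → 0 < ‖zt ε φ s‖ := fun s hs => norm_pos_iff.2 (hz0 s hs)
    have hmem : ∀ w ∈ ({v, a (j + 1)} : Finset V), w ∈ C.supp (c s) := by
      intro w hw
      rw [C.mem_supp]
      have := hlow s hs hst w hw
      linarith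
    have hmem' : ∀ w ∈ ({v, a (j + 1)} : Finset V), w ∈ C.supp (c s') := by
      intro w hw
      rw [C.mem_supp]
      have := hlow s' hs' hst' w hw
      linarith
    have haj : a j ∈ C.supp (c s) := by
      rw [C.mem_supp, hw, WW_a h hjm]
      exact h.XX_pos hjm (hz0 s hs.1) g1 g2'
    have haj' : a (j + 1 + 1) ∈ C.supp (c s') := by
      rw [C.mem_supp, hw', WW_a' h hi]
      exact h.YY_pos hi (hz0 s' hs'.1) g3' g4
    have hsx : C.supp (c s) = {v, a j, a (j + 1)} := by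
      apply Finset.Subset.antisymm (hsub j _ _ hw)
      intro w hw
      simp only [Finset.mem_insert, Finset.mem_singleton] at hw
      rcases hw with rfl | rfl | rfl
      · exact hmem _ (by simp)
      · exact haj
      · exact hmem _ (by simp)
    have hsy : C.supp (c s') = {v, a (j + 1), a (j + 1 + 1)} := by
      apply Finset.Subset.antisymm (hsub (j + 1) _ _ hw')
      intro w hw
      simp only [Finset.mem_insert, Finset.mem_singleton] at hw
      rcases hw with rfl | rfl | rfl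
      · exact hmem' _ (by simp)
      · exact hmem' _ (by simp)
      · exact haj'
    have hns : ¬ ∃ T ∈ C.K.faces, C.supp (c s) ⊆ T ∧ C.supp (c s') ⊆ T := by
      rintro ⟨T, hTf, h1, h2⟩
      have hcard : ({v, a j, a (j + 1), a (j + 1 + 1)} : Finset V).card = 4 := by
        have n1 : v ≠ a j := (h.ne_v j hjm.le).symm
        have n2 : v ≠ a (j + 1) := (h.ne_v (j + 1) hi.le).symm
        have n3 : v ≠ a (j + 1 + 1) := (h.ne_v (j + 1 + 1) hi).symm
        have n4 : a j ≠ a (j + 1) := h.ne_succ j hjm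
        have n5 : a j ≠ a (j + 1 + 1) := h.turn j hi
        have n6 : a (j + 1) ≠ a (j + 1 + 1) := h.ne_succ (j + 1) hi
        rw [Finset.card_insert_of_notMem (by simp [n1, n2, n3]),
          Finset.card_insert_of_notMem (by simp [n4, n5]), Finset.card_pair n6]
      have hsubT : ({v, a j, a (j + 1), a (j + 1 + 1)} : Finset V) ⊆ T := by
        intro w hw
        simp only [Finset.mem_insert, Finset.mem_singleton] at hw
        rw [hsx] at h1
        rw [hsy] at h2
        rcases hw with rfl | rfl | rfl | rfl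
        · exact h1 (by simp)
        · exact h1 (by simp)
        · exact h1 (by simp)
        · exact h2 (by simp)
      have h3 := Finset.card_le_card hsubT
      have h4 := hdim T hTf
      omega
    -- the time `t0` is between `s` and `s'`
    have hsinφ := Real.sin_pos_of_pos_of_lt_pi hφ0 hφπ
    have hT0 : 0 ≤ Th θ (j + 1) := by rw [← hωi]; exact harg0 t0 ht0.1
    have hTφ : Th θ (j + 1) ≤ φ := by rw [← hωi]; exact hargφ t0 ht0.1 ht0.2
    have hsin1 : 0 ≤ Real.sin (Th θ (j + 1)) :=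
      Real.sin_nonneg_of_nonneg_of_le_pi hT0 (by linarith)
    have hsin2 : 0 ≤ Real.sin (φ - Th θ (j + 1)) :=
      Real.sin_nonneg_of_nonneg_of_le_pi (by linarith) (by linarith)
    have hmono : ∀ x y : ℝ, x ≤ y → sg (Th θ (j + 1)) (zt ε φ x) ≤
        sg (Th θ (j + 1)) (zt ε φ y) := by
      intro x y hxy
      rw [sg_zt, sg_zt]
      have h1 : 0 ≤ ε * (y - x) * Real.sin (φ - Th θ (j + 1)) :=
        mul_nonneg (mul_nonneg hε.le (by linarith)) hsin2
      have h2 : 0 ≤ ε * (y - x) * Real.sin (Th θ (j + 1)) :=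
        mul_nonneg (mul_nonneg hε.le (by linarith)) hsin1
      nlinarith
    have hs0 : sg (Th θ (j + 1)) (zt ε φ t0) = 0 := by
      rw [sg_polar, hωi, sub_self, Real.sin_zero, mul_zero]
    have hsneg : sg (Th θ (j + 1)) (zt ε φ s) < 0 := by
      rw [sg_polar]
      apply mul_neg_of_pos_of_neg (hnorm s hs.1)
      rw [← neg_pos, ← Real.sin_neg]
      apply Real.sin_pos_of_pos_of_lt_pi (by linarith)
      rw [Th_succ]
      have := h.θ_lt j hjm
      linarith
    have hspos : 0 < sg (Th θ (j + 1)) (zt ε φ s') := by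
      rw [sg_polar]
      apply mul_pos (hnorm s' hs'.1)
      apply Real.sin_pos_of_pos_of_lt_pi (by linarith)
      have h1 := h.θ_lt (j + 1) hi
      rw [Th_succ] at g4
      linarith
    have hst1 : s < t0 := by
      by_contra hcon
      have := hmono t0 s (not_lt.1 hcon)
      linarith
    have hst2 : t0 < s' := by
      by_contra hcon
      have := hmono s' t0 (not_lt.1 hcon)
      linarith
    apply le_antisymm
    · have h1 := dist_triangle (c s) (c t0) (c s')
      rw [dist_comm (c t0) (c s')] at h1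
      have h2 := hup s hs hst
      have h3 := hup s' hs' hst'
      have h4 : |s - t0| + |s' - t0| = |s - s'| := by
        rw [abs_of_neg (by linarith), abs_of_pos (by linarith), abs_of_neg (by linarith)]
        ring
      calc dist (c s) (c s') ≤ |s - t0| * Lc + |s' - t0| * Lc := by linarith
        _ = (|s - t0| + |s' - t0|) * Lc := by ring
        _ = |s - s'| * Lc := by rw [h4]
    · refine hF.cross_lower hA0 hA (hAd s hs s' hs' hst hst') hns ?_
      intro q hq
      have hqw : C.wt q = Finsupp.single v 1 + C.wt q (a (j + 1)) • ev v (a (j + 1)) :=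
        LpComplex.wt_pair hav hq.le
      have hq1 : C.wt q = WW v a l θ j (ray l θ (j + 1) (C.wt q (a (j + 1)))) := by
        rw [h.WW_ray_succ hjm]
        exact hqw
      have hq2 : C.wt q = WW v a l θ (j + 1) (ray l θ (j + 1) (C.wt q (a (j + 1)))) := by
        rw [h.WW_ray hi]
        exact hqw
      rw [hsx, hsy, C.dist_pos_nrm, C.dist_pos_nrm]
      have d1 : C.nrm {v, a j, a (j + 1)} (C.wt (c s) - C.wt q) =
          C.pn v a l θ 0 (zt ε φ s - ray l θ (j + 1) (C.wt q (a (j + 1)))) := by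
        rw [hw, ← h.pn_eq hjm, ← nrm_WW_sub, ← hq1]
      have d2 : C.nrm {v, a (j + 1), a (j + 1 + 1)} (C.wt q - C.wt (c s')) =
          C.pn v a l θ 0 (ray l θ (j + 1) (C.wt q (a (j + 1))) - zt ε φ s') := by
        rw [hw', ← h.pn_eq hi, ← nrm_WW_sub, ← hq2]
      rw [d1, d2]
      have h1 := C.pn_add_le v a l θ 0 (zt ε φ s - ray l θ (j + 1) (C.wt q (a (j + 1))))
        (ray l θ (j + 1) (C.wt q (a (j + 1))) - zt ε φ s')
      rw [sub_add_sub_cancel, zt_sub, C.pn_smul] at h1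
      exact h1
  intro s hs s' hs' hst hst'
  rcases hnear s hs (lt_of_lt_of_le hst (min_le_left _ _)) with ⟨h1, h2⟩ | ⟨h0, h1, h2, h3⟩
  · rcases hnear s' hs' (lt_of_lt_of_le hst' (min_le_left _ _)) with ⟨k1, k2⟩ | ⟨k0, k1, k2, k3⟩
    · exact hsame i hi s hs s' hs' hst hst' (hc s hs.1 hs.2 i hi h1 h2)
        (hc s' hs'.1 hs'.2 i hi k1 k2)
    · rcases h1.eq_or_lt with h4 | h4
      · obtain ⟨j, rfl⟩ : ∃ j, i = j + 1 := ⟨i - 1, by omega⟩
        simp only [Nat.add_sub_cancel] at k2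
        refine hsame j (by omega) s hs s' hs' hst hst' (hc s hs.1 hs.2 j (by omega) ?_ h4.ge)
          (hc s' hs'.1 hs'.2 j (by omega) k2 k3.le)
        rw [← h4]
        exact (h.Th_strict (Nat.lt_succ_self j) hi.le).le
      · rw [dist_comm, hmixed s' hs' s hs hst' hst k0 k1 k2 k3 h4 h2, abs_sub_comm]
  · rcases hnear s' hs' (lt_of_lt_of_le hst' (min_le_left _ _)) with ⟨k1, k2⟩ | ⟨k0, k1, k2, k3⟩
    · rcases k1.eq_or_lt with h4 | h4
      · obtain ⟨j, rfl⟩ : ∃ j, i = j + 1 := ⟨i - 1, by omega⟩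
        simp only [Nat.add_sub_cancel] at h2
        refine hsame j (by omega) s hs s' hs' hst hst' (hc s hs.1 hs.2 j (by omega) h2 h3.le)
          (hc s' hs'.1 hs'.2 j (by omega) ?_ h4.ge)
        rw [← h4]
        exact (h.Th_strict (Nat.lt_succ_self j) hi.le).le
      · exact hmixed s hs s' hs' hst hst' h0 h1 h2 h3 h4 k2
    · obtain ⟨j, rfl⟩ : ∃ j, i = j + 1 := ⟨i - 1, by omega⟩
      simp only [Nat.add_sub_cancel] at h2 k2
      exact hsame j (by omega) s hs s' hs' hst hst' (hc s hs.1 hs.2 j (by omega) h2 h3.le)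
        (hc s' hs'.1 hs'.2 j (by omega) k2 k3.le)

/-- Developed segments are geodesics. -/
theorem LpComplex.Chain.geodesic (hB : BusemannConvex X) (hT : C.Tame)
    (hdim : ∀ s ∈ C.K.faces, s.card ≤ 3)
    (h : C.Chain v m a l θ) {φ : ℝ} (hφ0 : 0 < φ) (hφπ : φ < Real.pi)
    (hφm : φ < ∑ i ∈ Finset.range m, θ i) :
    ∃ ε0 : ℝ, 0 < ε0 ∧ ∀ ε, 0 < ε → ε ≤ ε0 → ∃ c : ℝ → X, IsGeodesic c (c 0) (c 1) ∧
      C.wt (c 0) = Finsupp.single v 1 + (ε / l 0) • ev v (a 0) ∧
      (∀ j < m, (∑ i ∈ Finset.range j, θ i) ≤ φ → φ ≤ (∑ i ∈ Finset.range (j + 1), θ i) →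
        C.wt (c 1) = Finsupp.single v 1 +
          (ε * Real.sin ((∑ i ∈ Finset.range (j + 1), θ i) - φ) / (l j * Real.sin (θ j))) •
            ev v (a j) +
          (ε * Real.sin (φ - ∑ i ∈ Finset.range j, θ i) / (l (j + 1) * Real.sin (θ j))) •
            ev v (a (j + 1))) ∧
      ∃ η : ℝ, 0 < η ∧ ∀ t, 0 < t → t < η → C.supp (c t) ⊆ {v, a 0, a 1} ∧
        0 < C.wt (c t) (a 1) := by
  obtain ⟨ε0, hε0, hsm⟩ := h.exists_eps
  refine ⟨ε0, hε0, fun ε hε hεε => ?_⟩
  have hsmall : ∀ z : ℂ, ‖z‖ ≤ ε → ∀ i < m, XX l θ i z + YY l θ i z ≤ 1 / 2 :=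
    fun z hz i hi => hsm z (hz.trans hεε) i hi
  obtain ⟨c, hc⟩ := h.exists_path hε hφ0 hφπ hφm hsmall
  have hm0 : 0 < m := by
    rcases Nat.eq_zero_or_pos m with h0 | h0
    · rw [h0, Finset.range_zero, Finset.sum_empty] at hφm
      linarith
    · exact h0
  have hθ0 := h.θ_pos 0 hm0
  have hs0 := h.sin_pos hm0
  have hl0 := h.l_pos 0 (Nat.zero_le _)
  refine ⟨c, hB.local_geodesic fun t ht =>
    h.local_geo hT hdim hε hφ0 hφπ hφm hsmall hc ht, ?_, ?_, ?_⟩
  · have h1 := hc 0 le_rfl zero_le_one 0 hm0 (by rw [Th_zero, arg_zt_zero hε])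
      (by rw [arg_zt_zero hε, Th_succ, Th_zero]; linarith)
    have e0 : XX l θ 0 (zt ε φ 0) = ε / l 0 := by
      rw [XX, sg_zt, Th_succ, Th_zero, zero_add]
      have e2 : -(ε * 0 * Real.sin (φ - θ 0) - ε * (1 - 0) * Real.sin (θ 0)) =
          ε * Real.sin (θ 0) := by ring
      rw [e2]
      field_simp
    have e1 : YY l θ 0 (zt ε φ 0) = 0 := by
      rw [YY, sg_zt, Th_zero]
      simp
    rw [h1, WW, e0, e1, zero_smul, add_zero]
  · intro j hj hj1 hj2
    have h1 := hc 1 zero_le_one le_rfl j hj (by rw [arg_zt_one hε hφ0 hφπ]; exact hj1)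
      (by rw [arg_zt_one hε hφ0 hφπ]; exact hj2)
    have e0 : XX l θ j (zt ε φ 1) =
        ε * Real.sin ((∑ i ∈ Finset.range (j + 1), θ i) - φ) / (l j * Real.sin (θ j)) := by
      rw [XX, sg_zt, ← neg_sub φ, Real.sin_neg]
      change -(ε * 1 * Real.sin (φ - Th θ (j + 1)) - ε * (1 - 1) * Real.sin (Th θ (j + 1))) /
        (l j * Real.sin (θ j)) = ε * -Real.sin (φ - Th θ (j + 1)) / (l j * Real.sin (θ j))
      congr 1
      ring
    have e1 : YY l θ j (zt ε φ 1) =
        ε * Real.sin (φ - ∑ i ∈ Finset.range j, θ i) / (l (j + 1) * Real.sin (θ j)) := by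
      rw [YY, sg_zt]
      change (ε * 1 * Real.sin (φ - Th θ j) - ε * (1 - 1) * Real.sin (Th θ j)) /
        (l (j + 1) * Real.sin (θ j)) = ε * Real.sin (φ - Th θ j) / (l (j + 1) * Real.sin (θ j))
      congr 1
      ring
    rw [h1, WW, e0, e1]
  · have hcontarg := continuousAt_arg_zt hε hφ0 hφπ (t := 0) le_rfl
    obtain ⟨η1, hη1, hη1'⟩ := Metric.continuousAt_iff.1 hcontarg (θ 0) hθ0
    refine ⟨min η1 1, lt_min hη1 one_pos, fun t ht ht' => ?_⟩
    have ht1 : t ≤ 1 := (ht'.trans_le (min_le_right _ _)).le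
    have h1 := hη1' (x := t) (by
      rw [Real.dist_eq, sub_zero, abs_of_pos ht]
      exact ht'.trans_le (min_le_left _ _))
    rw [Real.dist_eq, arg_zt_zero hε, sub_zero] at h1
    have h2 := (abs_lt.1 h1).2
    have h3 := arg_zt_pos hε hφ0 hφπ ht
    have hw := hc t ht.le ht1 0 hm0 (by rw [Th_zero]; exact h3.le)
      (by rw [Th_succ, Th_zero]; linarith)
    constructor
    · rw [C.supp_eq, hw]
      exact WW_support 0 _
    · rw [hw]
      have := WW_a' h hm0 (zt ε φ t)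
      rw [zero_add] at this
      rw [this]
      exact h.YY_pos hm0 (zt_ne_zero hε hφ0 hφπ ht.le) (by rw [Th_zero]; exact h3)
        (by rw [Th_succ, Th_zero]; linarith)

end Local

end ChainGeo

end Pool.Agent.LpBusemann
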