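import Mathlib

/-!
# Complexes of type l^p, bicombings and Busemann convexity

Definitions for the problem MP_e44843_al.
-/

open scoped ENNReal
open Set

namespace Pool.Agent.LpBusemann

universe u v

/-- An abstract simplicial complex on a type `V` of vertices: a family of nonempty finite
subsets of `V`, the simplices, closed under passing to nonempty subsets. -/
structure Cpx (V : Type u) where
  faces : Set (Finset V)
  nonempty_of_mem : ∀ s ∈ faces, s.Nonempty
  down_closed : ∀ s ∈ faces, ∀ t : Finset V, t ⊆ s → t.Nonempty → t ∈ faces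

/-- A point of the geometric realisation of `K`, given by its barycentric coordinates: a
finitely supported probability vector on `V` whose support is a simplex of `K`. -/
structure Pt {V : Type u} (K : Cpx V) where
  w : V →₀ ℝ
  nonneg : ∀ v, 0 ≤ w v
  sum_one : (w.sum fun _ a => a) = 1
  support_mem : w.support ∈ K.faces

/-- Shapes of type l^p for the simplices of `K`: for every simplex `s` a position `vtx s v` in
the space `l^p` of dimension `dim s` of each vertex `v` of `s`, affinely independent for every
simplex, such that a face `t` of a simplex `s` gets the same metric from its own shape as from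
the shape of `s`. -/
structure LpShapes {V : Type u} (K : Cpx V) (p : ℝ≥0∞) [Fact (1 ≤ p)] where
  dim : Finset V → ℕ
  vtx : (s : Finset V) → V → PiLp p (fun _ : Fin (dim s) => ℝ)
  indep : ∀ s ∈ K.faces, AffineIndependent ℝ (fun v : s => vtx s v)
  compat : ∀ s ∈ K.faces, ∀ t : Finset V, t ⊆ s → t.Nonempty → ∀ x y : Pt K,
    x.w.support ⊆ t → y.w.support ⊆ t →
      dist (∑ v ∈ t, x.w v • vtx t v) (∑ v ∈ t, y.w v • vtx t v) =
        dist (∑ v ∈ s, x.w v • vtx s v) (∑ v ∈ s, y.w v • vtx s v)

/-- The position of the point `x` of the closed simplex `s` in the shape of `s`. -/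
noncomputable def LpShapes.place {V : Type u} {K : Cpx V} {p : ℝ≥0∞} [Fact (1 ≤ p)]
    (S : LpShapes K p) (s : Finset V) (x : Pt K) : PiLp p (fun _ : Fin (S.dim s) => ℝ) :=
  ∑ v ∈ s, x.w v • S.vtx s v

/-- `StringLength S x y l`: there is a string from `x` to `y` of length `l`, that is a finite
sequence of points from `x` to `y`, consecutive ones in a common closed simplex, whose distances
inside these simplices add up to `l`. -/
inductive StringLength {V : Type u} {K : Cpx V} {p : ℝ≥0∞} [Fact (1 ≤ p)]
    (S : LpShapes K p) : Pt K → Pt K → ℝ → Prop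
  | nil (x : Pt K) : StringLength S x x 0
  | cons (s : Finset V) (x y z : Pt K) (l : ℝ) (hs : s ∈ K.faces) (hx : x.w.support ⊆ s)
      (hy : y.w.support ⊆ s) (h : StringLength S y z l) :
      StringLength S x z (dist (S.place s x) (S.place s y) + l)

/-- An l^p complex structure on the metric space `X`: an abstract simplicial complex with shapes
of type l^p for its simplices, and a bijection of `X` with its geometric realisation under which
the metric of `X` is the induced length metric, the infimum of the lengths of strings. -/
structure LpComplex (p : ℝ≥0∞) [Fact (1 ≤ p)] (V : Type u) (X : Type v) [MetricSpace X] where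
  K : Cpx V
  S : LpShapes K p
  pt : X ≃ Pt K
  connected : ∀ x y : X, ∃ l, StringLength S (pt x) (pt y) l
  dist_eq : ∀ x y : X, dist x y = sInf {l | StringLength S (pt x) (pt y) l}

/-- The simplices `s` and `t` are isometric by the affine map given by a bijection `e` of their
vertices. -/
def LpComplex.SameShape {p : ℝ≥0∞} [Fact (1 ≤ p)] {V : Type u} {X : Type v} [MetricSpace X]
    (C : LpComplex p V X) (s t : Finset V) : Prop :=
  ∃ e : s ≃ t, ∀ a b : s → ℝ, (∀ v, 0 ≤ a v) → ∑ v, a v = 1 → (∀ v, 0 ≤ b v) → ∑ v, b v = 1 →
    dist (∑ v, a v • C.S.vtx s v) (∑ v, b v • C.S.vtx s v) =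
      dist (∑ v, a v • C.S.vtx t (e v)) (∑ v, b v • C.S.vtx t (e v))

/-- Each vertex lies in simplices of only finitely many isometry types. This holds if the complex
is locally finite, and also if it has only finitely many isometry types of simplices. -/
def LpComplex.LocallyFiniteShapes {p : ℝ≥0∞} [Fact (1 ≤ p)] {V : Type u} {X : Type v}
    [MetricSpace X] (C : LpComplex p V X) : Prop :=
  ∀ v : V, ∃ F : Set (Finset V), F.Finite ∧ F ⊆ C.K.faces ∧
    ∀ s ∈ C.K.faces, v ∈ s → ∃ t ∈ F, C.SameShape s t

/-- On `[0, 1]` the map `γ` is a geodesic from `x` to `y`, parametrised proportionally to arc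
length. -/
def IsGeodesic {X : Type v} [MetricSpace X] (γ : ℝ → X) (x y : X) : Prop :=
  γ 0 = x ∧ γ 1 = y ∧
    ∀ s ∈ Icc (0 : ℝ) 1, ∀ t ∈ Icc (0 : ℝ) 1, dist (γ s) (γ t) = |s - t| * dist x y

/-- `σ` is a conical bicombing of `X`: it assigns to every ordered pair of points a geodesic from
the first to the second, and at time `t` two of these geodesics are at distance at most
`(1 - t) a + t b`, where `a` and `b` are the distances of their starting points and of their end
points. -/
def IsConicalBicombing {X : Type v} [MetricSpace X] (σ : X → X → ℝ → X) : Prop :=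
  (∀ x y, IsGeodesic (σ x y) x y) ∧
    ∀ x y x' y', ∀ t ∈ Icc (0 : ℝ) 1,
      dist (σ x y t) (σ x' y' t) ≤ (1 - t) * dist x x' + t * dist y y'

/-- `σ` is a convex bicombing of `X`: it assigns to every ordered pair of points a geodesic from
the first to the second, and the distance between any two of these geodesics is a convex
function of the parameter. -/
def IsConvexBicombing {X : Type v} [MetricSpace X] (σ : X → X → ℝ → X) : Prop :=
  (∀ x y, IsGeodesic (σ x y) x y) ∧
    ∀ x y x' y', ConvexOn ℝ (Icc (0 : ℝ) 1) (fun t => dist (σ x y t) (σ x' y' t))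

/-- `X` is Busemann convex: any two points are joined by exactly one geodesic, and the distance
between any two geodesics is a convex function of the parameter. -/
def BusemannConvex (X : Type v) [MetricSpace X] : Prop :=
  (∀ x y : X, ∃ γ : ℝ → X, IsGeodesic γ x y) ∧
  (∀ (x y : X) (γ γ' : ℝ → X), IsGeodesic γ x y → IsGeodesic γ' x y →
    EqOn γ γ' (Icc (0 : ℝ) 1)) ∧
  ∀ (x y x' y' : X) (γ γ' : ℝ → X), IsGeodesic γ x y → IsGeodesic γ' x' y' →
    ConvexOn ℝ (Icc (0 : ℝ) 1) (fun t => dist (γ t) (γ' t))

end Pool.Agent.LpBusemann
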