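import Pool.Agent.LpBusemann.Defs

/-!
# Euclidean triangles, simplicial isometries

Definitions for the two-dimensional theorem on the problem MP_e44843_al.
-/

open scoped ENNReal

namespace Pool.Agent.LpBusemann

universe u v

/-- The angle at the vertex `v` of the Euclidean triangle with vertices `v a b` and edge lengths
`L v a`, `L v b`, `L a b`, by the law of cosines. -/
noncomputable def angleOf {V : Type u} (L : V → V → ℝ) (v a b : V) : ℝ :=
  Real.arccos ((L v a ^ 2 + L v b ^ 2 - L a b ^ 2) / (2 * L v a * L v b))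

/-- `v a b` are the vertices of a triangle of the complex. -/
def LpComplex.IsTri {p : ℝ≥0∞} [Fact (1 ≤ p)] {V : Type u} [DecidableEq V] {X : Type v}
    [MetricSpace X] (C : LpComplex p V X) (v a b : V) : Prop :=
  a ≠ v ∧ b ≠ v ∧ a ≠ b ∧ ({v, a, b} : Finset V) ∈ C.K.faces

/-- The bijection `f` of the vertices maps simplices to simplices, in both directions, and it is
an isometry on every simplex. -/
def LpComplex.IsSimplicialIsometry {p : ℝ≥0∞} [Fact (1 ≤ p)] {V : Type u} {X : Type v}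
    [MetricSpace X] (C : LpComplex p V X) (f : V ≃ V) : Prop :=
  (∀ s : Finset V, s ∈ C.K.faces ↔ s.map f.toEmbedding ∈ C.K.faces) ∧
  ∀ s ∈ C.K.faces, ∀ a b : V → ℝ, (∀ v, 0 ≤ a v) → ∑ v ∈ s, a v = 1 →
    (∀ v, 0 ≤ b v) → ∑ v ∈ s, b v = 1 →
    dist (∑ v ∈ s, a v • C.S.vtx s v) (∑ v ∈ s, b v • C.S.vtx s v) =
      dist (∑ v ∈ s, a v • C.S.vtx (s.map f.toEmbedding) (f v))
        (∑ v ∈ s, b v • C.S.vtx (s.map f.toEmbedding) (f v))

end Pool.Agent.LpBusemann
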