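import Pool.Agent.LpBusemann.Lamperti

/-!
# Euclidean planes in finite-dimensional l^p spaces exist only for even integers p
-/

open scoped ENNReal Topology
open Set Filter

namespace Pool.Agent.LpBusemann

/-- If `|s| ^ q`, up to a positive factor, is analytic at `0` then `q` is an even integer. -/
theorem even_of_analytic {q D : ℝ} (hD : 0 < D) {h : ℝ → ℝ} (hh : AnalyticAt ℝ h 0)
    (heq : ∀ᶠ s in 𝓝 (0 : ℝ), D * |s| ^ q = h s) : ∃ n : ℕ, q = 2 * n := by
  have hnz : ¬ ∀ᶠ s in 𝓝 (0 : ℝ), h s = 0 := by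
    intro h0
    obtain ⟨ε, hε, H⟩ := Metric.eventually_nhds_iff.1 (heq.and h0)
    have h1 := H (y := ε / 2) (by
      rw [Real.dist_eq, sub_zero, abs_of_pos (by linarith)]
      linarith)
    have h2 : 0 < D * |ε / 2| ^ q := by
      have : 0 < |ε / 2| := abs_pos.2 (by linarith)
      positivity
    rw [h1.1, h1.2] at h2
    exact lt_irrefl _ h2
  obtain ⟨n, g, hg, hg0, hgn⟩ := hh.exists_eventuallyEq_pow_smul_nonzero_iff.2 hnz
  have hall : ∀ᶠ s in 𝓝 (0 : ℝ), D * |s| ^ q = s ^ n * g s := by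
    filter_upwards [heq, hgn] with s h1 h2
    rw [h1, h2, sub_zero, smul_eq_mul]
  have hgc : Tendsto g (𝓝[>] 0) (𝓝 (g 0)) := hg.continuousAt.tendsto.mono_left nhdsWithin_le_nhds
  have hr : ∀ r : ℝ, 0 < r → Tendsto (fun s : ℝ => s ^ r) (𝓝[>] 0) (𝓝 0) := by
    intro r hr
    have h1 : ContinuousAt (fun s : ℝ => s ^ r) 0 := Real.continuousAt_rpow_const 0 r (Or.inr hr.le)
    have h2 := h1.tendsto
    simp only [Real.zero_rpow hr.ne'] at h2
    exact h2.mono_left nhdsWithin_le_nhds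
  have hpos : ∀ᶠ s in 𝓝[>] (0 : ℝ), 0 < s := eventually_mem_nhdsWithin
  have hallr := hall.filter_mono (nhdsWithin_le_nhds (s := Ioi (0 : ℝ)))
  have hqn : q = n := by
    rcases lt_trichotomy q n with hlt | h | hgt
    · exfalso
      have h1 : Tendsto (fun s : ℝ => s ^ ((n : ℝ) - q) * g s) (𝓝[>] 0) (𝓝 (0 * g 0)) :=
        (hr _ (by linarith)).mul hgc
      have h2 : Tendsto (fun s : ℝ => s ^ ((n : ℝ) - q) * g s) (𝓝[>] 0) (𝓝 D) := by
        apply tendsto_const_nhds.congr'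
        filter_upwards [hallr, hpos] with s h3 h4
        rw [abs_of_pos h4] at h3
        rw [Real.rpow_sub h4, Real.rpow_natCast, div_mul_eq_mul_div, ← h3]
        have : s ^ q ≠ 0 := (Real.rpow_pos_of_pos h4 q).ne'
        field_simp
      have := tendsto_nhds_unique h1 h2
      rw [zero_mul] at this
      linarith
    · exact h
    · exfalso
      have h1 : Tendsto (fun s : ℝ => D * s ^ (q - (n : ℝ))) (𝓝[>] 0) (𝓝 (D * 0)) :=
        (hr _ (by linarith)).const_mul D
      have h2 : Tendsto (fun s : ℝ => D * s ^ (q - (n : ℝ))) (𝓝[>] 0) (𝓝 (g 0)) := by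
        apply hgc.congr'
        filter_upwards [hallr, hpos] with s h3 h4
        rw [abs_of_pos h4] at h3
        rw [Real.rpow_sub h4, Real.rpow_natCast, ← mul_div_assoc, h3]
        have : s ^ n ≠ 0 := (pow_pos h4 n).ne'
        field_simp
      have := tendsto_nhds_unique h1 h2
      rw [mul_zero] at this
      exact hg0 this.symm
  rcases Nat.even_or_odd n with he | ho
  · obtain ⟨k, hk⟩ := he
    exact ⟨k, by rw [hqn, hk]; push_cast; ring⟩
  · exfalso
    -- an odd order contradicts positivity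
    have hneg : Tendsto (fun s : ℝ => -s) (𝓝 0) (𝓝 0) := by
      have := (continuous_neg (G := ℝ)).tendsto 0
      rwa [neg_zero] at this
    have hall' := hneg.eventually hall
    have h1 : Tendsto (fun s : ℝ => g (-s)) (𝓝[>] 0) (𝓝 (g 0)) := by
      have h2 : Tendsto g (𝓝 0) (𝓝 (g 0)) := hg.continuousAt.tendsto
      exact (h2.comp hneg).mono_left nhdsWithin_le_nhds
    have h3 : Tendsto (fun s : ℝ => g (-s)) (𝓝[>] 0) (𝓝 (-g 0)) := by
      apply hgc.neg.congr'
      filter_upwards [hallr, hpos, hall'.filter_mono (nhdsWithin_le_nhds (s := Ioi (0 : ℝ)))]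
        with s h4 h5 h6
      rw [abs_neg, h4, ho.neg_pow] at h6
      have h7 : s ^ n ≠ 0 := (pow_pos h5 n).ne'
      have h8 : s ^ n * (g s + g (-s)) = 0 := by linear_combination h6
      rcases mul_eq_zero.1 h8 with h9 | h9
      · exact absurd h9 h7
      · linarith
    have := tendsto_nhds_unique h1 h3
    apply hg0
    linarith

theorem analyticAt_abs_rpow {u : ℝ → ℝ} {q : ℝ} (hu : AnalyticAt ℝ u 0) (h0 : u 0 ≠ 0) :
    ∃ h : ℝ → ℝ, AnalyticAt ℝ h 0 ∧ ∀ᶠ s in 𝓝 (0 : ℝ), |u s| ^ q = h s := by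
  have h2 : AnalyticAt ℝ (fun s => u s ^ 2) 0 := hu.pow 2
  have hp : 0 < u 0 ^ 2 := by positivity
  refine ⟨fun s => Real.exp (Real.log (u s ^ 2) * (q / 2)), ?_, ?_⟩
  · exact ((h2.log hp).mul analyticAt_const).rexp'
  · have hc : ∀ᶠ s in 𝓝 (0 : ℝ), u s ≠ 0 := hu.continuousAt.eventually_ne h0
    filter_upwards [hc] with s hs
    rw [← sq_rpow_half, Real.rpow_def_of_pos (by positivity)]

variable {p : ℝ≥0∞} [Fact (1 ≤ p)]

/-- A Euclidean plane in a finite-dimensional l^p space: `p` is an even integer. -/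
theorem even_of_euclid (hq0 : 0 < p.toReal) {m : ℕ} (P Q : PiLp p (fun _ : Fin m => ℝ)) {c : ℝ}
    (hc : 0 < c) (h : ∀ x y : ℝ, ‖x • P + y • Q‖ = c * Real.sqrt (x ^ 2 + y ^ 2)) :
    ∃ n : ℕ, p.toReal = 2 * n := by
  classical
  set q : ℝ := p.toReal with hq
  -- the norm in coordinates
  have hN : ∀ x y : ℝ, ∑ k, |x * P k + y * Q k| ^ q = (c * Real.sqrt (x ^ 2 + y ^ 2)) ^ q := by
    intro x y
    rw [← h x y, hq, norm_rpow_eq hq0]
    simp
  -- a coordinate which does not vanish on the plane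
  obtain ⟨k0, hk0⟩ : ∃ k, P k ≠ 0 := by
    by_contra hno
    push Not at hno
    have h1 := hN 1 0
    rw [Finset.sum_eq_zero fun k _ => by
      rw [hno k, mul_zero, zero_mul, add_zero, abs_zero, Real.zero_rpow hq0.ne']] at h1
    have h2 : 0 < (c * Real.sqrt (1 ^ 2 + 0 ^ 2)) ^ q := by
      have : Real.sqrt (1 ^ 2 + 0 ^ 2) = 1 := by norm_num
      rw [this, mul_one]
      exact Real.rpow_pos_of_pos hc q
    rw [← h1] at h2
    exact lt_irrefl _ h2
  -- the two directions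
  set a : ℝ := P k0 with ha
  set b : ℝ := Q k0 with hb
  set R : ℝ := Real.sqrt (a ^ 2 + b ^ 2) with hR
  have hab : 0 < a ^ 2 + b ^ 2 := by positivity
  have hR0 : 0 < R := Real.sqrt_pos.2 hab
  have hR2 : R ^ 2 = a ^ 2 + b ^ 2 := Real.sq_sqrt hab.le
  set E : Fin m → ℝ := fun k => (-b) * P k + a * Q k with hE
  set G : Fin m → ℝ := fun k => a * P k + b * Q k with hG
  have hmain : ∀ s : ℝ, ∑ k, |E k + s * G k| ^ q = (c * R * Real.sqrt (1 + s ^ 2)) ^ q := by
    intro s
    have h1 := hN (-b + s * a) (a + s * b)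
    have h2 : Real.sqrt ((-b + s * a) ^ 2 + (a + s * b) ^ 2) = R * Real.sqrt (1 + s ^ 2) := by
      rw [hR, ← Real.sqrt_mul hab.le]
      congr 1
      ring
    rw [h2, ← mul_assoc] at h1
    rw [← h1]
    apply Finset.sum_congr rfl
    intro k _
    congr 2
    simp only [hE, hG]
    ring
  have hEk0 : E k0 = 0 := by
    simp only [hE]
    rw [← ha, ← hb]
    ring
  have hGk0 : G k0 ≠ 0 := by
    simp only [hG]
    rw [← ha, ← hb]
    nlinarith
  -- split the sum
  set S : Finset (Fin m) := Finset.univ.filter fun k => E k = 0 with hS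
  set D : ℝ := ∑ k ∈ S, |G k| ^ q with hDdef
  have hD : 0 < D := by
    apply Finset.sum_pos'
    · intro k _
      exact Real.rpow_nonneg (abs_nonneg _) _
    · exact ⟨k0, by simp [hS, hEk0], Real.rpow_pos_of_pos (abs_pos.2 hGk0) _⟩
  have hsplit : ∀ s : ℝ, D * |s| ^ q = (c * R * Real.sqrt (1 + s ^ 2)) ^ q -
      ∑ k ∈ Finset.univ.filter (fun k => ¬ E k = 0), |E k + s * G k| ^ q := by
    intro s
    rw [← hmain s, ← Finset.sum_filter_add_sum_filter_not Finset.univ (fun k => E k = 0),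
      add_sub_cancel_right, hDdef, Finset.sum_mul]
    apply Finset.sum_congr rfl
    intro k hk
    have : E k = 0 := (Finset.mem_filter.1 hk).2
    rw [this, zero_add, abs_mul, Real.mul_rpow (abs_nonneg _) (abs_nonneg _), mul_comm]
  -- analyticity
  have hA1 : ∃ h1 : ℝ → ℝ, AnalyticAt ℝ h1 0 ∧
      ∀ᶠ s in 𝓝 (0 : ℝ), (c * R * Real.sqrt (1 + s ^ 2)) ^ q = h1 s := by
    have hu : AnalyticAt ℝ (fun s : ℝ => (c * R) ^ 2 * (1 + s ^ 2)) 0 :=
      analyticAt_const.mul (analyticAt_const.add (analyticAt_id.pow 2))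
    obtain ⟨h1, h2, h3⟩ := analyticAt_abs_rpow (q := q / 2) hu (by
      have : 0 < c * R := mul_pos hc hR0
      positivity)
    refine ⟨h1, h2, ?_⟩
    filter_upwards [h3] with s hs
    rw [← hs, abs_of_nonneg (by positivity)]
    have h4 : 0 ≤ c * R * Real.sqrt (1 + s ^ 2) := by positivity
    have h5 : (c * R) ^ 2 * (1 + s ^ 2) = (c * R * Real.sqrt (1 + s ^ 2)) ^ 2 := by
      have h6 : Real.sqrt (1 + s ^ 2) ^ 2 = 1 + s ^ 2 := Real.sq_sqrt (by positivity)
      rw [mul_pow (c * R), h6]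
    rw [h5, sq_rpow_half, abs_of_nonneg h4]
  obtain ⟨h1, hh1, he1⟩ := hA1
  have hA2 : ∀ k ∈ Finset.univ.filter (fun k => ¬ E k = 0), ∃ h2 : ℝ → ℝ, AnalyticAt ℝ h2 0 ∧
      ∀ᶠ s in 𝓝 (0 : ℝ), |E k + s * G k| ^ q = h2 s := by
    intro k hk
    have hk' : ¬ E k = 0 := (Finset.mem_filter.1 hk).2
    apply analyticAt_abs_rpow
    · exact analyticAt_const.add (analyticAt_id.mul analyticAt_const)
    · simpa using hk'
  choose! h2 hh2 he2 using hA2
  have hAn : AnalyticAt ℝ (fun s => h1 s -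
      ∑ k ∈ Finset.univ.filter (fun k => ¬ E k = 0), h2 k s) 0 := by
    apply hh1.sub
    exact Finset.analyticAt_fun_sum _ fun k hk => hh2 k hk
  refine even_of_analytic hD hAn ?_
  have he2' : ∀ᶠ s in 𝓝 (0 : ℝ), ∀ k ∈ Finset.univ.filter (fun k => ¬ E k = 0),
      |E k + s * G k| ^ q = h2 k s := by
    rw [Filter.eventually_all_finset]
    exact fun k hk => he2 k hk
  filter_upwards [he1, he2'] with s h3 h4
  rw [hsplit s, h3, Finset.sum_congr rfl h4]

end Pool.Agent.LpBusemann
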