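import Pool.Agent.LpBusemann.Lengths

/-!
# The Euclidean lengths are invariant under simplicial isometries
-/

open scoped ENNReal
open Set

namespace Pool.Agent.LpBusemann

universe u v

section Inv

variable {p : ℝ≥0∞} [Fact (1 ≤ p)] {V : Type u} {X : Type v} [MetricSpace X] [DecidableEq V]
  {C : LpComplex p V X}

theorem LpComplex.IsSimplicialIsometry.nrm {f : V ≃ V} (hf : C.IsSimplicialIsometry f)
    {s : Finset V} (hs : s ∈ C.K.faces) {c d : V →₀ ℝ} (hc : ZS s c)
    (hd : ∀ v ∈ s, d (f v) = c v) : C.nrm (s.map f.toEmbedding) d = C.nrm s c := by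
  have hne : s.Nonempty := C.K.nonempty_of_mem s hs
  have hcard : (0 : ℝ) < s.card := by exact_mod_cast hne.card_pos
  set M : ℝ := 1 + ∑ v ∈ s, |c v| with hM
  have hM0 : 0 < M := by
    have : 0 ≤ ∑ v ∈ s, |c v| := Finset.sum_nonneg fun _ _ => abs_nonneg _
    linarith
  set ε : ℝ := 1 / (s.card * M) with hε
  have hε0 : 0 < ε := by positivity
  have hcv : ∀ v, |c v| ≤ M := by
    intro v
    by_cases hv : v ∈ s
    · have := Finset.single_le_sum (f := fun v => |c v|) (fun _ _ => abs_nonneg _) hv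
      linarith
    · rw [hc.notMem hv, abs_zero]
      exact hM0.le
  have hεc : ∀ v, |ε * c v| ≤ 1 / (s.card : ℝ) := by
    intro v
    rw [abs_mul, abs_of_pos hε0, hε]
    calc 1 / ((s.card : ℝ) * M) * |c v| ≤ 1 / ((s.card : ℝ) * M) * M :=
          mul_le_mul_of_nonneg_left (hcv v) (by positivity)
      _ = 1 / (s.card : ℝ) := by field_simp
  have hb0 : ∀ v, 0 ≤ bary s v := by
    intro v
    by_cases hv : v ∈ s
    · rw [bary_apply_mem hv]; positivity
    · rw [bary_apply_notMem hv]
  have h := hf.2 s hs (fun v => bary s v + ε * c v) (fun v => bary s v) (fun v => by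
    by_cases hv : v ∈ s
    · rw [bary_apply_mem hv]
      have := (abs_le.1 (hεc v)).1
      linarith
    · rw [bary_apply_notMem hv, hc.notMem hv]
      simp) (by
      rw [Finset.sum_add_distrib, bary_sum hne, ← Finset.mul_sum, hc.2, mul_zero, add_zero])
    hb0 (bary_sum hne)
  rw [dist_eq_norm, dist_eq_norm, ← Finset.sum_sub_distrib, ← Finset.sum_sub_distrib] at h
  have e1 : ∑ v ∈ s, ((bary s v + ε * c v) • C.S.vtx s v - bary s v • C.S.vtx s v) =
      ε • ∑ v ∈ s, c v • C.S.vtx s v := by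
    rw [Finset.smul_sum]
    apply Finset.sum_congr rfl
    intro v _
    rw [add_smul, add_sub_cancel_left, mul_smul]
  have e2 : ∑ v ∈ s, ((bary s v + ε * c v) • C.S.vtx (s.map f.toEmbedding) (f v) -
      bary s v • C.S.vtx (s.map f.toEmbedding) (f v)) =
      ε • ∑ v ∈ s, c v • C.S.vtx (s.map f.toEmbedding) (f v) := by
    rw [Finset.smul_sum]
    apply Finset.sum_congr rfl
    intro v _
    rw [add_smul, add_sub_cancel_left, mul_smul]
  rw [e1, e2, norm_smul, norm_smul] at h
  have h2 := mul_left_cancel₀ (norm_ne_zero_iff.2 hε0.ne') h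
  rw [LpComplex.nrm, LpComplex.nrm, Finset.sum_map, h2]
  congr 1
  apply Finset.sum_congr rfl
  intro v hv
  rw [Equiv.coe_toEmbedding, hd v hv]

theorem map_triple (f : V ≃ V) (v a b : V) :
    ({v, a, b} : Finset V).map f.toEmbedding = {f v, f a, f b} := by
  simp [Finset.map_insert]

theorem map_pair (f : V ≃ V) (v a : V) :
    ({v, a} : Finset V).map f.toEmbedding = {f v, f a} := by
  simp [Finset.map_insert]

theorem ev_map (f : V ≃ V) (v a w : V) : ev (f v) (f a) (f w) = ev v a w := by
  simp only [ev_apply, f.injective.eq_iff]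

theorem LpComplex.IsSimplicialIsometry.tri {f : V ≃ V} (hf : C.IsSimplicialIsometry f)
    {v a b : V} : C.IsTri (f v) (f a) (f b) ↔ C.IsTri v a b := by
  rw [LpComplex.IsTri, LpComplex.IsTri, f.injective.ne_iff, f.injective.ne_iff,
    f.injective.ne_iff, ← map_triple, ← hf.1]

theorem LpComplex.IsSimplicialIsometry.tn {f : V ≃ V} (hf : C.IsSimplicialIsometry f)
    {v a b : V} (h : C.IsTri v a b) : C.tn (f v) (f a) (f b) = C.tn v a b := by
  funext x y
  rw [LpComplex.tn, LpComplex.tn, ← map_triple]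
  apply hf.nrm h.2.2.2
  · exact ((ev_zs (by simp) (by simp)).smul x).add ((ev_zs (by simp) (by simp)).smul y)
  · intro w _
    simp only [Finsupp.add_apply, Finsupp.smul_apply, smul_eq_mul, ev_map]

/-- The Euclidean lengths are invariant under simplicial isometries. -/
theorem LpComplex.IsSimplicialIsometry.len (hB : BusemannConvex X) (hT : C.Tame)
    (hdim : ∀ s ∈ C.K.faces, s.card ≤ 3) {f : V ≃ V} (hf : C.IsSimplicialIsometry f) {u w : V}
    (huw : ({u, w} : Finset V) ∈ C.K.faces) : C.len (f u) (f w) = C.len u w := by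
  by_cases hex : ∃ c, C.IsTri u w c
  · obtain ⟨c, h⟩ := hex
    obtain ⟨α, β, γ, hl⟩ := h.exists_low
    have h1 := LpComplex.IsTri.len_sq hB hT hdim h hl
    have h' : C.IsTri (f u) (f w) (f c) := hf.tri.2 h
    have h2 := LpComplex.IsTri.len_sq hB hT hdim h' (by rw [hf.tn h]; exact hl)
    exact (sq_eq_sq₀ (C.len_nonneg _ _) (C.len_nonneg _ _)).1 (h2.trans h1.symm)
  · have hex' : ¬ ∃ c, C.IsTri (f u) (f w) c := by
      rintro ⟨c, hc⟩
      apply hex
      refine ⟨f.symm c, hf.tri.1 ?_⟩
      rw [Equiv.apply_symm_apply]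
      exact hc
    rw [LpComplex.len, LpComplex.len, dif_neg hex, dif_neg hex', ← map_pair]
    apply hf.nrm huw
    · exact ev_zs (by simp) (by simp)
    · intro v _
      exact ev_map f u w v

/-- The length of an edge is positive. -/
theorem LpComplex.len_pos (hB : BusemannConvex X) (hT : C.Tame)
    (hdim : ∀ s ∈ C.K.faces, s.card ≤ 3) {u w : V} (hne : u ≠ w)
    (huw : ({u, w} : Finset V) ∈ C.K.faces) : 0 < C.len u w := by
  by_cases hex : ∃ c, C.IsTri u w c
  · obtain ⟨c, h⟩ := hex
    exact (LpComplex.IsTri.facts hB hT hdim h).1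
  · rw [LpComplex.len, dif_neg hex]
    apply C.nrm_pos huw (ev_zs (by simp) (by simp))
    intro h0
    have h1 : ev u w w = 0 := by rw [h0]; rfl
    rw [ev_apply, if_pos rfl, if_neg hne] at h1
    norm_num at h1

/-- The strict triangle inequality. -/
theorem LpComplex.IsTri.len_lt (hB : BusemannConvex X) (hT : C.Tame)
    (hdim : ∀ s ∈ C.K.faces, s.card ≤ 3) {v a b : V} (h : C.IsTri v a b) :
    C.len a b < C.len v a + C.len v b := by
  obtain ⟨h1, h2, h3, h4, h5, h6⟩ := LpComplex.IsTri.facts hB hT hdim h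
  have hs := Real.sin_pos_of_pos_of_lt_pi h3 h4
  have hcos : -1 < Real.cos (angleOf C.len v a b) := by
    have := Real.sin_sq_add_cos_sq (angleOf C.len v a b)
    nlinarith [pow_pos hs 2]
  have hxy := mul_pos h1 h2
  apply lt_of_pow_lt_pow_left₀ 2 (by positivity)
  nlinarith [mul_pos hxy (show 0 < Real.cos (angleOf C.len v a b) + 1 by linarith)]

end Inv

end Pool.Agent.LpBusemann
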