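import Mathlib

/-!
# Linear isometries between finite-dimensional l^p spaces, p different from 2

They permute the coordinates up to sign (Banach, Lamperti).
-/

open scoped ENNReal
open Set

namespace Pool.Agent.LpBusemann

/-- The scalar Clarkson expression. -/
noncomputable def clk (q a b : ℝ) : ℝ := |a + b| ^ q + |a - b| ^ q - 2 * |a| ^ q - 2 * |b| ^ q

theorem sq_rpow_half {q : ℝ} (a : ℝ) : (a ^ 2) ^ (q / 2) = |a| ^ q := by
  rw [← sq_abs, ← Real.rpow_natCast, ← Real.rpow_mul (abs_nonneg a)]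
  congr 1
  push_cast
  ring

theorem clk_zero {q : ℝ} (hq : 0 < q) {a b : ℝ} (h : a * b = 0) : clk q a b = 0 := by
  rcases mul_eq_zero.1 h with h | h
  · subst h
    simp only [clk, zero_add, zero_sub, abs_neg, abs_zero, Real.zero_rpow hq.ne']
    ring
  · subst h
    simp only [clk, add_zero, sub_zero, abs_zero, Real.zero_rpow hq.ne']
    ring

theorem split_lt {r x y : ℝ} (hr : 1 < r) (hx : 0 < x) (hy : 0 < y) :
    x ^ r + y ^ r < (x + y) ^ r := by
  have hs : 0 < x + y := by linarith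
  have h1 : (x / (x + y)) ^ r < x / (x + y) :=
    Real.rpow_lt_self_of_lt_one (div_pos hx hs) ((div_lt_one hs).2 (by linarith)) hr
  have h2 : (y / (x + y)) ^ r < y / (x + y) :=
    Real.rpow_lt_self_of_lt_one (div_pos hy hs) ((div_lt_one hs).2 (by linarith)) hr
  rw [Real.div_rpow hx.le hs.le] at h1
  rw [Real.div_rpow hy.le hs.le] at h2
  have hS : 0 < (x + y) ^ r := Real.rpow_pos_of_pos hs _
  have h3 : x ^ r / (x + y) ^ r + y ^ r / (x + y) ^ r < 1 := by
    have : x / (x + y) + y / (x + y) = 1 := by field_simp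
    linarith
  rw [← add_div, div_lt_one hS] at h3
  exact h3

theorem split_gt {r x y : ℝ} (hr0 : 0 < r) (hr : r < 1) (hx : 0 < x) (hy : 0 < y) :
    (x + y) ^ r < x ^ r + y ^ r := by
  have hs : 0 < x + y := by linarith
  have h1 : x / (x + y) < (x / (x + y)) ^ r :=
    Real.self_lt_rpow_of_lt_one (div_pos hx hs) ((div_lt_one hs).2 (by linarith)) hr
  have h2 : y / (x + y) < (y / (x + y)) ^ r :=
    Real.self_lt_rpow_of_lt_one (div_pos hy hs) ((div_lt_one hs).2 (by linarith)) hr
  rw [Real.div_rpow hx.le hs.le] at h1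
  rw [Real.div_rpow hy.le hs.le] at h2
  have hS : 0 < (x + y) ^ r := Real.rpow_pos_of_pos hs _
  have h3 : 1 < x ^ r / (x + y) ^ r + y ^ r / (x + y) ^ r := by
    have : x / (x + y) + y / (x + y) = 1 := by field_simp
    linarith
  rw [← add_div, one_lt_div hS] at h3
  exact h3

theorem clk_pos {q : ℝ} (hq : 2 < q) {a b : ℝ} (h : a * b ≠ 0) : 0 < clk q a b := by
  have ha : 0 < a ^ 2 := by
    have : a ≠ 0 := fun h' => h (by rw [h', zero_mul])
    positivity
  have hb : 0 < b ^ 2 := by
    have : b ≠ 0 := fun h' => h (by rw [h', mul_zero])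
    positivity
  have h1 := split_lt (r := q / 2) (by linarith) ha hb
  have h2 := (convexOn_rpow (show 1 ≤ q / 2 by linarith)).2
    (mem_Ici.2 (sq_nonneg (a + b))) (mem_Ici.2 (sq_nonneg (a - b)))
    (show (0 : ℝ) ≤ 1 / 2 by norm_num) (show (0 : ℝ) ≤ 1 / 2 by norm_num) (by norm_num)
  simp only [smul_eq_mul] at h2
  rw [show 1 / 2 * (a + b) ^ 2 + 1 / 2 * (a - b) ^ 2 = a ^ 2 + b ^ 2 by ring] at h2
  simp only [sq_rpow_half] at h1 h2
  unfold clk
  linarith

theorem clk_neg {q : ℝ} (hq0 : 0 < q) (hq : q < 2) {a b : ℝ} (h : a * b ≠ 0) :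
    clk q a b < 0 := by
  have ha : 0 < a ^ 2 := by
    have : a ≠ 0 := fun h' => h (by rw [h', zero_mul])
    positivity
  have hb : 0 < b ^ 2 := by
    have : b ≠ 0 := fun h' => h (by rw [h', mul_zero])
    positivity
  have h1 := split_gt (r := q / 2) (by linarith) (by linarith) ha hb
  have h2 := (Real.concaveOn_rpow (show 0 ≤ q / 2 by linarith) (show q / 2 ≤ 1 by linarith)).2
    (mem_Ici.2 (sq_nonneg (a + b))) (mem_Ici.2 (sq_nonneg (a - b)))
    (show (0 : ℝ) ≤ 1 / 2 by norm_num) (show (0 : ℝ) ≤ 1 / 2 by norm_num) (by norm_num)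
  simp only [smul_eq_mul] at h2
  rw [show 1 / 2 * (a + b) ^ 2 + 1 / 2 * (a - b) ^ 2 = a ^ 2 + b ^ 2 by ring] at h2
  simp only [sq_rpow_half] at h1 h2
  unfold clk
  linarith

theorem sum_clk_eq_zero {q : ℝ} (hq0 : 0 < q) (hq2 : q ≠ 2) {ι : Type*} [Fintype ι]
    {x y : ι → ℝ} (h : ∑ k, clk q (x k) (y k) = 0) (k : ι) : x k * y k = 0 := by
  by_contra hk
  rcases lt_or_gt_of_ne hq2 with hlt | hgt
  · have h1 : ∑ k, clk q (x k) (y k) < ∑ _k : ι, (0 : ℝ) := by
      apply Finset.sum_lt_sum
      · intro i _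
        by_cases hi : x i * y i = 0
        · exact (clk_zero hq0 hi).le
        · exact (clk_neg hq0 hlt hi).le
      · exact ⟨k, Finset.mem_univ _, clk_neg hq0 hlt hk⟩
    rw [h, Finset.sum_const_zero] at h1
    exact lt_irrefl _ h1
  · have h1 : ∑ _k : ι, (0 : ℝ) < ∑ k, clk q (x k) (y k) := by
      apply Finset.sum_lt_sum
      · intro i _
        by_cases hi : x i * y i = 0
        · exact (clk_zero hq0 hi).ge
        · exact (clk_pos hgt hi).le
      · exact ⟨k, Finset.mem_univ _, clk_pos hgt hk⟩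
    rw [h, Finset.sum_const_zero] at h1
    exact lt_irrefl _ h1

variable {p : ℝ≥0∞} [Fact (1 ≤ p)]

theorem norm_rpow_eq (hq0 : 0 < p.toReal) {m : ℕ} (x : PiLp p (fun _ : Fin m => ℝ)) :
    ‖x‖ ^ p.toReal = ∑ k, |x k| ^ p.toReal := by
  rw [PiLp.norm_eq_sum hq0]
  simp only [Real.norm_eq_abs]
  have hnn : 0 ≤ ∑ i, |x i| ^ p.toReal :=
    Finset.sum_nonneg fun i _ => Real.rpow_nonneg (abs_nonneg _) _
  rw [← Real.rpow_mul hnn, one_div, inv_mul_cancel₀ hq0.ne', Real.rpow_one]

/-- A linear isometry between l^p spaces of the same finite dimension, `p` different from 2 and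
infinity, is a signed permutation of the coordinates. -/
theorem lamperti (hp2 : p ≠ 2) (hpt : p ≠ ⊤) {m m' : ℕ} (hmm : m = m')
    (φ : PiLp p (fun _ : Fin m => ℝ) →ₗ[ℝ] PiLp p (fun _ : Fin m' => ℝ))
    (hφ : ∀ x, ‖φ x‖ = ‖x‖) :
    ∃ (π : Fin m ≃ Fin m') (ε : Fin m → ℝ), (∀ i, ε i = 1 ∨ ε i = -1) ∧
      ∀ x i, φ x (π i) = ε i * x i := by
  classical
  have hp1 : 1 ≤ p := Fact.out
  have hq1 : 1 ≤ p.toReal := by
    have := (ENNReal.toReal_le_toReal ENNReal.one_ne_top hpt).2 hp1
    simpa using this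
  have hq0 : 0 < p.toReal := by linarith
  have hq2 : p.toReal ≠ 2 := by
    intro h
    apply hp2
    rw [← ENNReal.ofReal_toReal hpt, h]
    norm_num
  -- the images of the basis vectors
  set e : Fin m → PiLp p (fun _ : Fin m => ℝ) := fun i => WithLp.toLp p (Pi.single i 1) with he
  have hek : ∀ i k, e i k = if k = i then 1 else 0 := by
    intro i k
    simp only [he, PiLp.toLp_apply, Pi.single_apply]
  have hdis : ∀ i j, i ≠ j → ∀ k, φ (e i) k * φ (e j) k = 0 := by
    intro i j hij
    apply sum_clk_eq_zero (x := fun k => φ (e i) k) (y := fun k => φ (e j) k) hq0 hq2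
    have h1 : ∑ k, clk p.toReal (φ (e i) k) (φ (e j) k) =
        ‖φ (e i + e j)‖ ^ p.toReal + ‖φ (e i - e j)‖ ^ p.toReal - 2 * ‖φ (e i)‖ ^ p.toReal -
          2 * ‖φ (e j)‖ ^ p.toReal := by
      simp only [norm_rpow_eq hq0, map_add, map_sub, PiLp.add_apply, PiLp.sub_apply, clk,
        Finset.sum_sub_distrib, Finset.sum_add_distrib, Finset.mul_sum]
    have h2 : ∑ k, clk p.toReal (e i k) (e j k) =
        ‖e i + e j‖ ^ p.toReal + ‖e i - e j‖ ^ p.toReal - 2 * ‖e i‖ ^ p.toReal -
          2 * ‖e j‖ ^ p.toReal := by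
      simp only [norm_rpow_eq hq0, PiLp.add_apply, PiLp.sub_apply, clk,
        Finset.sum_sub_distrib, Finset.sum_add_distrib, Finset.mul_sum]
    rw [h1, hφ, hφ, hφ, hφ, ← h2]
    apply Finset.sum_eq_zero
    intro k _
    apply clk_zero hq0
    rw [hek, hek]
    by_cases h : k = i
    · rw [if_pos h, if_neg (fun h' => hij (h.symm.trans h')), mul_zero]
    · rw [if_neg h, zero_mul]
  have hnorm : ∀ i, ∑ k, |φ (e i) k| ^ p.toReal = 1 := by
    intro i
    rw [← norm_rpow_eq hq0, hφ, norm_rpow_eq hq0, Finset.sum_eq_single i]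
    · rw [hek, if_pos rfl, abs_one, Real.one_rpow]
    · intro k _ hk
      rw [hek, if_neg hk, abs_zero, Real.zero_rpow hq0.ne']
    · intro h
      exact absurd (Finset.mem_univ _) h
  have hex : ∀ i, ∃ k, φ (e i) k ≠ 0 := by
    intro i
    by_contra hno
    push Not at hno
    have := hnorm i
    rw [Finset.sum_eq_zero fun k _ => by rw [hno k, abs_zero, Real.zero_rpow hq0.ne']] at this
    exact zero_ne_one this
  choose f hf using hex
  have hfinj : Function.Injective f := by
    intro i j hij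
    by_contra hne
    have := hdis i j hne (f i)
    rcases mul_eq_zero.1 this with h | h
    · exact hf i h
    · rw [hij] at h
      exact hf j h
  have hfbij : Function.Bijective f := by
    subst hmm
    exact Finite.injective_iff_bijective.1 hfinj
  have hzero : ∀ i j, i ≠ j → φ (e i) (f j) = 0 := by
    intro i j hij
    rcases mul_eq_zero.1 (hdis i j hij (f j)) with h | h
    · exact h
    · exact absurd h (hf j)
  refine ⟨Equiv.ofBijective f hfbij, fun i => φ (e i) (f i), ?_, ?_⟩
  · intro i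
    have h1 := hnorm i
    rw [Finset.sum_eq_single (f i)] at h1
    · have h2 : |φ (e i) (f i)| = 1 := by
        have h3 := Real.rpow_left_inj (abs_nonneg (φ (e i) (f i))) zero_le_one hq0.ne'
        rw [Real.one_rpow] at h3
        exact h3.1 h1
      rcases abs_eq (zero_le_one' ℝ) |>.1 h2 with h | h
      · exact Or.inl h
      · exact Or.inr h
    · intro k _ hk
      obtain ⟨j, rfl⟩ := hfbij.2 k
      rw [hzero i j (fun h => hk (by rw [h])), abs_zero, Real.zero_rpow hq0.ne']
    · intro h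
      exact absurd (Finset.mem_univ _) h
  · intro x i
    have hx : x = ∑ j, x j • e j := by
      ext k
      rw [WithLp.ofLp_sum, Finset.sum_apply, Finset.sum_eq_single k]
      · simp [he]
      · intro j _ hj
        simp [he, Pi.single_apply, hj.symm]
      · intro h
        exact absurd (Finset.mem_univ _) h
    have h1 : φ x (f i) = ∑ j, x j * φ (e j) (f i) := by
      conv_lhs => rw [hx]
      rw [map_sum, WithLp.ofLp_sum, Finset.sum_apply]
      simp [map_smul]
    rw [Equiv.ofBijective_apply, h1, Finset.sum_eq_single i]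
    · ring
    · intro j _ hj
      rw [hzero j i hj, mul_zero]
    · intro h
      exact absurd (Finset.mem_univ _) h

end Pool.Agent.LpBusemann
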