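import Pool.Agent.LpBusemann.Tri
import Pool.Agent.LpBusemann.DimTwoDefs

/-!
# The Euclidean lengths given by the Loewner ellipses of the triangles
-/

open scoped ENNReal
open Set

namespace Pool.Agent.LpBusemann

universe u v

open Classical in
/-- The first coefficient of the Loewner form. -/
noncomputable def lowA (n : ℝ → ℝ → ℝ) : ℝ :=
  if h : ∃ a b c, IsLow n a b c then h.choose else 0

theorem lowA_eq {n : ℝ → ℝ → ℝ} {k : ℝ} (hk : 0 < k)
    (hn : ∀ x y, k * (x ^ 2 + y ^ 2) ≤ (n x y) ^ 2) {a b c : ℝ} (h : IsLow n a b c) :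
    lowA n = a := by
  have hex : ∃ a b c, IsLow n a b c := ⟨a, b, c, h⟩
  rw [lowA, dif_pos hex]
  obtain ⟨b', c', h'⟩ := hex.choose_spec
  exact (h'.unique hk hn h).1

section Lengths

variable {p : ℝ≥0∞} [Fact (1 ≤ p)] {V : Type u} {X : Type v} [MetricSpace X] [DecidableEq V]
  (C : LpComplex p V X)

theorem LpComplex.coord_nrm {s : Finset V} (hs : s ∈ C.K.faces) :
    ∃ A : ℝ, 0 < A ∧ ∀ c : V →₀ ℝ, ZS s c → ∀ v, |c v| ≤ A * C.nrm s c := by
  obtain ⟨A, hA0, hA⟩ := coord_bound (fun v : s => C.S.vtx s v) (C.S.indep s hs)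
  refine ⟨A, hA0, fun c hc v => ?_⟩
  by_cases hv : v ∈ s
  · have h1 := hA (fun v : s => c v) (by
      rw [Finset.sum_coe_sort s fun v => c v]
      exact hc.2) ⟨v, hv⟩
    rw [Finset.sum_coe_sort s fun v => c v • C.S.vtx s v] at h1
    exact h1
  · rw [hc.notMem hv, abs_zero]
    exact mul_nonneg hA0.le (C.nrm_nonneg _ _)

variable {C}

theorem LpComplex.IsTri.swap {v a b : V} (h : C.IsTri v a b) : C.IsTri v b a := by
  refine ⟨h.2.1, h.1, h.2.2.1.symm, ?_⟩
  rw [Finset.pair_comm b a]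
  exact h.2.2.2

theorem LpComplex.IsTri.rot {v a b : V} (h : C.IsTri v a b) : C.IsTri a v b := by
  refine ⟨h.1.symm, h.2.2.1.symm, h.2.1.symm, ?_⟩
  rw [Finset.insert_comm a v]
  exact h.2.2.2

theorem LpComplex.IsTri.card {v a b : V} (h : C.IsTri v a b) :
    ({v, a, b} : Finset V).card = 3 := by
  rw [Finset.card_insert_of_notMem, Finset.card_pair h.2.2.1]
  rw [Finset.mem_insert, Finset.mem_singleton]
  rintro (h1 | h1)
  · exact h.1 h1.symm
  · exact h.2.1 h1.symm

theorem LpComplex.IsTri.bound {v a b : V} (h : C.IsTri v a b) :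
    ∃ k : ℝ, 0 < k ∧ ∀ x y, k * (x ^ 2 + y ^ 2) ≤ (C.tn v a b x y) ^ 2 := by
  obtain ⟨A, hA0, hA⟩ := C.coord_nrm h.2.2.2
  refine ⟨1 / (2 * A ^ 2), by positivity, fun x y => ?_⟩
  have hv : v ∈ ({v, a, b} : Finset V) := by simp
  have ha : a ∈ ({v, a, b} : Finset V) := by simp
  have hb : b ∈ ({v, a, b} : Finset V) := by simp
  have hz : ZS {v, a, b} (x • ev v a + y • ev v b) :=
    ((ev_zs hv ha).smul x).add ((ev_zs hv hb).smul y)
  have h1 := hA _ hz a
  have h2 := hA _ hz b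
  have e1 : (x • ev v a + y • ev v b) a = x := by
    simp only [Finsupp.add_apply, Finsupp.smul_apply, smul_eq_mul, ev_apply, if_true,
      if_neg h.1.symm, if_neg h.2.2.1.symm, sub_zero, mul_one, mul_zero, add_zero]
  have e2 : (x • ev v a + y • ev v b) b = y := by
    simp only [Finsupp.add_apply, Finsupp.smul_apply, smul_eq_mul, ev_apply, if_true,
      if_neg h.2.1.symm, if_neg h.2.2.1, sub_zero, mul_one, mul_zero, zero_add]
  rw [e1] at h1
  rw [e2] at h2
  have h3 : x ^ 2 ≤ A ^ 2 * (C.tn v a b x y) ^ 2 := by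
    rw [← sq_abs x, ← mul_pow]
    exact pow_le_pow_left₀ (abs_nonneg x) h1 2
  have h4 : y ^ 2 ≤ A ^ 2 * (C.tn v a b x y) ^ 2 := by
    rw [← sq_abs y, ← mul_pow]
    exact pow_le_pow_left₀ (abs_nonneg y) h2 2
  rw [one_div, inv_mul_le_iff₀ (by positivity)]
  linarith

theorem LpComplex.IsTri.exists_low {v a b : V} (h : C.IsTri v a b) :
    ∃ α β γ, IsLow (C.tn v a b) α β γ := by
  obtain ⟨k, hk, hn⟩ := h.bound
  exact exists_isLow hk hn

theorem LpComplex.IsTri.low_unique {v a b : V} (h : C.IsTri v a b) {α β γ α' β' γ' : ℝ}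
    (h1 : IsLow (C.tn v a b) α β γ) (h2 : IsLow (C.tn v a b) α' β' γ') :
    α = α' ∧ β = β' ∧ γ = γ' := by
  obtain ⟨k, hk, hn⟩ := h.bound
  exact h1.unique hk hn h2

theorem LpComplex.IsTri.low_pos {v a b : V} (h : C.IsTri v a b) {α β γ : ℝ}
    (h1 : IsLow (C.tn v a b) α β γ) : 0 < α ∧ 0 < γ ∧ 0 < α * γ - β ^ 2 := by
  obtain ⟨k, hk, hn⟩ := h.bound
  exact h1.pos hk hn

theorem LpComplex.IsTri.low_swap {v a b : V} {α β γ : ℝ}
    (h1 : IsLow (C.tn v a b) α β γ) : IsLow (C.tn v b a) γ β α := by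
  have := h1.transform (n' := C.tn v b a) (p := 0) (q := 1) (r := 1) (s := 0) (by norm_num)
    (fun x y => by rw [C.tn_swap v b a]; congr 1 <;> ring)
  convert this using 1 <;> ring

/-- The form of the triangle at its vertex `a`. -/
theorem LpComplex.IsTri.low_rot {v a b : V} {α β γ : ℝ}
    (h1 : IsLow (C.tn v a b) α β γ) : IsLow (C.tn a v b) α (α - β) (α - 2 * β + γ) := by
  have := h1.transform (n' := C.tn a v b) (p := -1) (q := -1) (r := 0) (s := 1) (by norm_num)
    (fun x y => by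
      rw [LpComplex.tn, LpComplex.tn, Finset.insert_comm a v, ev_swap v a, ev_sub v a b]
      congr 1
      module)
  convert this using 1 <;> ring

theorem zs_tri {u w c : V} (hwu : w ≠ u) (hcu : c ≠ u) (hwc : w ≠ c) {ξ : V →₀ ℝ}
    (h : ZS {u, w, c} ξ) : ξ = ξ w • ev u w + ξ c • ev u c := by
  have hsum : ξ u + (ξ w + ξ c) = 0 := by
    have := h.2
    rw [Finset.sum_insert, Finset.sum_pair hwc] at this
    · exact this
    · rw [Finset.mem_insert, Finset.mem_singleton]
      rintro (h1 | h1)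
      · exact hwu h1.symm
      · exact hcu h1.symm
  ext v
  simp only [Finsupp.add_apply, Finsupp.smul_apply, smul_eq_mul, ev_apply]
  by_cases h1 : v = u
  · subst h1
    simp only [if_neg hwu, if_neg hcu, if_true]
    linarith
  by_cases h2 : v = w
  · subst h2
    simp only [if_neg (Ne.symm h1), if_neg hwc.symm, if_true]
    ring
  by_cases h3 : v = c
  · subst h3
    simp only [if_neg (Ne.symm h1), if_neg (Ne.symm h2), if_true]
    ring
  · rw [h.notMem (by simp [h1, h2, h3])]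
    simp only [if_neg (Ne.symm h1), if_neg (Ne.symm h2), if_neg (Ne.symm h3)]
    ring

/-- Two triangles with a common edge: their norms in coordinates at an end of the edge. -/
theorem LpComplex.IsTri.adjacent (hB : BusemannConvex X) (hT : C.Tame)
    (hdim : ∀ s ∈ C.K.faces, s.card ≤ 3) {u w c c' : V} (h : C.IsTri u w c)
    (h' : C.IsTri u w c') (hcc : c ≠ c') : ∃ μ lam : ℝ, 0 < lam ∧
      ∀ x y, C.tn u w c x y = C.tn u w c' (x - μ * y) (-(lam * y)) := by
  have hu1 : u ∈ ({u, w, c} : Finset V) := by simp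
  have hw1 : w ∈ ({u, w, c} : Finset V) := by simp
  have hFsub : ({u, w} : Finset V) ⊆ {u, w, c} := by
    intro x hx
    simp only [Finset.mem_insert, Finset.mem_singleton] at hx ⊢
    tauto
  have hFsub' : ({u, w} : Finset V) ⊆ {u, w, c'} := by
    intro x hx
    simp only [Finset.mem_insert, Finset.mem_singleton] at hx ⊢
    tauto
  have hFcard : ({u, w} : Finset V).card = 2 := Finset.card_pair h.1.symm
  have hF : C.Wall {u, w} := by
    refine ⟨C.K.down_closed _ h.2.2.2 _ hFsub (by simp), fun s hs _ => ?_⟩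
    rw [hFcard]
    exact hdim s hs
  have hcF : c ∉ ({u, w} : Finset V) := by
    simp only [Finset.mem_insert, Finset.mem_singleton, not_or]
    exact ⟨h.2.1, h.2.2.1.symm⟩
  have hcF' : c' ∉ ({u, w} : Finset V) := by
    simp only [Finset.mem_insert, Finset.mem_singleton, not_or]
    exact ⟨h'.2.1, h'.2.2.1.symm⟩
  have hne : ({u, w, c} : Finset V) ≠ {u, w, c'} := by
    intro heq
    have : c ∈ ({u, w, c'} : Finset V) := by rw [← heq]; simp
    simp only [Finset.mem_insert, Finset.mem_singleton] at this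
    rcases this with h1 | h1 | h1
    · exact h.2.1 h1
    · exact h.2.2.1 h1.symm
    · exact hcc h1
  obtain ⟨ξ1, ξ2, hz1, hp1, hz2, hp2, hmain⟩ := LpComplex.Wall.rigid hB hT hF h.2.2.2 h'.2.2.2
    hFsub hFsub' (c1 := c) (c2 := c') (by simp) hcF (by simp) hcF' hne
  have e1 := zs_tri h.1 h.2.1 h.2.2.1 hz1
  have e2 := zs_tri h'.1 h'.2.1 h'.2.2.1 hz2
  have huF : u ∈ ({u, w} : Finset V) := by simp
  have hwF : w ∈ ({u, w} : Finset V) := by simp
  refine ⟨(ξ1 w + ξ2 w) / ξ1 c, ξ2 c' / ξ1 c, div_pos hp2 hp1, fun x y => ?_⟩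
  have hm := hmain (y / ξ1 c) ((y / ξ1 c * ξ1 w - x) • ev u w) ((ev_zs huF hwF).smul _)
  have hne0 : ξ1 c ≠ 0 := hp1.ne'
  have g1 : (y / ξ1 c) • ξ1 - (y / ξ1 c * ξ1 w - x) • ev u w = x • ev u w + y • ev u c := by
    nth_rewrite 2 [e1]
    have : y / ξ1 c * ξ1 c = y := by field_simp
    calc (y / ξ1 c) • (ξ1 w • ev u w + ξ1 c • ev u c) - (y / ξ1 c * ξ1 w - x) • ev u w
        = x • ev u w + (y / ξ1 c * ξ1 c) • ev u c := by module
      _ = x • ev u w + y • ev u c := by rw [this]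
  have g2 : (y / ξ1 c) • ξ2 + (y / ξ1 c * ξ1 w - x) • ev u w =
      -(((x - (ξ1 w + ξ2 w) / ξ1 c * y)) • ev u w + (-(ξ2 c' / ξ1 c * y)) • ev u c') := by
    nth_rewrite 1 [e2]
    have t1 : (ξ1 w + ξ2 w) / ξ1 c * y = y / ξ1 c * ξ1 w + y / ξ1 c * ξ2 w := by ring
    have t2 : ξ2 c' / ξ1 c * y = y / ξ1 c * ξ2 c' := by ring
    rw [t1, t2]
    module
  rw [g1, g2, C.nrm_neg] at hm
  exact hm

open Classical in
/-- The Euclidean length of an edge: from the Loewner ellipse of a triangle which contains it,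
and its own length if there is no such triangle. -/
noncomputable def LpComplex.len (C : LpComplex p V X) (u w : V) : ℝ :=
  if h : ∃ c, C.IsTri u w c then Real.sqrt (lowA (C.tn u w h.choose))
  else C.nrm {u, w} (ev u w)

theorem LpComplex.len_nonneg (u w : V) : 0 ≤ C.len u w := by
  rw [LpComplex.len]
  split_ifs
  · exact Real.sqrt_nonneg _
  · exact C.nrm_nonneg _ _

theorem LpComplex.IsTri.len_sq (hB : BusemannConvex X) (hT : C.Tame)
    (hdim : ∀ s ∈ C.K.faces, s.card ≤ 3) {u w c : V} (h : C.IsTri u w c) {α β γ : ℝ}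
    (hl : IsLow (C.tn u w c) α β γ) : C.len u w ^ 2 = α := by
  have hex : ∃ c, C.IsTri u w c := ⟨c, h⟩
  rw [LpComplex.len, dif_pos hex]
  have h0 : C.IsTri u w hex.choose := hex.choose_spec
  obtain ⟨k, hk, hn⟩ := h0.bound
  obtain ⟨α', β', γ', hl'⟩ := h0.exists_low
  rw [lowA_eq hk hn hl', Real.sq_sqrt (h0.low_pos hl').1.le]
  by_cases hcc : c = hex.choose
  · rw [← hcc] at hl'
    exact (h.low_unique hl' hl).1
  · obtain ⟨μ, lam, hlam, had⟩ := LpComplex.IsTri.adjacent hB hT hdim h h0 hcc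
    have h1 := hl'.transform (n' := C.tn u w c) (p := 1) (q := -μ) (r := 0) (s := -lam)
      (by simp [hlam.ne']) (fun x y => by
        rw [had x y]
        congr 1 <;> ring)
    have h2 := (h.low_unique h1 hl).1
    linarith

theorem LpComplex.len_symm (hB : BusemannConvex X) (hT : C.Tame)
    (hdim : ∀ s ∈ C.K.faces, s.card ≤ 3) (u w : V) : C.len u w = C.len w u := by
  by_cases hex : ∃ c, C.IsTri u w c
  · obtain ⟨c, h⟩ := hex
    obtain ⟨α, β, γ, hl⟩ := h.exists_low
    have h1 := LpComplex.IsTri.len_sq hB hT hdim h hl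
    have h2 := LpComplex.IsTri.len_sq hB hT hdim h.rot (LpComplex.IsTri.low_rot hl)
    exact (sq_eq_sq₀ (C.len_nonneg _ _) (C.len_nonneg _ _)).1 (h1.trans h2.symm)
  · have hex' : ¬ ∃ c, C.IsTri w u c := fun ⟨c, h⟩ => hex ⟨c, h.rot⟩
    rw [LpComplex.len, LpComplex.len, dif_neg hex, dif_neg hex', Finset.pair_comm w u,
      ev_swap u w, C.nrm_neg]

/-- The Loewner form of a triangle in terms of the Euclidean lengths. -/
theorem LpComplex.IsTri.low_len (hB : BusemannConvex X) (hT : C.Tame)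
    (hdim : ∀ s ∈ C.K.faces, s.card ≤ 3) {v a b : V} (h : C.IsTri v a b) :
    IsLow (C.tn v a b) (C.len v a ^ 2) ((C.len v a ^ 2 + C.len v b ^ 2 - C.len a b ^ 2) / 2)
      (C.len v b ^ 2) := by
  obtain ⟨α, β, γ, hl⟩ := h.exists_low
  have h1 := LpComplex.IsTri.len_sq hB hT hdim h hl
  have h2 := LpComplex.IsTri.len_sq hB hT hdim h.swap (LpComplex.IsTri.low_swap hl)
  have h3 := LpComplex.IsTri.len_sq hB hT hdim h.rot.swap
    (LpComplex.IsTri.low_swap (LpComplex.IsTri.low_rot hl))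
  rw [h1, h2, h3]
  have : (α + γ - (α - 2 * β + γ)) / 2 = β := by ring
  rw [this]
  exact hl

/-- The Euclidean triangle is not degenerate. -/
theorem LpComplex.IsTri.facts (hB : BusemannConvex X) (hT : C.Tame)
    (hdim : ∀ s ∈ C.K.faces, s.card ≤ 3) {v a b : V} (h : C.IsTri v a b) :
    0 < C.len v a ∧ 0 < C.len v b ∧ 0 < angleOf C.len v a b ∧ angleOf C.len v a b < Real.pi ∧
    C.len v a * C.len v b * Real.cos (angleOf C.len v a b) =
      (C.len v a ^ 2 + C.len v b ^ 2 - C.len a b ^ 2) / 2 ∧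
    (C.len v a * C.len v b * Real.sin (angleOf C.len v a b)) ^ 2 =
      C.len v a ^ 2 * C.len v b ^ 2 - ((C.len v a ^ 2 + C.len v b ^ 2 - C.len a b ^ 2) / 2) ^ 2 := by
  have hl := LpComplex.IsTri.low_len hB hT hdim h
  obtain ⟨hα, hγ, hD⟩ := h.low_pos hl
  have h1 : 0 < C.len v a := lt_of_le_of_ne (C.len_nonneg _ _) fun h0 => by
    rw [← h0] at hα
    norm_num at hα
  have h2 : 0 < C.len v b := lt_of_le_of_ne (C.len_nonneg _ _) fun h0 => by
    rw [← h0] at hγ
    norm_num at hγ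
  set x : ℝ := C.len v a with hx
  set y : ℝ := C.len v b with hy
  set β : ℝ := (x ^ 2 + y ^ 2 - C.len a b ^ 2) / 2 with hβ
  have hang : angleOf C.len v a b = Real.arccos (β / (x * y)) := by
    rw [angleOf, ← hx, ← hy, hβ]
    congr 1
    field_simp
  have hxy : 0 < x * y := mul_pos h1 h2
  have habs : |β| < x * y := by
    apply abs_lt_of_sq_lt_sq _ hxy.le
    nlinarith
  have hb := abs_lt.1 habs
  have hq1 : -1 < β / (x * y) := by
    rw [lt_div_iff₀ hxy]
    linarith
  have hq2 : β / (x * y) < 1 := by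
    rw [div_lt_one hxy]
    exact hb.2
  have hcos : Real.cos (angleOf C.len v a b) = β / (x * y) := by
    rw [hang, Real.cos_arccos hq1.le hq2.le]
  refine ⟨h1, h2, ?_, ?_, ?_, ?_⟩
  · rw [hang]
    exact Real.arccos_pos.2 hq2
  · rw [hang]
    refine lt_of_le_of_ne (Real.arccos_le_pi _) ?_
    intro h0
    rw [Real.arccos_eq_pi] at h0
    linarith
  · rw [hcos]
    field_simp
  · rw [mul_pow, Real.sin_sq, hcos]
    field_simp

/-- Consecutive triangles around a vertex. -/
theorem LpComplex.IsTri.adj (hB : BusemannConvex X) (hT : C.Tame)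
    (hdim : ∀ s ∈ C.K.faces, s.card ≤ 3) {v a b c : V} (h : C.IsTri v a b)
    (h' : C.IsTri v b c) (hac : a ≠ c) : ∃ μ lam : ℝ, 0 < lam ∧
    (∀ x y, C.tn v a b x y = C.tn v b c (y - μ * x) (-(lam * x))) ∧
    lam * C.len v c * Real.sin (angleOf C.len v b c) =
      C.len v a * Real.sin (angleOf C.len v a b) ∧
    C.len v a * Real.cos (angleOf C.len v a b) =
      -(μ * C.len v b) - lam * C.len v c * Real.cos (angleOf C.len v b c) := by
  obtain ⟨μ, lam, hlam, had⟩ := LpComplex.IsTri.adjacent hB hT hdim h.swap h' hac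
  have had' : ∀ x y, C.tn v a b x y = C.tn v b c (y - μ * x) (-(lam * x)) := by
    intro x y
    rw [C.tn_swap v a b, had y x]
  refine ⟨μ, lam, hlam, had', ?_⟩
  have hl := LpComplex.IsTri.low_len hB hT hdim h
  have hl' := LpComplex.IsTri.low_len hB hT hdim h'
  have ht := hl'.transform (n' := C.tn v a b) (p := -μ) (q := 1) (r := -lam) (s := 0)
    (by simp [hlam.ne']) (fun x y => by
      rw [had' x y]
      congr 1 <;> ring)
  obtain ⟨e1, e2, e3⟩ := h.low_unique ht hl
  obtain ⟨pa, pb, θ1, θ2, hcos, hsin⟩ := LpComplex.IsTri.facts hB hT hdim h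
  obtain ⟨pb', pc, θ1', θ2', hcos', hsin'⟩ := LpComplex.IsTri.facts hB hT hdim h'
  set x : ℝ := C.len v a with hx
  set y : ℝ := C.len v b with hy
  set z : ℝ := C.len v c with hz
  set β : ℝ := (x ^ 2 + y ^ 2 - C.len a b ^ 2) / 2 with hβ
  set β' : ℝ := (y ^ 2 + z ^ 2 - C.len b c ^ 2) / 2 with hβ'
  have s1 : 0 < Real.sin (angleOf C.len v a b) := Real.sin_pos_of_pos_of_lt_pi θ1 θ2
  have s2 : 0 < Real.sin (angleOf C.len v b c) := Real.sin_pos_of_pos_of_lt_pi θ1' θ2'
  constructor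
  · have h1 : (y * (lam * z * Real.sin (angleOf C.len v b c))) ^ 2 =
        (y * (x * Real.sin (angleOf C.len v a b))) ^ 2 := by
      have g1 : (y * (lam * z * Real.sin (angleOf C.len v b c))) ^ 2 =
          lam ^ 2 * (y * z * Real.sin (angleOf C.len v b c)) ^ 2 := by ring
      have g2 : (y * (x * Real.sin (angleOf C.len v a b))) ^ 2 =
          (x * y * Real.sin (angleOf C.len v a b)) ^ 2 := by ring
      rw [g1, g2, hsin, hsin', ← e1, ← e2]
      ring
    have h2 := (sq_eq_sq₀ (by positivity) (by positivity)).1 h1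
    exact mul_left_cancel₀ pb.ne' h2
  · have h1 : y * (x * Real.cos (angleOf C.len v a b)) =
        y * (-(μ * y) - lam * z * Real.cos (angleOf C.len v b c)) := by
      have g1 : y * (x * Real.cos (angleOf C.len v a b)) =
          x * y * Real.cos (angleOf C.len v a b) := by ring
      have g2 : y * (-(μ * y) - lam * z * Real.cos (angleOf C.len v b c)) =
          -(μ * y ^ 2) - lam * (y * z * Real.cos (angleOf C.len v b c)) := by ring
      rw [g1, g2, hcos, hcos', ← e2]
      ring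
    exact mul_left_cancel₀ pb.ne' h1

/-- A path of triangles around a vertex is a chain. -/
theorem LpComplex.chain (hB : BusemannConvex X) (hT : C.Tame)
    (hdim : ∀ s ∈ C.K.faces, s.card ≤ 3) {v : V} {m : ℕ} {a : ℕ → V}
    (htri : ∀ i < m, C.IsTri v (a i) (a (i + 1))) (hm : 0 < m)
    (hturn : ∀ i, i + 1 < m → a i ≠ a (i + 2)) :
    C.Chain v m a (fun i => C.len v (a i)) (fun i => angleOf C.len v (a i) (a (i + 1))) where
  face i hi := (htri i hi).2.2.2
  ne_v i hi := by
    rcases Nat.lt_or_ge i m with h | h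
    · exact (htri i h).1
    · obtain ⟨j, rfl⟩ : ∃ j, i = j + 1 := ⟨i - 1, by omega⟩
      exact (htri j (by omega)).2.1
  ne_succ i hi := (htri i hi).2.2.1
  turn := hturn
  l_pos i hi := by
    rcases Nat.lt_or_ge i m with h | h
    · exact (LpComplex.IsTri.facts hB hT hdim (htri i h)).1
    · obtain ⟨j, rfl⟩ : ∃ j, i = j + 1 := ⟨i - 1, by omega⟩
      exact (LpComplex.IsTri.facts hB hT hdim (htri j (by omega))).2.1
  θ_pos i hi := (LpComplex.IsTri.facts hB hT hdim (htri i hi)).2.2.1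
  θ_lt i hi := (LpComplex.IsTri.facts hB hT hdim (htri i hi)).2.2.2.1
  adj i hi := LpComplex.IsTri.adj hB hT hdim (htri i (by omega)) (htri (i + 1) hi) (hturn i hi)

end Lengths

end Pool.Agent.LpBusemann
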