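import Pool.Agent.LpBusemann.Chain
import Pool.Agent.LpBusemann.Lengths

/-!
# The link condition for the Euclidean lengths
-/

open scoped ENNReal
open Set

namespace Pool.Agent.LpBusemann

universe u v

section Link

variable {p : ℝ≥0∞} [Fact (1 ≤ p)] {V : Type u} {X : Type v} [MetricSpace X] [DecidableEq V]
  {C : LpComplex p V X}

omit [DecidableEq V] in
theorem angleOf_comm {L : V → V → ℝ} (hL : ∀ a b, L a b = L b a) (v a b : V) :
    angleOf L v a b = angleOf L v b a := by
  rw [angleOf, angleOf, hL a b]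
  congr 1
  ring

/-- The link condition: the total angle of a cycle of triangles around a vertex is at least
`2 π`. -/
theorem LpComplex.link_condition (hB : BusemannConvex X) (hT : C.Tame)
    (hdim : ∀ s ∈ C.K.faces, s.card ≤ 3) {v : V} {m : ℕ} (hm : 3 ≤ m) {a : ℕ → V}
    (hper : a m = a 0) (hinj : ∀ i < m, ∀ j < m, a i = a j → i = j)
    (htri : ∀ i < m, C.IsTri v (a i) (a (i + 1))) :
    2 * Real.pi ≤ ∑ i ∈ Finset.range m, angleOf C.len v (a i) (a (i + 1)) := by
  by_contra hcon
  push Not at hcon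
  have hsymm : ∀ a b, C.len a b = C.len b a := fun a b => LpComplex.len_symm hB hT hdim a b
  -- the two chains
  have hturn : ∀ i, i + 1 < m → a i ≠ a (i + 2) := by
    intro i hi heq
    rcases Nat.lt_or_ge (i + 2) m with h | h
    · have := hinj i (by omega) (i + 2) h heq
      omega
    · have h2 : i + 2 = m := by omega
      rw [h2, hper] at heq
      have := hinj i (by omega) 0 (by omega) heq
      omega
  have htri' : ∀ i < m, C.IsTri v (a (m - i)) (a (m - (i + 1))) := by
    intro i hi
    have h := (htri (m - (i + 1)) (by omega)).swap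
    rwa [show m - (i + 1) + 1 = m - i by omega] at h
  have hturn' : ∀ i, i + 1 < m → a (m - i) ≠ a (m - (i + 2)) := by
    intro i hi heq
    apply hturn (m - (i + 2)) (by omega)
    rw [show m - (i + 2) + 2 = m - i by omega]
    exact heq.symm
  have hc1 := LpComplex.chain hB hT hdim htri (by omega) hturn
  have hc2 := LpComplex.chain hB hT hdim (a := fun i => a (m - i)) htri' (by omega) hturn'
  set θ : ℕ → ℝ := fun i => angleOf C.len v (a i) (a (i + 1)) with hθ
  set θ' : ℕ → ℝ := fun i => angleOf C.len v (a (m - i)) (a (m - (i + 1))) with hθ'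
  have hθrev : ∀ i < m, θ' i = θ (m - 1 - i) := by
    intro i hi
    simp only [hθ, hθ']
    rw [angleOf_comm hsymm, show m - 1 - i = m - (i + 1) by omega,
      show m - (i + 1) + 1 = m - i by omega]
  set Θ : ℝ := ∑ i ∈ Finset.range m, θ i with hΘ
  have hsplit : ∀ j ≤ m, ∑ i ∈ Finset.range (m - j), θ' i = Θ - ∑ i ∈ Finset.range j, θ i := by
    intro j hj
    have h1 : ∑ i ∈ Finset.range (m - j), θ' i = ∑ i ∈ Finset.Ico j m, θ i := by
      rw [Finset.sum_Ico_eq_sum_range, ← Finset.sum_range_reflect]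
      apply Finset.sum_congr rfl
      intro i hi
      rw [Finset.mem_range] at hi
      rw [hθrev (m - j - 1 - i) (by omega)]
      congr 1
      omega
    rw [h1, Finset.sum_Ico_eq_sub _ hj]
  have hpos : 0 < Θ := by
    apply Finset.sum_pos
    · intro i hi
      exact hc1.θ_pos i (Finset.mem_range.1 hi)
    · exact ⟨0, Finset.mem_range.2 (by omega)⟩
  have hΘ' : ∑ i ∈ Finset.range m, θ' i = Θ := by
    have := hsplit 0 (by omega)
    simpa using this
  obtain ⟨ε1, hε1, H1⟩ := hc1.geodesic hB hT hdim (φ := Θ / 2) (by linarith) (by linarith)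
    (by linarith)
  obtain ⟨ε2, hε2, H2⟩ := hc2.geodesic hB hT hdim (φ := Θ / 2) (by linarith) (by linarith)
    (by rw [hΘ']; linarith)
  obtain ⟨c, hcg, hc0, hcend, η1, hη1, hcs⟩ := H1 (min ε1 ε2) (lt_min hε1 hε2) (min_le_left _ _)
  obtain ⟨c', hcg', hc0', hcend', η2, hη2, hcs'⟩ :=
    H2 (min ε1 ε2) (lt_min hε1 hε2) (min_le_right _ _)
  -- same start
  have hstart : c 0 = c' 0 := by
    apply C.wt_injective
    rw [hc0, hc0']
    simp only [Nat.sub_zero, hper]
  -- same end
  obtain ⟨j, hjm, hj1, hj2⟩ : ∃ j < m, (∑ i ∈ Finset.range j, θ i) ≤ Θ / 2 ∧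
      Θ / 2 ≤ ∑ i ∈ Finset.range (j + 1), θ i := by
    classical
    have hex : ∃ j, Θ / 2 ≤ ∑ i ∈ Finset.range (j + 1), θ i :=
      ⟨m - 1, by rw [show m - 1 + 1 = m by omega]; linarith⟩
    have hspec := Nat.find_spec hex
    refine ⟨Nat.find hex, ?_, ?_, hspec⟩
    · have := Nat.find_min' hex
        (show Θ / 2 ≤ ∑ i ∈ Finset.range (m - 1 + 1), θ i by
          rw [show m - 1 + 1 = m by omega]; linarith)
      omega
    · rcases Nat.eq_zero_or_pos (Nat.find hex) with h0 | h0
      · rw [h0]
        simp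
        linarith
      · have := Nat.find_min hex (show Nat.find hex - 1 < Nat.find hex by omega)
        rw [show Nat.find hex - 1 + 1 = Nat.find hex by omega] at this
        exact (not_le.1 this).le
  have hend : c 1 = c' 1 := by
    apply C.wt_injective
    have e1 := hcend j hjm hj1 hj2
    have g1 : ∑ i ∈ Finset.range (m - 1 - j), θ' i = Θ - ∑ i ∈ Finset.range (j + 1), θ i := by
      have := hsplit (j + 1) (by omega)
      rwa [show m - (j + 1) = m - 1 - j by omega] at this
    have g2 : ∑ i ∈ Finset.range (m - 1 - j + 1), θ' i = Θ - ∑ i ∈ Finset.range j, θ i := by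
      have := hsplit j (by omega)
      rwa [show m - j = m - 1 - j + 1 by omega] at this
    have e2 := hcend' (m - 1 - j) (by omega) (by rw [g1]; linarith) (by rw [g2]; linarith)
    rw [g1, g2] at e2
    have k1 : m - (m - 1 - j) = j + 1 := by omega
    have k2 : m - (m - 1 - j + 1) = j := by omega
    have k3 : θ' (m - 1 - j) = θ j := by
      rw [hθrev (m - 1 - j) (by omega)]
      congr 1
      omega
    rw [k3] at e2
    simp only [k1, k2] at e2
    rw [e1, e2, show Θ - ∑ i ∈ Finset.range j, θ i - Θ / 2 =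
      Θ / 2 - ∑ i ∈ Finset.range j, θ i by ring,
      show Θ / 2 - (Θ - ∑ i ∈ Finset.range (j + 1), θ i) =
      (∑ i ∈ Finset.range (j + 1), θ i) - Θ / 2 by ring]
    abel
  rw [← hstart, ← hend] at hcg'
  have heq := hB.2.1 (c 0) (c 1) c c' hcg hcg'
  set t : ℝ := min (min (η1 / 2) (η2 / 2)) 1 with ht
  have ht0 : 0 < t := lt_min (lt_min (by linarith) (by linarith)) one_pos
  have ht1 : t < η1 := lt_of_le_of_lt ((min_le_left _ _).trans (min_le_left _ _)) (by linarith)
  have ht2 : t < η2 := lt_of_le_of_lt ((min_le_left _ _).trans (min_le_right _ _)) (by linarith)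
  have hct : c t = c' t := heq ⟨ht0.le, min_le_right _ _⟩
  have h1 := (hcs t ht0 ht1).2
  have h2 := (hcs' t ht0 ht2).1
  rw [hct] at h1
  have h3 := h2 (C.mem_supp.2 h1)
  simp only [Nat.sub_zero, hper, Finset.mem_insert, Finset.mem_singleton] at h3
  rcases h3 with h3 | h3 | h3
  · exact (htri 0 (by omega)).2.1 h3
  · have := hinj 1 (by omega) 0 (by omega) h3
    omega
  · have := hinj 1 (by omega) (m - 1) (by omega) h3
    omega

end Link

end Pool.Agent.LpBusemann
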