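import Mathlib

open Set

namespace Pool.Agent.LpBusemann

/-- The quadratic form `a x² + 2 b x y + c y²` is nonnegative and lies below the square of `n`. -/
def Feas (n : ℝ → ℝ → ℝ) (a b c : ℝ) : Prop := ∀ x y : ℝ,
  0 ≤ a * x ^ 2 + 2 * b * x * y + c * y ^ 2 ∧ a * x ^ 2 + 2 * b * x * y + c * y ^ 2 ≤ (n x y) ^ 2

/-- The feasible form has the largest determinant among all feasible forms. -/
def IsLow (n : ℝ → ℝ → ℝ) (a b c : ℝ) : Prop := Feas n a b c ∧
  ∀ a' b' c' : ℝ, Feas n a' b' c' → a' * c' - b' ^ 2 ≤ a * c - b ^ 2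

theorem Feas.nonneg_left {n : ℝ → ℝ → ℝ} {a b c : ℝ} (h : Feas n a b c) : 0 ≤ a := by
  simpa using (h 1 0).1

theorem Feas.nonneg_right {n : ℝ → ℝ → ℝ} {a b c : ℝ} (h : Feas n a b c) : 0 ≤ c := by
  simpa using (h 0 1).1

theorem Feas.mid {n : ℝ → ℝ → ℝ} {a b c a' b' c' : ℝ} (h : Feas n a b c) (h' : Feas n a' b' c') :
    Feas n ((a + a') / 2) ((b + b') / 2) ((c + c') / 2) := by
  intro x y
  obtain ⟨h1, h2⟩ := h x y
  obtain ⟨h3, h4⟩ := h' x y
  constructor <;> nlinarith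

theorem feas_const {n : ℝ → ℝ → ℝ} {k : ℝ} (hk : 0 < k)
    (hn : ∀ x y, k * (x ^ 2 + y ^ 2) ≤ (n x y) ^ 2) : Feas n k 0 k := by
  intro x y
  have h := hn x y
  constructor
  · have : 0 ≤ k * (x ^ 2 + y ^ 2) := by positivity
    nlinarith
  · nlinarith

theorem exists_isLow {n : ℝ → ℝ → ℝ} {k : ℝ} (hk : 0 < k)
    (hn : ∀ x y, k * (x ^ 2 + y ^ 2) ≤ (n x y) ^ 2) : ∃ a b c, IsLow n a b c := by
  set K : Set (ℝ × ℝ × ℝ) := {v | Feas n v.1 v.2.1 v.2.2} with hK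
  have hclosed : IsClosed K := by
    have h1 : K = ⋂ (x : ℝ) (y : ℝ), {v : ℝ × ℝ × ℝ |
        0 ≤ v.1 * x ^ 2 + 2 * v.2.1 * x * y + v.2.2 * y ^ 2 ∧
          v.1 * x ^ 2 + 2 * v.2.1 * x * y + v.2.2 * y ^ 2 ≤ (n x y) ^ 2} := by
      ext v
      simp only [hK, Feas, mem_iInter]
      rfl
    rw [h1]
    refine isClosed_iInter fun x => isClosed_iInter fun y => ?_
    have hcont : Continuous fun v : ℝ × ℝ × ℝ =>
        v.1 * x ^ 2 + 2 * v.2.1 * x * y + v.2.2 * y ^ 2 := by fun_prop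
    exact (isClosed_le continuous_const hcont).inter (isClosed_le hcont continuous_const)
  set B : ℝ := (n 1 0) ^ 2 + (n 0 1) ^ 2 with hB
  have hsub : K ⊆ Icc 0 B ×ˢ (Icc (-B) B ×ˢ Icc 0 B) := by
    rintro ⟨a, b, c⟩ hv
    have hf : Feas n a b c := hv
    have ha := hf.nonneg_left
    have hc := hf.nonneg_right
    have ha' : a ≤ (n 1 0) ^ 2 := by simpa using (hf 1 0).2
    have hc' : c ≤ (n 0 1) ^ 2 := by simpa using (hf 0 1).2
    have h1 := (hf 1 1).1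
    have h2 := (hf 1 (-1)).1
    have h3 : 0 ≤ (n 1 0) ^ 2 := sq_nonneg _
    have h4 : 0 ≤ (n 0 1) ^ 2 := sq_nonneg _
    refine ⟨⟨ha, by linarith⟩, ⟨by nlinarith, by nlinarith⟩, ⟨hc, by linarith⟩⟩
  have hcomp : IsCompact K :=
    (isCompact_Icc.prod (isCompact_Icc.prod isCompact_Icc)).of_isClosed_subset hclosed hsub
  have hne : K.Nonempty := ⟨(k, 0, k), feas_const hk hn⟩
  obtain ⟨⟨a, b, c⟩, hv, hmax⟩ := hcomp.exists_isMaxOn hne
    (f := fun v : ℝ × ℝ × ℝ => v.1 * v.2.2 - v.2.1 ^ 2) (by fun_prop)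
  exact ⟨a, b, c, hv, fun a' b' c' h' => hmax (a := (a', b', c')) h'⟩

theorem IsLow.pos {n : ℝ → ℝ → ℝ} {k : ℝ} (hk : 0 < k)
    (hn : ∀ x y, k * (x ^ 2 + y ^ 2) ≤ (n x y) ^ 2) {a b c : ℝ} (h : IsLow n a b c) :
    0 < a ∧ 0 < c ∧ 0 < a * c - b ^ 2 := by
  have h1 := h.2 k 0 k (feas_const hk hn)
  have h2 : 0 < k * k := by positivity
  have h3 : 0 < a * c - b ^ 2 := by nlinarith
  have ha := h.1.nonneg_left
  have hc := h.1.nonneg_right
  have h4 : 0 < a * c := by nlinarith [sq_nonneg b]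
  refine ⟨?_, ?_, h3⟩
  · rcases ha.eq_or_lt with h0 | h0
    · rw [← h0] at h4
      simp at h4
    · exact h0
  · rcases hc.eq_or_lt with h0 | h0
    · rw [← h0] at h4
      simp at h4
    · exact h0

theorem IsLow.unique {n : ℝ → ℝ → ℝ} {k : ℝ} (hk : 0 < k)
    (hn : ∀ x y, k * (x ^ 2 + y ^ 2) ≤ (n x y) ^ 2) {a b c a' b' c' : ℝ} (h : IsLow n a b c)
    (h' : IsLow n a' b' c') : a = a' ∧ b = b' ∧ c = c' := by
  obtain ⟨ha, hc, hD⟩ := h.pos hk hn
  obtain ⟨ha', hc', hD'⟩ := h'.pos hk hn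
  have hDD : a * c - b ^ 2 = a' * c' - b' ^ 2 := le_antisymm (h'.2 a b c h.1) (h.2 a' b' c' h'.1)
  have hmid := h.2 _ _ _ (h.1.mid h'.1)
  set D := a * c - b ^ 2 with hDdef
  have h1 : a * c = D + b ^ 2 := by rw [hDdef]; ring
  have h2 : a' * c' = D + b' ^ 2 := by linarith
  have h3 : a * c' + a' * c ≤ 2 * (D + b * b') := by nlinarith
  have h4 : 0 < a * c' + a' * c := by positivity
  have h5 : 4 * ((D + b ^ 2) * (D + b' ^ 2)) ≤ (a * c' + a' * c) ^ 2 := by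
    rw [← h1, ← h2]
    nlinarith [sq_nonneg (a * c' - a' * c)]
  have h6 : (a * c' + a' * c) ^ 2 ≤ (2 * (D + b * b')) ^ 2 :=
    pow_le_pow_left₀ h4.le h3 2
  have h7 : D * (b - b') ^ 2 ≤ 0 := by nlinarith
  have h8 : (b - b') ^ 2 = 0 := by
    by_contra hcon
    have h9 : 0 < (b - b') ^ 2 := lt_of_le_of_ne (sq_nonneg _) (Ne.symm hcon)
    nlinarith [mul_pos hD h9]
  have hb : b = b' := by
    have := pow_eq_zero_iff (two_ne_zero) |>.mp h8
    linarith
  subst hb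
  have h10 : a * c = a' * c' := by rw [h1, h2]
  have h11 : (a * c' - a' * c) ^ 2 ≤ 0 := by
    have h12 : (a * c' - a' * c) ^ 2 = (a * c' + a' * c) ^ 2 - 4 * ((a * c) * (a' * c')) := by ring
    rw [h12, h1, h2]
    nlinarith
  have h13 : a * c' = a' * c := by
    have h14 : (a * c' - a' * c) ^ 2 = 0 := le_antisymm h11 (sq_nonneg _)
    have := pow_eq_zero_iff (two_ne_zero) |>.mp h14
    linarith
  -- `a² c c' = a'² c c'`
  have h15 : a ^ 2 * (c * c') = a' ^ 2 * (c * c') := by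
    calc a ^ 2 * (c * c') = (a * c) * (a * c') := by ring
      _ = (a' * c') * (a' * c) := by rw [h10, h13]
      _ = a' ^ 2 * (c * c') := by ring
  have h16 : a ^ 2 = a' ^ 2 := mul_right_cancel₀ (by positivity) h15
  have haa : a = a' := by
    rcases sq_eq_sq_iff_eq_or_eq_neg.mp h16 with h17 | h17
    · exact h17
    · exfalso
      linarith
  subst haa
  exact ⟨rfl, rfl, mul_left_cancel₀ ha.ne' h10⟩

theorem Feas.transform {n n' : ℝ → ℝ → ℝ} {a b c p q r s : ℝ} (h : Feas n a b c)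
    (hn : ∀ x y, n' x y = n (p * x + q * y) (r * x + s * y)) :
    Feas n' (a * p ^ 2 + 2 * b * p * r + c * r ^ 2) (a * p * q + b * (p * s + q * r) + c * r * s)
      (a * q ^ 2 + 2 * b * q * s + c * s ^ 2) := by
  intro x y
  have h1 := h (p * x + q * y) (r * x + s * y)
  rw [hn x y]
  have h2 : (a * p ^ 2 + 2 * b * p * r + c * r ^ 2) * x ^ 2 +
      2 * (a * p * q + b * (p * s + q * r) + c * r * s) * x * y +
      (a * q ^ 2 + 2 * b * q * s + c * s ^ 2) * y ^ 2 =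
      a * (p * x + q * y) ^ 2 + 2 * b * (p * x + q * y) * (r * x + s * y) +
        c * (r * x + s * y) ^ 2 := by ring
  rw [h2]
  exact h1

theorem IsLow.transform {n n' : ℝ → ℝ → ℝ} {a b c p q r s : ℝ} (h : IsLow n a b c)
    (hD : p * s - q * r ≠ 0) (hn : ∀ x y, n' x y = n (p * x + q * y) (r * x + s * y)) :
    IsLow n' (a * p ^ 2 + 2 * b * p * r + c * r ^ 2) (a * p * q + b * (p * s + q * r) + c * r * s)
      (a * q ^ 2 + 2 * b * q * s + c * s ^ 2) := by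
  refine ⟨h.1.transform hn, fun a' b' c' h' => ?_⟩
  set D := p * s - q * r with hDdef
  -- pull back by the inverse matrix
  have hinv : ∀ x y, n x y = n' ((s / D) * x + (-q / D) * y) ((-r / D) * x + (p / D) * y) := by
    intro x y
    rw [hn]
    have h1 : p * ((s / D) * x + (-q / D) * y) + q * ((-r / D) * x + (p / D) * y) = x := by
      field_simp
      rw [hDdef]
      ring
    have h2 : r * ((s / D) * x + (-q / D) * y) + s * ((-r / D) * x + (p / D) * y) = y := by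
      field_simp
      rw [hDdef]
      ring
    rw [h1, h2]
  have h1 := h.2 _ _ _ (h'.transform hinv)
  have h2 : (a' * (s / D) ^ 2 + 2 * b' * (s / D) * (-r / D) + c' * (-r / D) ^ 2) *
      (a' * (-q / D) ^ 2 + 2 * b' * (-q / D) * (p / D) + c' * (p / D) ^ 2) -
      (a' * (s / D) * (-q / D) + b' * ((s / D) * (p / D) + (-q / D) * (-r / D)) +
        c' * (-r / D) * (p / D)) ^ 2 = (a' * c' - b' ^ 2) / D ^ 2 := by
    field_simp
    rw [hDdef]
    ring
  rw [h2, div_le_iff₀ (by positivity)] at h1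
  have h3 : (a * p ^ 2 + 2 * b * p * r + c * r ^ 2) * (a * q ^ 2 + 2 * b * q * s + c * s ^ 2) -
      (a * p * q + b * (p * s + q * r) + c * r * s) ^ 2 = (a * c - b ^ 2) * D ^ 2 := by
    rw [hDdef]
    ring
  rw [h3]
  exact h1

end Pool.Agent.LpBusemann
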