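import Pool.Agent.LpBusemann.Unfold
import Pool.Agent.LpBusemann.Lamperti

/-!
# Full-dimensional simplices, mirrors
-/

open scoped ENNReal
open Set

namespace Pool.Agent.LpBusemann

universe u v

section Mirror

variable {p : ℝ≥0∞} [Fact (1 ≤ p)] {V : Type u} {X : Type v} [MetricSpace X]
  {C : LpComplex p V X}

/-- The norm of the shape of a simplex is symmetric in its thick walls. -/
theorem LpComplex.Wall.reflection (hB : BusemannConvex X) (hTame : C.Tame) {F : Finset V}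
    (hF : C.Wall F) {T1 T2 T3 : Finset V} (hT1 : T1 ∈ C.K.faces) (hT2 : T2 ∈ C.K.faces)
    (hT3 : T3 ∈ C.K.faces) (hF1 : F ⊆ T1) (hF2 : F ⊆ T2) (hF3 : F ⊆ T3) (h1 : T1 ≠ F)
    (h2 : T2 ≠ F) (h3 : T3 ≠ F) (h12 : T1 ≠ T2) (h23 : T2 ≠ T3) (h31 : T3 ≠ T1) {c1 : V}
    (hc1 : c1 ∈ T1) (hc1F : c1 ∉ F) :
    ∃ ζ : V →₀ ℝ, ZS T1 ζ ∧ ζ c1 = 1 ∧
      ∀ (κ : ℝ) (f : V →₀ ℝ), ZS F f → C.nrm T1 (κ • ζ + f) = C.nrm T1 (-(κ • ζ) + f) := by
  classical
  obtain ⟨g, μ, hμ, ha, hf⟩ := hF.turn hB hTame hT1 hT2 hT3 hF1 hF2 hF3 h1 h2 h3 h12 h23 h31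
    hc1 hc1F
  have e1 := hF.eq_insert hT1 hF1 hc1 hc1F
  obtain ⟨f0, hf0⟩ := hF.nonempty
  set a : V →₀ ℝ := ev f0 c1 with hadef
  have hza : ZS T1 a := ev_zs (hF1 hf0) hc1
  have hac : a c1 = 1 := by
    have hne : f0 ≠ c1 := fun h => hc1F (h ▸ hf0)
    simp [hadef, ev, hne]
  set h : V →₀ ℝ := g a + μ • a with hh
  have hzT : ZS T1 h := (ha a hza).1.add (hza.smul μ)
  have hc0 : h c1 = 0 := by
    simp only [hh, Finsupp.add_apply, Finsupp.smul_apply, smul_eq_mul, (ha a hza).2.2]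
    ring
  have hzF : ZS F h := by
    refine ⟨?_, ?_⟩
    · intro v hv
      have h3 := hzT.1 hv
      rw [e1, Finset.mem_insert] at h3
      rcases h3 with h3 | h3
      · exfalso
        rw [h3] at hv
        exact (Finsupp.mem_support_iff.1 hv) hc0
      · exact h3
    · have h3 := hzT.2
      rw [e1, Finset.sum_insert hc1F, hc0, zero_add] at h3
      exact h3
  have hga : g a = -(μ • a) + h := by rw [hh]; module
  set ζ : V →₀ ℝ := a - (1 + μ)⁻¹ • h with hζ
  have hzζ : ZS T1 ζ := hza.sub (hzT.smul _)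
  have hζc : ζ c1 = 1 := by
    simp only [hζ, Finsupp.sub_apply, Finsupp.smul_apply, smul_eq_mul, hc0, hac, mul_zero, sub_zero]
  have hgζ : g ζ = -(μ • ζ) := by
    have hk : (1 : ℝ) - (1 + μ)⁻¹ = μ * (1 + μ)⁻¹ := by field_simp; ring
    calc g ζ = -(μ • a) + h - (1 + μ)⁻¹ • h := by
          rw [hζ, map_sub, map_smul, hf h hzF, hga]
      _ = -(μ • a) + (1 - (1 + μ)⁻¹) • h := by module
      _ = -(μ • ζ) := by rw [hk, hζ]; module
  have hζ0 : ζ ≠ 0 := by
    intro h0
    rw [h0, Finsupp.zero_apply] at hζc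
    exact zero_ne_one hζc
  have hn := (ha ζ hzζ).2.1
  rw [hgζ, C.nrm_neg, C.nrm_smul, abs_of_pos hμ] at hn
  have hpos := C.nrm_pos hT1 hzζ hζ0
  have hμ1 : μ = 1 := by
    have : μ * C.nrm T1 ζ = 1 * C.nrm T1 ζ := by rw [hn, one_mul]
    exact mul_right_cancel₀ hpos.ne' this
  refine ⟨ζ, hzζ, hζc, fun κ f hfF => ?_⟩
  have hm := (ha (κ • ζ + f) ((hzζ.smul κ).add (hfF.mono hF1))).2.1
  rw [map_add, map_smul, hf f hfF, hgζ, hμ1, one_smul, smul_neg] at hm
  exact hm.symm

/-- The zero-sum vectors of coefficients. -/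
def zsub (T : Finset V) : Submodule ℝ (V →₀ ℝ) where
  carrier := {a | ZS T a}
  add_mem' := fun h h' => h.add h'
  zero_mem' := ZS.zero T
  smul_mem' := fun r _ h => h.smul r

theorem mem_zsub {T : Finset V} {a : V →₀ ℝ} : a ∈ zsub T ↔ ZS T a := Iff.rfl

/-- The vector with given coefficients. -/
noncomputable def LpComplex.vec (C : LpComplex p V X) (T : Finset V) :
    (V →₀ ℝ) →ₗ[ℝ] PiLp p (fun _ : Fin (C.S.dim T) => ℝ) :=
  ∑ v ∈ T, (Finsupp.lapply v).smulRight (C.S.vtx T v)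

theorem LpComplex.vec_apply (T : Finset V) (a : V →₀ ℝ) :
    C.vec T a = ∑ v ∈ T, a v • C.S.vtx T v := by
  simp [LpComplex.vec]

theorem LpComplex.norm_vec (T : Finset V) (a : V →₀ ℝ) : ‖C.vec T a‖ = C.nrm T a := by
  rw [C.vec_apply, LpComplex.nrm]

theorem LpComplex.vec_ev [DecidableEq V] {T : Finset V} {v w : V} (hv : v ∈ T) (hw : w ∈ T) :
    C.vec T (ev v w) = C.S.vtx T w - C.S.vtx T v := by
  rw [C.vec_apply]
  simp only [ev, Finsupp.sub_apply, sub_smul, Finset.sum_sub_distrib, Finsupp.single_apply]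
  simp [hv, hw]

/-- The simplex is full-dimensional in the space in which it is placed. -/
def LpComplex.Full (C : LpComplex p V X) (T : Finset V) : Prop := C.S.dim T + 1 = T.card

theorem LpComplex.Full.surj {T : Finset V} (hT : T ∈ C.K.faces) (h : C.Full T)
    (x : PiLp p (fun _ : Fin (C.S.dim T) => ℝ)) : ∃ a, ZS T a ∧ C.vec T a = x := by
  classical
  have hai := C.S.indep T hT
  have hcard : Fintype.card T = Module.finrank ℝ (PiLp p (fun _ : Fin (C.S.dim T) => ℝ)) + 1 := by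
    rw [Fintype.card_coe, ← h]
    congr 1
    have e := (WithLp.linearEquiv p ℝ (Fin (C.S.dim T) → ℝ)).finrank_eq
    rw [e]
    simp
  have htop := hai.affineSpan_eq_top_iff_card_eq_finrank_add_one.2 hcard
  have hdir : vectorSpan ℝ (Set.range fun v : T => C.S.vtx T v) = ⊤ := by
    rw [← direction_affineSpan, htop, AffineSubspace.direction_top]
  have hx : x ∈ vectorSpan ℝ (Set.range fun v : T => C.S.vtx T v) := by rw [hdir]; trivial
  rw [mem_vectorSpan_iff_eq_weightedVSub] at hx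
  obtain ⟨s, w, hw, hxw⟩ := hx
  rw [Finset.weightedVSub_eq_linear_combination _ hw] at hxw
  refine ⟨∑ i ∈ s, Finsupp.single (i : V) (w i), ?_, ?_⟩
  · refine ⟨?_, ?_⟩
    · refine (Finsupp.support_finsetSum).trans ?_
      intro v hv
      obtain ⟨i, hi, hv'⟩ := Finset.mem_biUnion.1 hv
      have := Finsupp.support_single_subset hv'
      rw [Finset.mem_singleton] at this
      rw [this]
      exact i.2
    · rw [Finset.sum_congr rfl fun v _ => Finsupp.finsetSum_apply _ _ _, Finset.sum_comm, ← hw]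
      apply Finset.sum_congr rfl
      intro i _
      simp only [Finsupp.single_apply]
      rw [Finset.sum_ite_eq T (i : V) fun _ => w i]
      simp
  · rw [map_sum, hxw]
    apply Finset.sum_congr rfl
    intro i _
    rw [C.vec_apply]
    simp only [Finsupp.single_apply]
    simp

theorem LpComplex.vec_inj {T : Finset V} (hT : T ∈ C.K.faces) {a : V →₀ ℝ} (ha : ZS T a)
    (h : C.vec T a = 0) : a = 0 :=
  C.nrm_eq_zero hT ha (by rw [← C.norm_vec, h, norm_zero])

/-- A map of coefficients between full-dimensional simplices of the same dimension, isometric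
for the norms of the shapes, is a signed permutation of the coordinates. -/
theorem LpComplex.Full.signed (hp2 : p ≠ 2) (hpt : p ≠ ⊤) {T1 T2 : Finset V}
    (hT1 : T1 ∈ C.K.faces) (h1 : C.Full T1) (h2 : C.Full T2)
    (hcard : T1.card = T2.card) {g : (V →₀ ℝ) →ₗ[ℝ] (V →₀ ℝ)}
    (hg : ∀ a, ZS T1 a → ZS T2 (g a) ∧ C.nrm T2 (g a) = C.nrm T1 a) :
    ∃ (π : Fin (C.S.dim T1) ≃ Fin (C.S.dim T2)) (ε : Fin (C.S.dim T1) → ℝ),
      (∀ i, ε i = 1 ∨ ε i = -1) ∧
      ∀ a, ZS T1 a → ∀ i, C.vec T2 (g a) (π i) = ε i * C.vec T1 a i := by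
  have hinj : Function.Injective ((C.vec T1).domRestrict (zsub T1)) := by
    rw [injective_iff_map_eq_zero]
    intro a ha
    ext1
    exact LpComplex.vec_inj hT1 a.2 ha
  have hsurj : Function.Surjective ((C.vec T1).domRestrict (zsub T1)) := by
    intro x
    obtain ⟨a, ha, hx⟩ := h1.surj hT1 x
    exact ⟨⟨a, ha⟩, hx⟩
  set e := LinearEquiv.ofBijective ((C.vec T1).domRestrict (zsub T1)) ⟨hinj, hsurj⟩ with he
  set φ : PiLp p (fun _ : Fin (C.S.dim T1) => ℝ) →ₗ[ℝ] PiLp p (fun _ : Fin (C.S.dim T2) => ℝ) :=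
    C.vec T2 ∘ₗ g ∘ₗ (zsub T1).subtype ∘ₗ e.symm.toLinearMap with hφ
  have hφe : ∀ a (ha : ZS T1 a), φ (C.vec T1 a) = C.vec T2 (g a) := by
    intro a ha
    have h3 : e ⟨a, ha⟩ = C.vec T1 a := rfl
    rw [← h3]
    simp only [hφ, LinearMap.coe_comp, Function.comp_apply, LinearEquiv.coe_coe,
      LinearEquiv.symm_apply_apply, Submodule.subtype_apply]
  have hnorm : ∀ x, ‖φ x‖ = ‖x‖ := by
    intro x
    obtain ⟨a, ha, rfl⟩ := h1.surj hT1 x
    rw [hφe a ha, C.norm_vec, C.norm_vec, (hg a ha).2]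
  have hmm : C.S.dim T1 = C.S.dim T2 := by
    unfold LpComplex.Full at h1 h2
    omega
  obtain ⟨π, ε, hε, hπ⟩ := lamperti hp2 hpt hmm φ hnorm
  refine ⟨π, ε, hε, fun a ha i => ?_⟩
  rw [← hφe a ha]
  exact hπ _ i

/-- The directions of a face, in the shape of a simplex. -/
theorem LpComplex.mem_span {F T : Finset V} (hFT : F ⊆ T)
    {x : PiLp p (fun _ : Fin (C.S.dim T) => ℝ)} :
    x ∈ vectorSpan ℝ (C.S.vtx T '' (F : Set V)) ↔ ∃ a, ZS F a ∧ C.vec T a = x := by
  classical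
  constructor
  · intro hx
    rw [Set.image_eq_range, mem_vectorSpan_iff_eq_weightedVSub] at hx
    obtain ⟨s, w, hw, hxw⟩ := hx
    rw [Finset.weightedVSub_eq_linear_combination _ hw] at hxw
    refine ⟨∑ i ∈ s, Finsupp.single (i : V) (w i), ?_, ?_⟩
    · refine ⟨?_, ?_⟩
      · refine (Finsupp.support_finsetSum).trans ?_
        intro v hv
        obtain ⟨i, hi, hv'⟩ := Finset.mem_biUnion.1 hv
        have := Finsupp.support_single_subset hv'
        rw [Finset.mem_singleton] at this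
        rw [this]
        exact i.2
      · rw [Finset.sum_congr rfl fun v _ => Finsupp.finsetSum_apply _ _ _, Finset.sum_comm, ← hw]
        apply Finset.sum_congr rfl
        intro i _
        have hi : (i : V) ∈ F := i.2
        simp only [Finsupp.single_apply]
        rw [Finset.sum_ite_eq F (i : V) fun _ => w i, if_pos hi]
    · rw [map_sum, hxw]
      apply Finset.sum_congr rfl
      intro i _
      have hi : (i : V) ∈ T := hFT i.2
      rw [C.vec_apply]
      simp only [Finsupp.single_apply, ite_smul, zero_smul]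
      rw [Finset.sum_ite_eq T (i : V) fun v => w i • C.S.vtx T v, if_pos hi]
  · rintro ⟨a, ha, rfl⟩
    obtain rfl | ⟨f0, hf0⟩ := F.eq_empty_or_nonempty
    · have h0 : a = 0 := by
        ext v
        exact ha.notMem (by simp)
      rw [h0, map_zero]
      exact Submodule.zero_mem _
    have hsum : C.vec T a = ∑ v ∈ F, a v • (C.S.vtx T v - C.S.vtx T f0) := by
      simp only [smul_sub, Finset.sum_sub_distrib, ← Finset.sum_smul, ha.2, zero_smul, sub_zero]
      rw [C.vec_apply]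
      exact (Finset.sum_subset hFT fun v _ hv => by rw [ha.notMem hv, zero_smul]).symm
    rw [hsum]
    refine Submodule.sum_mem _ fun v hv => Submodule.smul_mem _ _ ?_
    exact vsub_mem_vectorSpan ℝ (Set.mem_image_of_mem _ (Finset.mem_coe.2 hv))
      (Set.mem_image_of_mem _ (Finset.mem_coe.2 hf0))

end Mirror

end Pool.Agent.LpBusemann
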