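import Pool.Agent.LpBusemann.Defs

/-!
# Walls, full-dimensional simplices, mirrors

Definitions for the theorem on thick walls and full-dimensional l^p complexes, on the problem
MP_e44843_al.
-/

open scoped ENNReal

namespace Pool.Agent.LpBusemann

universe u v

/-- `F` is a wall of the simplex `T`: a face of codimension one of `T`, such that no simplex
which contains `F` has more vertices than `T`. -/
def LpComplex.IsWallOf {p : ℝ≥0∞} [Fact (1 ≤ p)] {V : Type u} {X : Type v} [MetricSpace X]
    (C : LpComplex p V X) (F T : Finset V) : Prop :=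
  F.Nonempty ∧ T ∈ C.K.faces ∧ F ⊆ T ∧ T.card = F.card + 1 ∧
    ∀ s ∈ C.K.faces, F ⊆ s → s.card ≤ T.card

/-- `F` is a thick wall of the simplex `T`: it is a wall of `T` and of two further simplices. -/
def LpComplex.IsThickWallOf {p : ℝ≥0∞} [Fact (1 ≤ p)] {V : Type u} {X : Type v} [MetricSpace X]
    (C : LpComplex p V X) (F T : Finset V) : Prop :=
  C.IsWallOf F T ∧ ∃ T' T'' : Finset V, T' ≠ T ∧ T'' ≠ T ∧ T'' ≠ T' ∧ C.IsWallOf F T' ∧
    C.IsWallOf F T''

/-- The simplex `T` is full-dimensional in the space `l^p` in which it is placed: it is a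
simplex with `n + 1` vertices in `(R^n, l^p)`. -/
def LpComplex.IsFull {p : ℝ≥0∞} [Fact (1 ≤ p)] {V : Type u} {X : Type v} [MetricSpace X]
    (C : LpComplex p V X) (T : Finset V) : Prop :=
  T.card = C.S.dim T + 1

/-- The vector `∑ a v • v`, the sum over the vertices `v` in `s`, in the shape of `T`. -/
noncomputable def LpComplex.comb {p : ℝ≥0∞} [Fact (1 ≤ p)] {V : Type u} {X : Type v}
    [MetricSpace X] (C : LpComplex p V X) (T s : Finset V) (a : V → ℝ) :
    PiLp p (fun _ : Fin (C.S.dim T) => ℝ) :=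
  ∑ v ∈ s, a v • C.S.vtx T v

/-- The norm of the shape of `T` has a reflection in its wall `F`: there is a direction `z` of
`T`, given by zero-sum coefficients `ζ` at the vertices of `T`, not parallel to `F`, such that the
linear map which changes the sign of `z` and fixes the directions `f` of `F`, which are given by
zero-sum coefficients `a` at the vertices of `F`, is an isometry on the directions of `T`. -/
def LpComplex.HasReflection {p : ℝ≥0∞} [Fact (1 ≤ p)] {V : Type u} {X : Type v} [MetricSpace X]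
    (C : LpComplex p V X) (F T : Finset V) : Prop :=
  ∃ ζ : V → ℝ, ∑ v ∈ T, ζ v = 0 ∧ (∃ v ∈ T, v ∉ F ∧ ζ v ≠ 0) ∧
    ∀ (κ : ℝ) (a : V → ℝ), ∑ v ∈ F, a v = 0 →
      ‖κ • C.comb T T ζ + C.comb T F a‖ = ‖-(κ • C.comb T T ζ) + C.comb T F a‖

/-- The coordinate number `i` of the vertex `v` in the shape of `T`. -/
abbrev LpComplex.coord {p : ℝ≥0∞} [Fact (1 ≤ p)] {V : Type u} {X : Type v} [MetricSpace X]
    (C : LpComplex p V X) (T : Finset V) (v : V) (i : Fin (C.S.dim T)) : ℝ := C.S.vtx T v i

/-- The copies of `F` in the shapes of `T` and of `T'` differ by a translation and a signed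
permutation of the coordinates. -/
def LpComplex.SignedCopies {p : ℝ≥0∞} [Fact (1 ≤ p)] {V : Type u} {X : Type v} [MetricSpace X]
    (C : LpComplex p V X) (F T T' : Finset V) : Prop :=
  ∃ (π : Fin (C.S.dim T) ≃ Fin (C.S.dim T')) (ε : Fin (C.S.dim T) → ℝ),
    (∀ i, ε i = 1 ∨ ε i = -1) ∧ ∀ v ∈ F, ∀ w ∈ F, ∀ i,
      C.coord T' v (π i) - C.coord T' w (π i) = ε i * (C.coord T v i - C.coord T w i)

/-- The copy of `F` in the shape of `T` lies in a hyperplane `x_i = c`, `x_i - x_j = c` or
`x_i + x_j = c`, where `i` and `j` are different. -/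
def LpComplex.InMirror {p : ℝ≥0∞} [Fact (1 ≤ p)] {V : Type u} {X : Type v} [MetricSpace X]
    (C : LpComplex p V X) (F T : Finset V) : Prop :=
  ∃ c : ℝ, (∃ i, ∀ v ∈ F, C.coord T v i = c) ∨
    (∃ i j, i ≠ j ∧ ∀ v ∈ F, C.coord T v i - C.coord T v j = c) ∨
    (∃ i j, i ≠ j ∧ ∀ v ∈ F, C.coord T v i + C.coord T v j = c)

/-- The copy of `T` in `(R^2, l^p)` is a right isosceles triangle, for the Euclidean metric of
`R^2`: the edges from some vertex `a` to the two others are orthogonal and of the same Euclidean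
length. -/
def LpComplex.IsRightIsosceles {p : ℝ≥0∞} [Fact (1 ≤ p)] {V : Type u} [DecidableEq V]
    {X : Type v} [MetricSpace X] (C : LpComplex p V X) (T : Finset V) : Prop :=
  ∃ a b c : V, a ≠ b ∧ a ≠ c ∧ b ≠ c ∧ T = {a, b, c} ∧
    ∑ i, (C.coord T b i - C.coord T a i) * (C.coord T c i - C.coord T a i) = 0 ∧
    ∑ i, (C.coord T b i - C.coord T a i) ^ 2 = ∑ i, (C.coord T c i - C.coord T a i) ^ 2

end Pool.Agent.LpBusemann
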