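import Pool.Agent.LpBusemann.Points

/-!
# Norms of the simplices, coordinates are Lipschitz, the metric near a wall
-/

open scoped ENNReal
open Set

namespace Pool.Agent.LpBusemann

universe u v

/-- A zero-sum vector of coefficients supported in `s`. -/
def ZS {V : Type u} (s : Finset V) (c : V →₀ ℝ) : Prop := c.support ⊆ s ∧ ∑ v ∈ s, c v = 0

section ZSlemmas

variable {V : Type u} {s t : Finset V} {c d : V →₀ ℝ}

theorem ZS.notMem (h : ZS s c) {v : V} (hv : v ∉ s) : c v = 0 :=
  Finsupp.notMem_support_iff.1 fun h' => hv (h.1 h')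

theorem ZS.mono (h : ZS s c) (hst : s ⊆ t) : ZS t c := by
  refine ⟨h.1.trans hst, ?_⟩
  rw [← h.2]
  exact (Finset.sum_subset hst fun v _ hv => h.notMem hv).symm

theorem ZS.add (h : ZS s c) (h' : ZS s d) : ZS s (c + d) := by
  classical
  refine ⟨Finsupp.support_add.trans (Finset.union_subset h.1 h'.1), ?_⟩
  simp only [Finsupp.add_apply, Finset.sum_add_distrib, h.2, h'.2, add_zero]

theorem ZS.smul (r : ℝ) (h : ZS s c) : ZS s (r • c) := by
  refine ⟨Finsupp.support_smul.trans h.1, ?_⟩
  simp only [Finsupp.smul_apply, smul_eq_mul, ← Finset.mul_sum, h.2, mul_zero]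

theorem ZS.neg (h : ZS s c) : ZS s (-c) := by
  have := h.smul (-1)
  rwa [neg_one_smul] at this

theorem ZS.sub (h : ZS s c) (h' : ZS s d) : ZS s (c - d) := by
  rw [sub_eq_add_neg]
  exact h.add h'.neg

theorem ZS.zero (s : Finset V) : ZS s (0 : V →₀ ℝ) := ⟨by simp, by simp⟩

end ZSlemmas

section Norms

variable {p : ℝ≥0∞} [Fact (1 ≤ p)] {V : Type u} {X : Type v} [MetricSpace X]
  (C : LpComplex p V X)

/-- The norm, in the shape of the simplex `s`, of the vector with coefficients `c v` at the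
vertices of `s`. -/
noncomputable def LpComplex.nrm (s : Finset V) (c : V →₀ ℝ) : ℝ := ‖∑ v ∈ s, c v • C.S.vtx s v‖

/-- The barycentric coordinates of a point. -/
def LpComplex.wt (x : X) : V →₀ ℝ := (C.pt x).w

theorem LpComplex.nrm_nonneg (s : Finset V) (c : V →₀ ℝ) : 0 ≤ C.nrm s c := norm_nonneg _

theorem LpComplex.nrm_zero (s : Finset V) : C.nrm s 0 = 0 := by
  simp [LpComplex.nrm]

theorem LpComplex.nrm_add_le (s : Finset V) (c d : V →₀ ℝ) :
    C.nrm s (c + d) ≤ C.nrm s c + C.nrm s d := by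
  simp only [LpComplex.nrm, Finsupp.add_apply, add_smul, Finset.sum_add_distrib]
  exact norm_add_le _ _

theorem LpComplex.nrm_smul (s : Finset V) (r : ℝ) (c : V →₀ ℝ) :
    C.nrm s (r • c) = |r| * C.nrm s c := by
  simp only [LpComplex.nrm, Finsupp.smul_apply, smul_eq_mul, mul_smul, ← Finset.smul_sum]
  rw [norm_smul, Real.norm_eq_abs]

theorem LpComplex.nrm_neg (s : Finset V) (c : V →₀ ℝ) : C.nrm s (-c) = C.nrm s c := by
  rw [← neg_one_smul ℝ c, C.nrm_smul]
  simp

theorem LpComplex.nrm_sub_rev (s : Finset V) (c d : V →₀ ℝ) :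
    C.nrm s (c - d) = C.nrm s (d - c) := by
  rw [← C.nrm_neg s (c - d), neg_sub]

theorem LpComplex.nrm_eq_zero {s : Finset V} (hs : s ∈ C.K.faces) {c : V →₀ ℝ} (hc : ZS s c)
    (h : C.nrm s c = 0) : c = 0 := by
  have h1 : ∑ v ∈ s, c v • C.S.vtx s v = 0 := norm_eq_zero.1 h
  have h2 := (affineIndependent_iff.1 (C.S.indep s hs)) Finset.univ (fun v : s => c v)
    (by rw [Finset.sum_coe_sort s fun v => c v]; exact hc.2)
    (by rw [Finset.sum_coe_sort s fun v => c v • C.S.vtx s v]; exact h1)
  ext v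
  by_cases hv : v ∈ s
  · exact h2 ⟨v, hv⟩ (Finset.mem_univ _)
  · exact hc.notMem hv

theorem LpComplex.nrm_pos {s : Finset V} (hs : s ∈ C.K.faces) {c : V →₀ ℝ} (hc : ZS s c)
    (h : c ≠ 0) : 0 < C.nrm s c :=
  lt_of_le_of_ne (C.nrm_nonneg s c) fun h' => h (C.nrm_eq_zero hs hc h'.symm)

theorem LpComplex.dist_place_nrm (s : Finset V) (x y : Pt C.K) :
    dist (C.S.place s x) (C.S.place s y) = C.nrm s (x.w - y.w) := by
  rw [dist_eq_norm, LpShapes.place, LpShapes.place, LpComplex.nrm, ← Finset.sum_sub_distrib]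
  simp only [Finsupp.sub_apply, sub_smul]

theorem LpComplex.dist_pos_nrm (s : Finset V) (x y : X) :
    dist (C.pos s x) (C.pos s y) = C.nrm s (C.wt x - C.wt y) :=
  C.dist_place_nrm s _ _

/-- A point of the realisation from its barycentric coordinates. -/
theorem LpComplex.exists_pt (w : V →₀ ℝ) {t : Finset V} (ht : t ∈ C.K.faces)
    (hs : w.support ⊆ t) (h0 : ∀ v, 0 ≤ w v) (h1 : ∑ v ∈ t, w v = 1) : ∃ x : X, C.wt x = w := by
  have hsum : (w.sum fun _ a => a) = 1 := by
    rw [← h1, Finsupp.sum]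
    exact Finset.sum_subset hs fun v _ hv => Finsupp.notMem_support_iff.1 hv
  have hne : w.support.Nonempty := by
    rw [Finset.nonempty_iff_ne_empty]
    intro h
    rw [Finsupp.sum, h, Finset.sum_empty] at hsum
    exact zero_ne_one hsum
  refine ⟨C.pt.symm ⟨w, h0, hsum, C.K.down_closed t ht _ hs hne⟩, ?_⟩
  simp [LpComplex.wt]

theorem LpComplex.wt_sum (x : X) {s : Finset V} (hx : C.supp x ⊆ s) :
    ∑ v ∈ s, C.wt x v = 1 := (C.pt x).sum_eq_one hx

theorem LpComplex.wt_nonneg (x : X) (v : V) : 0 ≤ C.wt x v := (C.pt x).nonneg v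

theorem LpComplex.mem_supp {x : X} {v : V} : v ∈ C.supp x ↔ 0 < C.wt x v := by
  constructor
  · exact (C.pt x).pos_of_mem
  · intro h
    exact Finsupp.mem_support_iff.2 h.ne'

theorem LpComplex.wt_eq_zero {x : X} {v : V} (h : v ∉ C.supp x) : C.wt x v = 0 :=
  Finsupp.notMem_support_iff.1 h

theorem LpComplex.supp_mem (x : X) : C.supp x ∈ C.K.faces := (C.pt x).support_mem

theorem LpComplex.supp_eq (x : X) : C.supp x = (C.wt x).support := rfl

theorem LpComplex.zs_sub {x y : X} {s : Finset V} (hx : C.supp x ⊆ s) (hy : C.supp y ⊆ s) :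
    ZS s (C.wt x - C.wt y) := by
  classical
  refine ⟨Finsupp.support_sub.trans (Finset.union_subset hx hy), ?_⟩
  simp only [Finsupp.sub_apply, Finset.sum_sub_distrib, C.wt_sum x hx, C.wt_sum y hy, sub_self]

theorem LpComplex.wt_injective {x y : X} (h : C.wt x = C.wt y) : x = y := by
  apply C.pt.injective
  cases hx : C.pt x
  cases hy : C.pt y
  simp only [LpComplex.wt, hx, hy] at h
  subst h
  rfl

/-- The barycentre of `F`. -/
noncomputable def bary (F : Finset V) : V →₀ ℝ := ∑ v ∈ F, Finsupp.single v (1 / (F.card : ℝ))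

theorem bary_apply_mem {F : Finset V} {v : V} (hv : v ∈ F) : bary F v = 1 / (F.card : ℝ) := by
  classical
  simp only [bary, Finsupp.finsetSum_apply, Finsupp.single_apply]
  rw [Finset.sum_ite_eq' F v fun _ => 1 / (F.card : ℝ)]
  simp [hv]

theorem bary_apply_notMem {F : Finset V} {v : V} (hv : v ∉ F) : bary F v = 0 := by
  classical
  simp only [bary, Finsupp.finsetSum_apply, Finsupp.single_apply]
  rw [Finset.sum_ite_eq' F v fun _ => 1 / (F.card : ℝ)]
  simp [hv]

theorem bary_support {F : Finset V} : (bary F).support ⊆ F := by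
  intro v hv
  by_contra h
  exact (Finsupp.mem_support_iff.1 hv) (bary_apply_notMem h)

theorem bary_sum {F : Finset V} (hF : F.Nonempty) : ∑ v ∈ F, bary F v = 1 := by
  rw [Finset.sum_congr rfl fun v hv => bary_apply_mem hv, Finset.sum_const, nsmul_eq_mul]
  have : (F.card : ℝ) ≠ 0 := by exact_mod_cast hF.card_pos.ne'
  field_simp

/-- A face inherits its norm. -/
theorem LpComplex.nrm_face {s t : Finset V} (hs : s ∈ C.K.faces) (hts : t ⊆ s) (ht : t.Nonempty)
    {c : V →₀ ℝ} (hc : ZS t c) : C.nrm t c = C.nrm s c := by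
  have htf : t ∈ C.K.faces := C.K.down_closed s hs t hts ht
  have hcard : (0 : ℝ) < t.card := by exact_mod_cast ht.card_pos
  set M : ℝ := 1 + ∑ v ∈ t, |c v| with hM
  have hM0 : 0 < M := by
    have : 0 ≤ ∑ v ∈ t, |c v| := Finset.sum_nonneg fun _ _ => abs_nonneg _
    linarith
  set ε : ℝ := 1 / (t.card * M) with hε
  have hε0 : 0 < ε := by positivity
  have hcv : ∀ v, |c v| ≤ M := by
    intro v
    by_cases hv : v ∈ t
    · have := Finset.single_le_sum (f := fun v => |c v|) (fun _ _ => abs_nonneg _) hv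
      linarith
    · rw [hc.notMem hv, abs_zero]
      exact hM0.le
  have hεc : ∀ v, |ε * c v| ≤ 1 / (t.card : ℝ) := by
    intro v
    rw [abs_mul, abs_of_pos hε0, hε]
    calc 1 / ((t.card : ℝ) * M) * |c v| ≤ 1 / ((t.card : ℝ) * M) * M :=
          mul_le_mul_of_nonneg_left (hcv v) (by positivity)
      _ = 1 / (t.card : ℝ) := by field_simp
  obtain ⟨y, hy⟩ := C.exists_pt (bary t) htf bary_support (fun v => by
    by_cases hv : v ∈ t
    · rw [bary_apply_mem hv]; positivity
    · rw [bary_apply_notMem hv]) (bary_sum ht)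
  have hsup : (bary t + ε • c).support ⊆ t := by
    classical
    exact Finsupp.support_add.trans (Finset.union_subset bary_support (hc.smul ε).1)
  obtain ⟨x, hx⟩ := C.exists_pt (bary t + ε • c) htf hsup (fun v => by
    simp only [Finsupp.add_apply, Finsupp.smul_apply, smul_eq_mul]
    by_cases hv : v ∈ t
    · rw [bary_apply_mem hv]
      have := (abs_le.1 (hεc v)).1
      linarith
    · rw [bary_apply_notMem hv, hc.notMem hv]
      simp) (by
    simp only [Finsupp.add_apply, Finset.sum_add_distrib, bary_sum ht, (hc.smul ε).2, add_zero])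
  have hcompat := C.S.compat s hs t hts ht (C.pt x) (C.pt y)
    (by rw [show (C.pt x).w = C.wt x from rfl, hx]; exact hsup)
    (by rw [show (C.pt y).w = C.wt y from rfl, hy]; exact bary_support)
  have h1 : C.nrm t (C.wt x - C.wt y) = C.nrm s (C.wt x - C.wt y) := by
    rw [← C.dist_pos_nrm, ← C.dist_pos_nrm]
    exact hcompat
  rw [hx, hy, add_sub_cancel_left, C.nrm_smul, C.nrm_smul] at h1
  exact mul_left_cancel₀ (abs_pos.2 hε0.ne').ne' h1

/-- The distance inside a simplex does not depend on the simplex. -/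
theorem LpComplex.dist_pos_eq {s t : Finset V} (hs : s ∈ C.K.faces) (ht : t ∈ C.K.faces)
    {x y : X} (hxs : C.supp x ⊆ s) (hys : C.supp y ⊆ s) (hxt : C.supp x ⊆ t)
    (hyt : C.supp y ⊆ t) : dist (C.pos s x) (C.pos s y) = dist (C.pos t x) (C.pos t y) :=
  dist_place_eq C.S hs ht hxs hys hxt hyt

/-- `A` is a Lipschitz constant of the coordinates of the vertices in `F`, inside simplices. -/
def LpComplex.Lip (F : Finset V) (A : ℝ) : Prop :=
  ∀ v ∈ F, ∀ s ∈ C.K.faces, ∀ x y : Pt C.K, x.w.support ⊆ s → y.w.support ⊆ s →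
    |x.w v - y.w v| ≤ A * dist (C.S.place s x) (C.S.place s y)

theorem LpComplex.exists_lip (hT : C.Tame) (F : Finset V) : ∃ A : ℝ, 0 < A ∧ C.Lip F A := by
  classical
  choose A N hAN using hT
  obtain ⟨B, hB⟩ : ∃ B : ℝ, ∀ v ∈ F, A v ≤ B := by
    obtain ⟨B, hB⟩ := (F.finite_toSet.image A).bddAbove
    exact ⟨B, fun v hv => hB ⟨v, hv, rfl⟩⟩
  refine ⟨max B 1, lt_of_lt_of_le one_pos (le_max_right _ _), ?_⟩
  intro v hv s hs x y hx hy
  by_cases hvs : v ∈ s
  · refine ((hAN v s hs hvs).2 x y hx hy).trans ?_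
    exact mul_le_mul_of_nonneg_right ((hB v hv).trans (le_max_left _ _)) dist_nonneg
  · have h1 : x.w v = 0 := Finsupp.notMem_support_iff.1 fun h => hvs (hx h)
    have h2 : y.w v = 0 := Finsupp.notMem_support_iff.1 fun h => hvs (hy h)
    rw [h1, h2, sub_zero, abs_zero]
    exact mul_nonneg (zero_le_one.trans (le_max_right _ _)) dist_nonneg

theorem StringLength.lip {C : LpComplex p V X} {F : Finset V} {A : ℝ} (hA : C.Lip F A)
    {x y : Pt C.K} {l : ℝ} (h : StringLength C.S x y l) : ∀ v ∈ F, |x.w v - y.w v| ≤ A * l := by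
  induction h with
  | nil x =>
    intro v hv
    simp
  | cons s x z y l hs hx hz h ih =>
    intro v hv
    have h1 := hA v hv s hs x z hx hz
    have h2 := ih v hv
    have h3 := abs_sub_le (x.w v) (z.w v) (y.w v)
    linarith

theorem LpComplex.Lip.bound {C : LpComplex p V X} {F : Finset V} {A : ℝ} (hA : C.Lip F A)
    (hA0 : 0 < A) (x y : X) {v : V} (hv : v ∈ F) : |C.wt x v - C.wt y v| ≤ A * dist x y := by
  have h1 : |C.wt x v - C.wt y v| / A ≤ dist x y := by
    rw [C.dist_eq]
    apply le_csInf (C.connected x y)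
    intro l hl
    rw [div_le_iff₀ hA0, mul_comm]
    exact StringLength.lip hA hl v hv
  rw [div_le_iff₀ hA0, mul_comm] at h1
  exact h1

/-- `F` is a simplex which is maximal or contained only in simplices of one more dimension. -/
def LpComplex.Wall (F : Finset V) : Prop :=
  F ∈ C.K.faces ∧ ∀ s ∈ C.K.faces, F ⊆ s → s.card ≤ F.card + 1

theorem LpComplex.Wall.max {C : LpComplex p V X} {F : Finset V} (hF : C.Wall F) {s t : Finset V}
    (hFs : F ⊆ s) (hne : s ≠ F) (ht : t ∈ C.K.faces) (hst : s ⊆ t) : t = s := by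
  have h1 : F.card < s.card := Finset.card_lt_card (Finset.ssubset_iff_subset_ne.2 ⟨hFs, hne.symm⟩)
  have h2 := hF.2 t ht (hFs.trans hst)
  exact (Finset.eq_of_subset_of_card_le hst (by omega)).symm

/-- Strings near the interior of a wall. -/
theorem StringLength.wall {C : LpComplex p V X} {F : Finset V} (hF : C.Wall F) {A : ℝ}
    (hA0 : 0 < A) (hA : C.Lip F A) {x y : Pt C.K} {l : ℝ} (h : StringLength C.S x y l) :
    (∀ v ∈ F, A * l < x.w v) →
    F ⊆ x.w.support ∧ F ⊆ y.w.support ∧
    (∀ T ∈ C.K.faces, x.w.support ⊆ T → y.w.support ⊆ T →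
      dist (C.S.place T x) (C.S.place T y) ≤ l) ∧
    ((¬ ∃ T ∈ C.K.faces, x.w.support ⊆ T ∧ y.w.support ⊆ T) → ∃ q : Pt C.K, q.w.support = F ∧
      dist (C.S.place x.w.support x) (C.S.place x.w.support q) +
        dist (C.S.place y.w.support q) (C.S.place y.w.support y) ≤ l) := by
  induction h with
  | nil x =>
    intro hl
    have hFx : F ⊆ x.w.support := by
      intro v hv
      have := hl v hv
      rw [mul_zero] at this
      exact Finsupp.mem_support_iff.2 this.ne'
    refine ⟨hFx, hFx, fun T _ _ _ => by rw [dist_self], fun h => ?_⟩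
    exact absurd ⟨x.w.support, x.support_mem, Finset.Subset.refl _, Finset.Subset.refl _⟩ h
  | cons s x z y l hs hx hz h ih =>
    intro hl
    have hδ : 0 ≤ dist (C.S.place s x) (C.S.place s z) := dist_nonneg
    have hl0 : 0 ≤ l := StringLength.nonneg h
    have hz' : ∀ v ∈ F, A * l < z.w v := by
      intro v hv
      have h1 := (abs_le.1 (hA v hv s hs x z hx hz)).2
      have h2 := hl v hv
      rw [mul_add] at h2
      linarith
    obtain ⟨hFz, hFy, ih1, ih2⟩ := ih hz'
    have hFx : F ⊆ x.w.support := by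
      intro v hv
      have h2 := hl v hv
      have h3 : 0 ≤ A * (dist (C.S.place s x) (C.S.place s z) + l) :=
        mul_nonneg hA0.le (by linarith)
      exact Finsupp.mem_support_iff.2 (lt_of_le_of_lt h3 h2).ne'
    refine ⟨hFx, hFy, ?_, ?_⟩
    · intro T hT hxT hyT
      by_cases hzF : z.w.support = F
      · have hzT : z.w.support ⊆ T := by rw [hzF]; exact hFx.trans hxT
        have h1 := dist_triangle (C.S.place T x) (C.S.place T z) (C.S.place T y)
        rw [dist_place_eq C.S hT hs hxT hzT hx hz] at h1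
        have h2 := ih1 T hT hzT hyT
        linarith
      · have hsz : s = z.w.support := hF.max hFz hzF hs hz
        have hxy : dist (C.S.place T x) (C.S.place T y) = dist (C.S.place T x) (C.S.place T y) := rfl
        by_cases hsh : ∃ T1 ∈ C.K.faces, z.w.support ⊆ T1 ∧ y.w.support ⊆ T1
        · obtain ⟨T1, hT1, hzT1, hyT1⟩ := hsh
          have hT1s : T1 = s := by rw [hsz]; exact hF.max hFz hzF hT1 hzT1
          rw [hT1s] at hyT1
          rw [dist_place_eq C.S hT hs hxT hyT hx hyT1]
          have h1 := dist_triangle (C.S.place s x) (C.S.place s z) (C.S.place s y)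
          have h2 := ih1 s hs hz hyT1
          linarith
        · obtain ⟨q, hq, hq2⟩ := ih2 hsh
          have hqT : q.w.support ⊆ T := by rw [hq]; exact hFx.trans hxT
          have hqs : q.w.support ⊆ s := by rw [hq, hsz]; exact hFz
          have hqy : q.w.support ⊆ y.w.support := by rw [hq]; exact hFy
          have h1 := dist_triangle (C.S.place T x) (C.S.place T q) (C.S.place T y)
          rw [dist_place_eq C.S hT hs hxT hqT hx hqs,
            dist_place_eq C.S hT y.support_mem hqT hyT hqy (Finset.Subset.refl _)] at h1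
          have h2 := dist_triangle (C.S.place s x) (C.S.place s z) (C.S.place s q)
          rw [← hsz] at hq2
          linarith
    · intro hns
      by_cases hzF : z.w.support = F
      · refine ⟨z, hzF, ?_⟩
        have hzx : z.w.support ⊆ x.w.support := by rw [hzF]; exact hFx
        have hzy : z.w.support ⊆ y.w.support := by rw [hzF]; exact hFy
        rw [dist_place_eq C.S x.support_mem hs (Finset.Subset.refl _) hzx hx hz]
        have h2 := ih1 y.w.support y.support_mem hzy (Finset.Subset.refl _)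
        linarith
      · have hsz : s = z.w.support := hF.max hFz hzF hs hz
        by_cases hsh : ∃ T1 ∈ C.K.faces, z.w.support ⊆ T1 ∧ y.w.support ⊆ T1
        · exfalso
          obtain ⟨T1, hT1, hzT1, hyT1⟩ := hsh
          have hT1s : T1 = s := by rw [hsz]; exact hF.max hFz hzF hT1 hzT1
          rw [hT1s] at hyT1
          exact hns ⟨s, hs, hx, hyT1⟩
        · obtain ⟨q, hq, hq2⟩ := ih2 hsh
          refine ⟨q, hq, ?_⟩
          have hqx : q.w.support ⊆ x.w.support := by rw [hq]; exact hFx
          have hqs : q.w.support ⊆ s := by rw [hq, hsz]; exact hFz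
          rw [dist_place_eq C.S x.support_mem hs (Finset.Subset.refl _) hqx hx hqs]
          have h2 := dist_triangle (C.S.place s x) (C.S.place s z) (C.S.place s q)
          rw [← hsz] at hq2
          linarith

end Norms

end Pool.Agent.LpBusemann
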