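import Pool.Agent.LpBusemann.Tri

/-!
# The development of a chain of triangles in the plane
-/

open scoped ENNReal
open Set

namespace Pool.Agent.LpBusemann

universe u v

/-- `‖z‖ sin (arg z - t)`, as a linear function of `z`. -/
noncomputable def sg (t : ℝ) (z : ℂ) : ℝ := z.im * Real.cos t - z.re * Real.sin t

/-- `‖z‖ cos (arg z - t)`, as a linear function of `z`. -/
noncomputable def cg (t : ℝ) (z : ℂ) : ℝ := z.im * Real.sin t + z.re * Real.cos t

theorem sg_add (t : ℝ) (z w : ℂ) : sg t (z + w) = sg t z + sg t w := by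
  simp only [sg, Complex.add_re, Complex.add_im]
  ring

theorem sg_sub (t : ℝ) (z w : ℂ) : sg t (z - w) = sg t z - sg t w := by
  simp only [sg, Complex.sub_re, Complex.sub_im]
  ring

theorem sg_smul (t r : ℝ) (z : ℂ) : sg t (r • z) = r * sg t z := by
  simp only [sg, Complex.smul_re, Complex.smul_im, smul_eq_mul]
  ring

theorem sg_polar (t : ℝ) (z : ℂ) : sg t z = ‖z‖ * Real.sin (z.arg - t) := by
  rw [Real.sin_sub, mul_sub, ← mul_assoc, ← mul_assoc, Complex.norm_mul_sin_arg,
    Complex.norm_mul_cos_arg, sg]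

theorem sg_sub_angle (t s : ℝ) (z : ℂ) :
    sg (t - s) z = sg t z * Real.cos s + cg t z * Real.sin s := by
  rw [sg, sg, cg, Real.cos_sub, Real.sin_sub]
  ring

theorem sg_add_angle (t s : ℝ) (z : ℂ) :
    sg (t + s) z = sg t z * Real.cos s - cg t z * Real.sin s := by
  rw [sg, sg, cg, Real.cos_add, Real.sin_add]
  ring

theorem abs_sg_le (t : ℝ) (z : ℂ) : |sg t z| ≤ ‖z‖ := by
  rw [sg_polar, abs_mul, abs_of_nonneg (norm_nonneg z)]
  exact mul_le_of_le_one_right (norm_nonneg z) (Real.abs_sin_le_one _)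

section Dev

variable {p : ℝ≥0∞} [Fact (1 ≤ p)] {V : Type u} {X : Type v} [MetricSpace X] [DecidableEq V]
  {C : LpComplex p V X} {v : V} {m : ℕ} {a : ℕ → V} {l θ : ℕ → ℝ}

/-- Partial sums of the angles. -/
noncomputable def Th (θ : ℕ → ℝ) (j : ℕ) : ℝ := ∑ i ∈ Finset.range j, θ i

theorem Th_zero (θ : ℕ → ℝ) : Th θ 0 = 0 := by simp [Th]

theorem Th_succ (θ : ℕ → ℝ) (j : ℕ) : Th θ (j + 1) = Th θ j + θ j := by
  simp [Th, Finset.sum_range_succ]

/-- The coordinates of `z` in the triangle number `i`. -/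
noncomputable def XX (l θ : ℕ → ℝ) (i : ℕ) (z : ℂ) : ℝ :=
  -sg (Th θ (i + 1)) z / (l i * Real.sin (θ i))

/-- The coordinates of `z` in the triangle number `i`. -/
noncomputable def YY (l θ : ℕ → ℝ) (i : ℕ) (z : ℂ) : ℝ :=
  sg (Th θ i) z / (l (i + 1) * Real.sin (θ i))

theorem XX_sub (i : ℕ) (z w : ℂ) : XX l θ i (z - w) = XX l θ i z - XX l θ i w := by
  rw [XX, XX, XX, sg_sub]
  ring

theorem YY_sub (i : ℕ) (z w : ℂ) : YY l θ i (z - w) = YY l θ i z - YY l θ i w := by
  rw [YY, YY, YY, sg_sub]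
  ring

theorem XX_add (i : ℕ) (z w : ℂ) : XX l θ i (z + w) = XX l θ i z + XX l θ i w := by
  rw [XX, XX, XX, sg_add]
  ring

theorem YY_add (i : ℕ) (z w : ℂ) : YY l θ i (z + w) = YY l θ i z + YY l θ i w := by
  rw [YY, YY, YY, sg_add]
  ring

theorem XX_smul (i : ℕ) (r : ℝ) (z : ℂ) : XX l θ i (r • z) = r * XX l θ i z := by
  rw [XX, XX, sg_smul]
  ring

theorem YY_smul (i : ℕ) (r : ℝ) (z : ℂ) : YY l θ i (r • z) = r * YY l θ i z := by
  rw [YY, YY, sg_smul]
  ring

variable (C v a l θ)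

/-- The norm of the triangle number `i` in the plane. -/
noncomputable def LpComplex.pn (i : ℕ) (z : ℂ) : ℝ :=
  C.tn v (a i) (a (i + 1)) (XX l θ i z) (YY l θ i z)

theorem LpComplex.pn_add_le (i : ℕ) (z w : ℂ) :
    C.pn v a l θ i (z + w) ≤ C.pn v a l θ i z + C.pn v a l θ i w := by
  rw [LpComplex.pn, LpComplex.pn, LpComplex.pn, XX_add, YY_add]
  exact C.tn_add_le _ _ _ _ _ _ _

theorem LpComplex.pn_smul (i : ℕ) (r : ℝ) (z : ℂ) :
    C.pn v a l θ i (r • z) = |r| * C.pn v a l θ i z := by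
  rw [LpComplex.pn, LpComplex.pn, XX_smul, YY_smul, C.tn_smul]

variable {C v a l θ}

theorem LpComplex.Chain.sin_pos (h : C.Chain v m a l θ) {i : ℕ} (hi : i < m) :
    0 < Real.sin (θ i) := Real.sin_pos_of_pos_of_lt_pi (h.θ_pos i hi) (h.θ_lt i hi)

theorem LpComplex.Chain.pn_succ (h : C.Chain v m a l θ) {i : ℕ} (hi : i + 1 < m) (z : ℂ) :
    C.pn v a l θ i z = C.pn v a l θ (i + 1) z := by
  obtain ⟨μ, lam, hlam, had, r1, r2⟩ := h.adj i hi
  have s1 := h.sin_pos (i := i) (by omega)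
  have s2 := h.sin_pos hi
  have l0 := h.l_pos i (by omega)
  have l1 := h.l_pos (i + 1) (by omega)
  have l2 := h.l_pos (i + 2) (by omega)
  rw [LpComplex.pn, LpComplex.pn, had]
  have e2 : -(lam * XX l θ i z) = YY l θ (i + 1) z := by
    rw [XX, YY]
    have : lam * (-sg (Th θ (i + 1)) z / (l i * Real.sin (θ i))) =
        -(lam * sg (Th θ (i + 1)) z / (l i * Real.sin (θ i))) := by ring
    rw [this, neg_neg, ← r1, show i + 1 + 1 = i + 2 by ring]
    field_simp
  have e1 : YY l θ i z - μ * XX l θ i z = XX l θ (i + 1) z := by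
    have t1 : sg (Th θ i) z = sg (Th θ (i + 1)) z * Real.cos (θ i) +
        cg (Th θ (i + 1)) z * Real.sin (θ i) := by
      rw [← sg_sub_angle, Th_succ]
      congr 1
      ring
    have t2 : sg (Th θ (i + 2)) z = sg (Th θ (i + 1)) z * Real.cos (θ (i + 1)) -
        cg (Th θ (i + 1)) z * Real.sin (θ (i + 1)) := by
      rw [← sg_add_angle, ← Th_succ]
    rw [YY, XX, XX, show i + 1 + 1 = i + 2 by ring, t1, t2]
    set s : ℝ := sg (Th θ (i + 1)) z with hs
    set c : ℝ := cg (Th θ (i + 1)) z with hc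
    set S1 : ℝ := Real.sin (θ i) with hS1
    set S2 : ℝ := Real.sin (θ (i + 1)) with hS2
    set C1 : ℝ := Real.cos (θ i) with hC1
    set C2 : ℝ := Real.cos (θ (i + 1)) with hC2
    have key : l i * C1 * S2 + μ * l (i + 1) * S2 + l i * S1 * C2 = 0 := by
      rw [r2, ← r1]
      ring
    have goal : (s * C1 + c * S1) / (l (i + 1) * S1) - μ * (-s / (l i * S1)) -
        -(s * C2 - c * S2) / (l (i + 1) * S2) =
        s * (l i * C1 * S2 + μ * l (i + 1) * S2 + l i * S1 * C2) /
          (l i * l (i + 1) * S1 * S2) := by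
      field_simp
      ring
    rw [key, mul_zero, zero_div] at goal
    linarith
  rw [e1, e2]

theorem LpComplex.Chain.pn_eq (h : C.Chain v m a l θ) {i : ℕ} (hi : i < m) (z : ℂ) :
    C.pn v a l θ i z = C.pn v a l θ 0 z := by
  induction i with
  | zero => rfl
  | succ i ih => rw [← h.pn_succ hi, ih (by omega)]

variable (v a l θ)

/-- The barycentric coordinates of the point `z` of the triangle number `i`. -/
noncomputable def WW (i : ℕ) (z : ℂ) : V →₀ ℝ :=
  Finsupp.single v 1 + XX l θ i z • ev v (a i) + YY l θ i z • ev v (a (i + 1))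

variable {v a l θ}

theorem nrm_WW_sub (i : ℕ) (z w : ℂ) :
    C.nrm {v, a i, a (i + 1)} (WW v a l θ i z - WW v a l θ i w) = C.pn v a l θ i (z - w) := by
  rw [LpComplex.pn, LpComplex.tn, WW, WW, XX_sub, YY_sub]
  congr 1
  module

theorem WW_v (h : C.Chain v m a l θ) {i : ℕ} (hi : i < m) (z : ℂ) :
    WW v a l θ i z v = 1 - XX l θ i z - YY l θ i z := by
  have h1 := h.ne_v i hi.le
  have h2 := h.ne_v (i + 1) hi
  simp only [WW, Finsupp.add_apply, Finsupp.smul_apply, smul_eq_mul, ev_apply,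
    Finsupp.single_apply, if_true, if_neg h1, if_neg h2]
  ring

theorem WW_a (h : C.Chain v m a l θ) {i : ℕ} (hi : i < m) (z : ℂ) :
    WW v a l θ i z (a i) = XX l θ i z := by
  have h1 := h.ne_v i hi.le
  have h2 := h.ne_succ i hi
  simp only [WW, Finsupp.add_apply, Finsupp.smul_apply, smul_eq_mul, ev_apply,
    Finsupp.single_apply, if_true, if_neg h1.symm, if_neg h2.symm]
  ring

theorem WW_a' (h : C.Chain v m a l θ) {i : ℕ} (hi : i < m) (z : ℂ) :
    WW v a l θ i z (a (i + 1)) = YY l θ i z := by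
  have h1 := h.ne_v (i + 1) hi
  have h2 := h.ne_succ i hi
  simp only [WW, Finsupp.add_apply, Finsupp.smul_apply, smul_eq_mul, ev_apply,
    Finsupp.single_apply, if_true, if_neg h1.symm, if_neg h2]
  ring

theorem WW_support (i : ℕ) (z : ℂ) : (WW v a l θ i z).support ⊆ {v, a i, a (i + 1)} := by
  have hz : ZS {v, a i, a (i + 1)}
      (XX l θ i z • ev v (a i) + YY l θ i z • ev v (a (i + 1))) :=
    ((ev_zs (by simp) (by simp)).smul _).add ((ev_zs (by simp) (by simp)).smul _)
  rw [WW, add_assoc]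
  refine Finsupp.support_add.trans (Finset.union_subset ?_ hz.1)
  refine Finsupp.support_single_subset.trans ?_
  simp

theorem WW_sum (i : ℕ) (z : ℂ) : ∑ w ∈ ({v, a i, a (i + 1)} : Finset V), WW v a l θ i z w = 1 := by
  have hz : ZS {v, a i, a (i + 1)}
      (XX l θ i z • ev v (a i) + YY l θ i z • ev v (a (i + 1))) :=
    ((ev_zs (by simp) (by simp)).smul _).add ((ev_zs (by simp) (by simp)).smul _)
  have h1 : ∀ w, WW v a l θ i z w = (Finsupp.single v (1 : ℝ)) w +
      (XX l θ i z • ev v (a i) + YY l θ i z • ev v (a (i + 1))) w := by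
    intro w
    rw [WW, add_assoc, Finsupp.add_apply]
  simp only [h1, Finset.sum_add_distrib, hz.2, add_zero, Finsupp.single_apply]
  rw [Finset.sum_ite_eq _ v fun _ => (1 : ℝ)]
  simp

/-- On the common ray the coordinates of consecutive triangles agree. -/
theorem LpComplex.Chain.WW_succ (h : C.Chain v m a l θ) {i : ℕ} (hi : i + 1 < m) {z : ℂ}
    (hz : sg (Th θ (i + 1)) z = 0) : WW v a l θ i z = WW v a l θ (i + 1) z := by
  have s1 := h.sin_pos (i := i) (by omega)
  have s2 := h.sin_pos hi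
  have l1 := h.l_pos (i + 1) (by omega)
  have t1 : sg (Th θ i) z = cg (Th θ (i + 1)) z * Real.sin (θ i) := by
    have := sg_sub_angle (Th θ (i + 1)) (θ i) z
    rw [hz, Th_succ, show Th θ i + θ i - θ i = Th θ i by ring, zero_mul, zero_add] at this
    rw [this, Th_succ]
  have t2 : sg (Th θ (i + 2)) z = -(cg (Th θ (i + 1)) z * Real.sin (θ (i + 1))) := by
    have := sg_add_angle (Th θ (i + 1)) (θ (i + 1)) z
    rw [hz, ← Th_succ, zero_mul, zero_sub] at this
    exact this
  have e1 : XX l θ i z = 0 := by rw [XX, hz]; simp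
  have e2 : YY l θ (i + 1) z = 0 := by rw [YY, hz]; simp
  have e3 : YY l θ i z = XX l θ (i + 1) z := by
    rw [YY, XX, t1, show i + 1 + 1 = i + 2 by ring, t2]
    field_simp
  rw [WW, WW, e1, e2, e3]
  simp

/-- The point of the triangle number `i` with given small coordinates. -/
theorem LpComplex.Chain.exists_point (h : C.Chain v m a l θ) {i : ℕ} (hi : i < m) {z : ℂ}
    (hx : 0 ≤ XX l θ i z) (hy : 0 ≤ YY l θ i z) (hxy : XX l θ i z + YY l θ i z ≤ 1 / 2) :
    ∃ x : X, C.wt x = WW v a l θ i z := by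
  apply C.exists_pt _ (h.face i hi) (WW_support i z) ?_ (WW_sum i z)
  intro w
  by_cases h1 : w = v
  · subst h1
    rw [WW_v h hi]
    linarith
  by_cases h2 : w = a i
  · subst h2
    rw [WW_a h hi]
    exact hx
  by_cases h3 : w = a (i + 1)
  · subst h3
    rw [WW_a' h hi]
    exact hy
  · have : WW v a l θ i z w = 0 := by
      apply Finsupp.notMem_support_iff.1
      intro h'
      have := WW_support i z h'
      simp [h1, h2, h3] at this
    rw [this]

end Dev

end Pool.Agent.LpBusemann
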