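import Pool.Agent.LpBusemann.Unique

/-!
# Busemann inequality for points, local geodesics
-/

open scoped ENNReal
open Set

namespace Pool.Agent.LpBusemann

universe u v

section Busemann

variable {X : Type v} [MetricSpace X]

/-- In a Busemann convex space a point that lies between `x` and `y` lies on the geodesic. -/
theorem BusemannConvex.between (hB : BusemannConvex X) {x y m : X} {σ : ℝ → X}
    (hσ : IsGeodesic σ x y) {t : ℝ} (ht : t ∈ Icc (0 : ℝ) 1)
    (h1 : dist x m = t * dist x y) (h2 : dist m y = (1 - t) * dist x y) : σ t = m := by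
  have h00 : (0 : ℝ) ∈ Icc (0 : ℝ) 1 := ⟨le_rfl, zero_le_one⟩
  have h11 : (1 : ℝ) ∈ Icc (0 : ℝ) 1 := ⟨zero_le_one, le_rfl⟩
  rcases ht.1.eq_or_lt with h0 | h0
  · rw [← h0, zero_mul, dist_eq_zero] at h1
    rw [← h0, hσ.1, h1]
  rcases ht.2.eq_or_lt with h3 | h3
  · rw [h3, sub_self, zero_mul, dist_eq_zero] at h2
    rw [h3, hσ.2.1, h2]
  obtain ⟨α, hα⟩ := hB.1 x m
  obtain ⟨β, hβ⟩ := hB.1 m y
  set D : ℝ := dist x y with hD
  set c : ℝ → X := fun s => if s ≤ t then α (s / t) else β ((s - t) / (1 - t)) with hc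
  have hct : c t = m := by
    simp only [hc, le_refl, if_true]
    rw [div_self h0.ne', hα.2.1]
  have hin1 : ∀ s, 0 ≤ s → s ≤ t → s / t ∈ Icc (0 : ℝ) 1 := fun s hs hst =>
    ⟨div_nonneg hs h0.le, (div_le_one h0).2 hst⟩
  have hin2 : ∀ s, t ≤ s → s ≤ 1 → (s - t) / (1 - t) ∈ Icc (0 : ℝ) 1 := fun s hs hst =>
    ⟨div_nonneg (by linarith) (by linarith), (div_le_one (by linarith)).2 (by linarith)⟩
  have hxs : ∀ s, 0 ≤ s → s ≤ t → dist x (c s) = s * D := by
    intro s hs hst
    have h := hα.2.2 0 h00 (s / t) (hin1 s hs hst)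
    rw [hα.1, h1, zero_sub, abs_neg, abs_of_nonneg (hin1 s hs hst).1] at h
    simp only [hc, hst, if_true]
    rw [h]
    field_simp
  have hsm : ∀ s, 0 ≤ s → s ≤ t → dist (c s) m = (t - s) * D := by
    intro s hs hst
    have h := hα.2.2 (s / t) (hin1 s hs hst) 1 h11
    rw [hα.2.1, h1, abs_sub_comm, abs_of_nonneg (by linarith [(hin1 s hs hst).2])] at h
    simp only [hc, hst, if_true]
    rw [h]
    field_simp
  have hms : ∀ s, t < s → s ≤ 1 → dist m (c s) = (s - t) * D := by
    intro s hs hst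
    have h := hβ.2.2 0 h00 ((s - t) / (1 - t)) (hin2 s hs.le hst)
    rw [hβ.1, h2, zero_sub, abs_neg, abs_of_nonneg (hin2 s hs.le hst).1] at h
    simp only [hc, not_le.2 hs, if_false]
    rw [h]
    have : (1 - t) ≠ 0 := by linarith
    field_simp
  have hsy : ∀ s, t < s → s ≤ 1 → dist (c s) y = (1 - s) * D := by
    intro s hs hst
    have h := hβ.2.2 ((s - t) / (1 - t)) (hin2 s hs.le hst) 1 h11
    rw [hβ.2.1, h2, abs_sub_comm, abs_of_nonneg (by linarith [(hin2 s hs.le hst).2])] at h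
    simp only [hc, not_le.2 hs, if_false]
    rw [h]
    have : (1 - t) ≠ 0 := by linarith
    field_simp
    ring
  have key : ∀ s s', 0 ≤ s → s ≤ s' → s' ≤ 1 → dist (c s) (c s') = (s' - s) * D := by
    intro s s' hs hss hs'
    by_cases h4 : s' ≤ t
    · have h := hα.2.2 (s / t) (hin1 s hs (hss.trans h4)) (s' / t) (hin1 s' (hs.trans hss) h4)
      have h5 : s / t ≤ s' / t := div_le_div_of_nonneg_right hss h0.le
      rw [h1, abs_sub_comm, abs_of_nonneg (by linarith)] at h
      simp only [hc, h4, hss.trans h4, if_true]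
      rw [h]
      field_simp
    · push Not at h4
      by_cases h6 : s ≤ t
      · apply le_antisymm
        · have := dist_triangle (c s) m (c s')
          rw [hsm s hs h6, hms s' h4 hs'] at this
          linarith
        · have h7 := dist_triangle x (c s) y
          have h8 := dist_triangle (c s) (c s') y
          rw [hxs s hs h6] at h7
          rw [hsy s' h4 hs'] at h8
          rw [← hD] at h7
          linarith
      · push Not at h6
        have h := hβ.2.2 ((s - t) / (1 - t)) (hin2 s h6.le (hss.trans hs'))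
          ((s' - t) / (1 - t)) (hin2 s' h4.le hs')
        have h5 : (s - t) / (1 - t) ≤ (s' - t) / (1 - t) :=
          div_le_div_of_nonneg_right (by linarith) (by linarith)
        rw [h2, abs_sub_comm, abs_of_nonneg (by linarith)] at h
        simp only [hc, not_le.2 h6, not_le.2 h4, if_false]
        rw [h]
        have : (1 - t) ≠ 0 := by linarith
        field_simp
        ring
  have hgeo : IsGeodesic c x y := by
    refine ⟨?_, ?_, ?_⟩
    · have := hxs 0 le_rfl h0.le
      rw [zero_mul, dist_eq_zero] at this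
      exact this.symm
    · have := hsy 1 h3 le_rfl
      rw [sub_self, zero_mul, dist_eq_zero] at this
      exact this
    · intro s hs s' hs'
      rcases le_total s s' with h | h
      · rw [key s s' hs.1 h hs'.2, abs_sub_comm, abs_of_nonneg (by linarith)]
      · rw [dist_comm, key s' s hs'.1 h hs.2, abs_of_nonneg (by linarith)]
  rw [← hB.2.1 x y c σ hgeo hσ ht, hct]

/-- The Busemann inequality, for points that lie between the end points of two pairs. -/
theorem BusemannConvex.points (hB : BusemannConvex X) {x y m x' y' m' : X} {t : ℝ}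
    (ht : t ∈ Icc (0 : ℝ) 1)
    (h1 : dist x m = t * dist x y) (h2 : dist m y = (1 - t) * dist x y)
    (h1' : dist x' m' = t * dist x' y') (h2' : dist m' y' = (1 - t) * dist x' y') :
    dist m m' ≤ (1 - t) * dist x x' + t * dist y y' := by
  obtain ⟨σ, hσ⟩ := hB.1 x y
  obtain ⟨σ', hσ'⟩ := hB.1 x' y'
  have e1 := hB.between hσ ht h1 h2
  have e2 := hB.between hσ' ht h1' h2'
  have h := (hB.2.2 x y x' y' σ σ' hσ hσ').2
    (show (0 : ℝ) ∈ Icc (0 : ℝ) 1 from ⟨le_rfl, zero_le_one⟩)
    (show (1 : ℝ) ∈ Icc (0 : ℝ) 1 from ⟨zero_le_one, le_rfl⟩)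
    (show 0 ≤ 1 - t by linarith [ht.2]) ht.1 (by ring)
  simp only [smul_eq_mul, mul_zero, mul_one, zero_add] at h
  rwa [hσ.1, hσ'.1, hσ.2.1, hσ'.2.1, e1, e2] at h

/-- In a Busemann convex space a local geodesic is a geodesic. -/
theorem BusemannConvex.local_geodesic (hB : BusemannConvex X) {c : ℝ → X} {L : ℝ}
    (hloc : ∀ t ∈ Icc (0 : ℝ) 1, ∃ η : ℝ, 0 < η ∧ ∀ s ∈ Icc (0 : ℝ) 1, ∀ s' ∈ Icc (0 : ℝ) 1,
      |s - t| < η → |s' - t| < η → dist (c s) (c s') = |s - s'| * L) :
    IsGeodesic c (c 0) (c 1) := by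
  have h00 : (0 : ℝ) ∈ Icc (0 : ℝ) 1 := ⟨le_rfl, zero_le_one⟩
  have h11 : (1 : ℝ) ∈ Icc (0 : ℝ) 1 := ⟨zero_le_one, le_rfl⟩
  obtain ⟨σ, hσ⟩ := hB.1 (c 0) (c 1)
  -- `L` is nonnegative
  have hL : 0 ≤ L := by
    obtain ⟨η, hη, h⟩ := hloc 0 h00
    set s : ℝ := min 1 (η / 2) with hs
    have hs0 : 0 < s := lt_min one_pos (by linarith)
    have hs1 : s ≤ 1 := min_le_left _ _
    have hsη : s < η := lt_of_le_of_lt (min_le_right _ _) (by linarith)
    have h1 := h 0 h00 s ⟨hs0.le, hs1⟩ (by simpa using hη)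
      (by rw [sub_zero, abs_of_pos hs0]; exact hsη)
    rw [zero_sub, abs_neg, abs_of_pos hs0] at h1
    have h2 : 0 ≤ s * L := by rw [← h1]; exact dist_nonneg
    exact nonneg_of_mul_nonneg_right h2 hs0
  have hcc : ContinuousOn c (Icc (0 : ℝ) 1) := by
    intro t ht
    rw [Metric.continuousWithinAt_iff]
    intro e he
    obtain ⟨η, hη, h⟩ := hloc t ht
    have hL1 : 0 < L + 1 := by linarith
    refine ⟨min η (e / (L + 1)), lt_min hη (div_pos he hL1), fun {s} hs hst => ?_⟩
    rw [Real.dist_eq] at hst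
    rw [h s hs t ht (lt_of_lt_of_le hst (min_le_left _ _)) (by simpa using hη)]
    have h1 : |s - t| * L ≤ |s - t| * (L + 1) :=
      mul_le_mul_of_nonneg_left (by linarith) (abs_nonneg _)
    exact lt_of_le_of_lt h1 ((lt_div_iff₀ hL1).1 (lt_of_lt_of_le hst (min_le_right _ _)))
  have hf : ContinuousOn (fun t => dist (c t) (σ t)) (Icc (0 : ℝ) 1) :=
    continuous_dist.comp_continuousOn (hcc.prodMk hσ.continuousOn)
  -- the two curves agree
  have hEq : ∀ t ∈ Icc (0 : ℝ) 1, c t = σ t := by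
    obtain ⟨tm, htm, hmax⟩ := isCompact_Icc.exists_isMaxOn (⟨0, h00⟩ : (Icc (0 : ℝ) 1).Nonempty) hf
    have hmax' : ∀ t ∈ Icc (0 : ℝ) 1, dist (c t) (σ t) ≤ dist (c tm) (σ tm) := fun t ht => hmax ht
    by_cases hM : dist (c tm) (σ tm) ≤ 0
    · intro t ht
      exact dist_le_zero.1 ((hmax' t ht).trans hM)
    · exfalso
      push Not at hM
      have hcl : IsClosed {t ∈ Icc (0 : ℝ) 1 | dist (c tm) (σ tm) ≤ dist (c t) (σ t)} :=
        isClosed_Icc.isClosed_le continuousOn_const hf
      have hne : {t ∈ Icc (0 : ℝ) 1 | dist (c tm) (σ tm) ≤ dist (c t) (σ t)}.Nonempty :=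
        ⟨tm, htm, le_rfl⟩
      have hbd : BddBelow {t ∈ Icc (0 : ℝ) 1 | dist (c tm) (σ tm) ≤ dist (c t) (σ t)} :=
        ⟨0, fun t ht => ht.1.1⟩
      obtain ⟨ht0, ht0'⟩ := hcl.csInf_mem hne hbd
      set t0 : ℝ := sInf {t ∈ Icc (0 : ℝ) 1 | dist (c tm) (σ tm) ≤ dist (c t) (σ t)} with ht0def
      have hpos : 0 < t0 := by
        rcases ht0.1.eq_or_lt with h | h
        · rw [← h, hσ.1, dist_self] at ht0'
          linarith
        · exact h
      have hlt1 : t0 < 1 := by
        rcases ht0.2.eq_or_lt with h | h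
        · rw [h, hσ.2.1, dist_self] at ht0'
          linarith
        · exact h
      obtain ⟨η, hη, hl⟩ := hloc t0 ht0
      set r : ℝ := min (η / 2) (min t0 (1 - t0)) with hr
      have hr0 : 0 < r := lt_min (by linarith) (lt_min hpos (by linarith))
      have hrη : r < η := lt_of_le_of_lt (min_le_left _ _) (by linarith)
      have hrt : r ≤ t0 := (min_le_right _ _).trans (min_le_left _ _)
      have hrt1 : r ≤ 1 - t0 := (min_le_right _ _).trans (min_le_right _ _)
      have hm1 : t0 - r ∈ Icc (0 : ℝ) 1 := ⟨by linarith, by linarith⟩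
      have hm2 : t0 + r ∈ Icc (0 : ℝ) 1 := ⟨by linarith, by linarith⟩
      have hB1 : |t0 - r - t0| < η := by
        rw [show t0 - r - t0 = -r by ring, abs_neg, abs_of_pos hr0]; exact hrη
      have hB2 : |t0 + r - t0| < η := by
        rw [show t0 + r - t0 = r by ring, abs_of_pos hr0]; exact hrη
      have hB0 : |t0 - t0| < η := by simpa using hη
      have d1 := hl (t0 - r) hm1 t0 ht0 hB1 hB0
      have d2 := hl t0 ht0 (t0 + r) hm2 hB0 hB2
      have d3 := hl (t0 - r) hm1 (t0 + r) hm2 hB1 hB2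
      have s1 := hσ.2.2 (t0 - r) hm1 t0 ht0
      have s2 := hσ.2.2 t0 ht0 (t0 + r) hm2
      have s3 := hσ.2.2 (t0 - r) hm1 (t0 + r) hm2
      have a1 : |t0 - r - t0| = r := by
        rw [show t0 - r - t0 = -r by ring, abs_neg, abs_of_pos hr0]
      have a2 : |t0 - (t0 + r)| = r := by
        rw [show t0 - (t0 + r) = -r by ring, abs_neg, abs_of_pos hr0]
      have a3 : |t0 - r - (t0 + r)| = 2 * r := by
        rw [show t0 - r - (t0 + r) = -(2 * r) by ring, abs_neg, abs_of_pos (by linarith)]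
      rw [a1] at d1 s1
      rw [a2] at d2 s2
      rw [a3] at d3 s3
      have hbi := hB.points (t := 1 / 2) ⟨by norm_num, by norm_num⟩
        (x := c (t0 - r)) (y := c (t0 + r)) (m := c t0)
        (x' := σ (t0 - r)) (y' := σ (t0 + r)) (m' := σ t0)
        (by rw [d1, d3]; ring) (by rw [d2, d3]; ring)
        (by rw [s1, s3]; ring) (by rw [s2, s3]; ring)
      have hle := hmax' (t0 + r) hm2
      have hmem : t0 - r ∈ {t ∈ Icc (0 : ℝ) 1 | dist (c tm) (σ tm) ≤ dist (c t) (σ t)} := by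
        refine ⟨hm1, ?_⟩
        linarith
      have := csInf_le hbd hmem
      rw [← ht0def] at this
      linarith
  -- the speed
  have hspeed : ∀ s ∈ Icc (0 : ℝ) 1, ∀ t ∈ Icc (0 : ℝ) 1,
      dist (c s) (c t) = |s - t| * dist (c 0) (c 1) := by
    intro s hs t ht
    rw [hEq s hs, hEq t ht, hσ.2.2 s hs t ht]
  exact ⟨rfl, rfl, hspeed⟩

end Busemann

end Pool.Agent.LpBusemann
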