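import Pool.Agent.LpBusemann.Rot
import Pool.Agent.LpBusemann.AngleDefs

/-!
# Rational angles
-/

open scoped ENNReal Topology
open Set

namespace Pool.Agent.LpBusemann

universe u v

section Rational

variable {p : ℝ≥0∞} [Fact (1 ≤ p)] {V : Type u} {X : Type v} [MetricSpace X] [DecidableEq V]
  {C : LpComplex p V X}

theorem LpComplex.IsTri.mem {v a b : V} (_h : C.IsTri v a b) :
    v ∈ ({v, a, b} : Finset V) ∧ a ∈ ({v, a, b} : Finset V) ∧ b ∈ ({v, a, b} : Finset V) := by
  simp

/-- If the norm of a triangle is a multiple of the Euclidean norm, then it is the Euclidean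
norm. -/
theorem LpComplex.IsTri.euclid (hB : BusemannConvex X) (hT : C.Tame)
    (hdim : ∀ s ∈ C.K.faces, s.card ≤ 3) {v a b : V} (h : C.IsTri v a b) {κ : ℝ}
    (hκ : ∀ z, C.tz v a b z = κ * ‖z‖) : C.IsEuclideanTri C.len v a b := by
  obtain ⟨pa, pb, θ1, θ2, -, hsin⟩ := LpComplex.IsTri.facts hB hT hdim h
  have hs : 0 < Real.sin (angleOf C.len v a b) := Real.sin_pos_of_pos_of_lt_pi θ1 θ2
  have hl := LpComplex.IsTri.low_len hB hT hdim h
  have hκ0 : 0 ≤ κ := by
    have := hκ 1
    rw [norm_one, mul_one] at this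
    rw [← this]
    exact C.tn_nonneg _ _ _ _ _
  have hsq : ∀ x y, C.tn v a b x y ^ 2 = κ ^ 2 * (C.len v a ^ 2 * x ^ 2 +
      (C.len v a ^ 2 + C.len v b ^ 2 - C.len a b ^ 2) * x * y + C.len v b ^ 2 * y ^ 2) := by
    intro x y
    rw [← LpComplex.IsTri.tz_tn hB hT hdim h x y, hκ, mul_pow,
      LpComplex.IsTri.norm_sq hB hT hdim h x y]
  set β : ℝ := (C.len v a ^ 2 + C.len v b ^ 2 - C.len a b ^ 2) / 2 with hβ
  have hdet : 0 < C.len v a ^ 2 * C.len v b ^ 2 - β ^ 2 := by
    rw [← hsin]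
    positivity
  -- the multiple of the form is feasible
  have hfeas : Feas (C.tn v a b) (κ ^ 2 * C.len v a ^ 2) (κ ^ 2 * β) (κ ^ 2 * C.len v b ^ 2) := by
    intro x y
    have e1 : κ ^ 2 * C.len v a ^ 2 * x ^ 2 + 2 * (κ ^ 2 * β) * x * y +
        κ ^ 2 * C.len v b ^ 2 * y ^ 2 = C.tn v a b x y ^ 2 := by
      rw [hsq, hβ]
      ring
    rw [e1]
    exact ⟨sq_nonneg _, le_rfl⟩
  have h1 := hl.2 _ _ _ hfeas
  have h2 : κ ^ 4 * (C.len v a ^ 2 * C.len v b ^ 2 - β ^ 2) ≤
      1 * (C.len v a ^ 2 * C.len v b ^ 2 - β ^ 2) := by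
    have : κ ^ 2 * C.len v a ^ 2 * (κ ^ 2 * C.len v b ^ 2) - (κ ^ 2 * β) ^ 2 =
        κ ^ 4 * (C.len v a ^ 2 * C.len v b ^ 2 - β ^ 2) := by ring
    linarith
  have h3 : κ ^ 4 ≤ 1 := le_of_mul_le_mul_right h2 hdet
  have h4 := (hl.1 1 0).2
  have h5 := hsq 1 0
  have h6 : 1 ≤ κ ^ 2 := by
    have h7 : 1 * C.len v a ^ 2 ≤ κ ^ 2 * C.len v a ^ 2 := by
      rw [h5] at h4
      nlinarith
    exact le_of_mul_le_mul_right h7 (by positivity)
  have hκ1 : κ ^ 2 = 1 := by nlinarith
  intro x y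
  obtain ⟨m1, m2, m3⟩ := h.mem
  rw [LpComplex.triNorm, ← C.vec_ev m1 m2, ← C.vec_ev m1 m3, ← C.tn_eq_norm, hsq, hκ1, one_mul,
    triForm]

/-- A Euclidean triangle in an l^p space: `p` is an even integer. -/
theorem LpComplex.IsTri.even (hB : BusemannConvex X) (hT : C.Tame) (hpt : p ≠ ⊤)
    (hdim : ∀ s ∈ C.K.faces, s.card ≤ 3) {v a b : V} (h : C.IsTri v a b)
    (he : C.IsEuclideanTri C.len v a b) : ∃ n : ℕ, p = 2 * n := by
  have hp1 : 1 ≤ p := Fact.out
  have hq0 : 0 < p.toReal := by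
    have := (ENNReal.toReal_le_toReal ENNReal.one_ne_top hpt).2 hp1
    rw [ENNReal.toReal_one] at this
    linarith
  obtain ⟨pa, pb, θ1, θ2, -, -⟩ := LpComplex.IsTri.facts hB hT hdim h
  have hz : ∀ z, C.tz v a b z = 1 * ‖z‖ := by
    intro z
    obtain ⟨x, y, rfl⟩ := LpComplex.IsTri.basis hB hT hdim h z
    rw [LpComplex.IsTri.tz_tn hB hT hdim h x y, one_mul]
    have h1 := he x y
    obtain ⟨m1, m2, m3⟩ := h.mem
    rw [LpComplex.triNorm, triForm, ← C.vec_ev m1 m2, ← C.vec_ev m1 m3, ← C.tn_eq_norm,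
      ← LpComplex.IsTri.norm_sq hB hT hdim h x y] at h1
    exact (sq_eq_sq₀ (C.tn_nonneg _ _ _ _ _) (norm_nonneg _)).1 h1
  -- the two coordinate directions of the plane
  set P := C.vec {v, a, b} (ev v a)
  set Q := C.vec {v, a, b} (ev v b)
  set θ : ℝ := angleOf C.len v a b with hθ
  set P' := (-sg θ 1 / (C.len v a * Real.sin θ)) • P + (sg 0 1 / (C.len v b * Real.sin θ)) • Q
    with hP'
  set Q' := (-sg θ Complex.I / (C.len v a * Real.sin θ)) • P +
    (sg 0 Complex.I / (C.len v b * Real.sin θ)) • Q with hQ'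
  have hmain : ∀ x y : ℝ, ‖x • P' + y • Q'‖ = 1 * Real.sqrt (x ^ 2 + y ^ 2) := by
    intro x y
    have h1 := hz (x • (1 : ℂ) + y • Complex.I)
    rw [LpComplex.tz, C.tn_eq_norm, ← hθ, sg_add, sg_add, sg_smul, sg_smul, sg_smul, sg_smul] at h1
    have h2 : ‖x • (1 : ℂ) + y • Complex.I‖ = Real.sqrt (x ^ 2 + y ^ 2) := by
      rw [Complex.norm_eq_sqrt_sq_add_sq]
      simp
    rw [h2] at h1
    rw [← h1, hP', hQ']
    congr 1
    module
  obtain ⟨n, hn⟩ := even_of_euclid hq0 P' Q' one_pos hmain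
  refine ⟨n, ?_⟩
  rw [← ENNReal.ofReal_toReal hpt, hn, ENNReal.ofReal_mul (by norm_num), ENNReal.ofReal_natCast]
  norm_num

/-- A norm on the plane which is invariant under all rotations. -/
theorem LpComplex.tz_const {v a b : V}
    (h : ∀ (t : ℝ) (z : ℂ), C.tz v a b (Complex.exp (t * Complex.I) * z) = C.tz v a b z) (z : ℂ) :
    C.tz v a b z = C.tz v a b 1 * ‖z‖ := by
  have h1 : z = Complex.exp (z.arg * Complex.I) * (‖z‖ • (1 : ℂ)) := by
    rw [Complex.real_smul, mul_one, mul_comm, Complex.norm_mul_exp_arg_mul_I]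
  conv_lhs => rw [h1]
  rw [h, C.tz_smul, abs_of_nonneg (norm_nonneg z)]
  ring

theorem LpComplex.pn_tz {v : V} {b : ℕ → V} (i : ℕ) (z : ℂ) :
    C.pn v b (fun i => C.len v (b i)) (fun i => angleOf C.len v (b i) (b (i + 1))) i z =
      C.tz v (b i) (b (i + 1)) (Complex.exp
        (-((Th (fun i => angleOf C.len v (b i) (b (i + 1))) i : ℝ) : ℂ) * Complex.I) * z) := by
  rw [LpComplex.pn, LpComplex.tz, sg_rot, sg_rot, XX, YY, Th_succ, zero_add,
    add_comm (angleOf C.len v (b i) (b (i + 1)))]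

/-- The total angle of a cycle of triangles is a rational multiple of `π`, or the triangles are
Euclidean. -/
theorem LpComplex.cycle_dichotomy (hB : BusemannConvex X) (hT : C.Tame)
    (hdim : ∀ s ∈ C.K.faces, s.card ≤ 3) {v : V} {m : ℕ} (hm : 3 ≤ m) {a : ℕ → V}
    (hper : a m = a 0) (hinj : ∀ i < m, ∀ j < m, a i = a j → i = j)
    (htri : ∀ i < m, C.IsTri v (a i) (a (i + 1))) :
    (∃ q : ℚ, ∑ i ∈ Finset.range m, angleOf C.len v (a i) (a (i + 1)) = q * Real.pi) ∨
      ∀ i < m, C.IsEuclideanTri C.len v (a i) (a (i + 1)) := by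
  set b : ℕ → V := fun i => a (i % m) with hb
  have b1 : ∀ i, i < m → b i = a i := by
    intro i hi
    simp only [hb, Nat.mod_eq_of_lt hi]
  have b2 : b m = a m := by
    simp only [hb, Nat.mod_self, hper]
  have b3 : b (m + 1) = a 1 := by
    simp only [hb, Nat.add_mod_left, Nat.mod_eq_of_lt (show 1 < m by omega)]
  have b4 : ∀ i, i < m → b (i + 1) = a (i + 1) := by
    intro i hi
    rcases Nat.lt_or_ge (i + 1) m with h | h
    · exact b1 _ h
    · have : i + 1 = m := by omega
      rw [this, b2]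
  have htri' : ∀ i < m + 1, C.IsTri v (b i) (b (i + 1)) := by
    intro i hi
    rcases Nat.lt_or_ge i m with h | h
    · rw [b1 i h, b4 i h]
      exact htri i h
    · have : i = m := by omega
      rw [this, b2, b3, hper]
      exact htri 0 (by omega)
  have hturn' : ∀ i, i + 1 < m + 1 → b i ≠ b (i + 2) := by
    intro i hi heq
    rw [b1 i (by omega)] at heq
    rcases Nat.lt_or_ge (i + 2) m with h | h
    · rw [b1 _ h] at heq
      have := hinj i (by omega) (i + 2) h heq
      omega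
    · rcases Nat.lt_or_ge (i + 1) m with h' | h'
      · have h2 : i + 2 = m := by omega
        rw [h2, b2, hper] at heq
        have := hinj i (by omega) 0 (by omega) heq
        omega
      · have h2 : i + 2 = m + 1 := by omega
        rw [h2, b3] at heq
        have := hinj i (by omega) 1 (by omega) heq
        omega
  have hc := LpComplex.chain hB hT hdim htri' (by omega) hturn'
  set l : ℕ → ℝ := fun i => C.len v (b i) with hl
  set θ : ℕ → ℝ := fun i => angleOf C.len v (b i) (b (i + 1)) with hθ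
  have hsum : ∑ i ∈ Finset.range m, angleOf C.len v (a i) (a (i + 1)) = Th θ m := by
    rw [Th]
    apply Finset.sum_congr rfl
    intro i hi
    rw [Finset.mem_range] at hi
    simp only [hθ]
    rw [b1 i hi, b4 i hi]
  have h0 : ∀ z, C.pn v b l θ 0 z = C.tz v (b 0) (b 1) z := by
    intro z
    rw [hl, hθ, LpComplex.pn_tz, Th_zero]
    simp
  have hpn : ∀ i, i < m + 1 → ∀ z, C.tz v (b i) (b (i + 1))
      (Complex.exp (-((Th θ i : ℝ) : ℂ) * Complex.I) * z) = C.tz v (b 0) (b 1) z := by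
    intro i hi z
    rw [← h0 z, ← hc.pn_eq hi z, hl, hθ, LpComplex.pn_tz]
  have hrot : ∀ z, C.tz v (b 0) (b 1) (Complex.exp (((-Th θ m : ℝ) : ℂ) * Complex.I) * z) =
      C.tz v (b 0) (b 1) z := by
    intro z
    have h1 := hpn m (by omega) z
    rw [b2, b3, hper] at h1
    rw [b1 0 (by omega), b1 1 (by omega)] at h1 ⊢
    push_cast
    exact h1
  rcases rot_dichotomy (C.continuous_tz v (b 0) (b 1)) hrot with ⟨q, hq⟩ | hall
  · left
    refine ⟨-q, ?_⟩
    rw [hsum]
    push_cast
    linarith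
  · right
    intro i hi
    rw [← b1 i hi, ← b4 i hi]
    apply LpComplex.IsTri.euclid hB hT hdim (htri' i (by omega)) (κ := C.tz v (b 0) (b 1) 1)
    intro z
    have h1 := hpn i (by omega) (Complex.exp (((Th θ i : ℝ) : ℂ) * Complex.I) * z)
    rw [← mul_assoc, ← Complex.exp_add, ← add_mul, neg_add_cancel, zero_mul, Complex.exp_zero,
      one_mul, hall, LpComplex.tz_const hall z] at h1
    exact h1

/-- A thick edge is a symmetry axis of the norms of its triangles. -/
theorem LpComplex.IsTri.refl (hB : BusemannConvex X) (hT : C.Tame)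
    (hdim : ∀ s ∈ C.K.faces, s.card ≤ 3) {v a b : V} (h : C.IsTri v a b)
    (ht : C.IsThickEdge v a) : ∃ s : ℝ, ∀ x y, C.tn v a b x y =
      C.tn v a b (x - 2 * s * y) (-y) := by
  obtain ⟨d1, d2, hd1, hd2, hd12, t1, t2⟩ : ∃ d1 d2 : V, d1 ≠ b ∧ d2 ≠ b ∧ d1 ≠ d2 ∧
      C.IsTri v a d1 ∧ C.IsTri v a d2 := by
    obtain ⟨c1, c2, c3, h12, h13, h23, k1, k2, k3⟩ := ht
    by_cases e1 : c1 = b
    · exact ⟨c2, c3, fun h' => h12 (e1.trans h'.symm), fun h' => h13 (e1.trans h'.symm), h23,
        k2, k3⟩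
    · by_cases e2 : c2 = b
      · exact ⟨c1, c3, e1, fun h' => h23 (e2.trans h'.symm), h13, k1, k3⟩
      · exact ⟨c1, c2, e1, e2, h12, k1, k2⟩
  have hv1 : v ∈ ({v, a} : Finset V) := by simp
  have ha1 : a ∈ ({v, a} : Finset V) := by simp
  have hsub : ∀ c : V, ({v, a} : Finset V) ⊆ {v, a, c} := by
    intro c x hx
    simp only [Finset.mem_insert, Finset.mem_singleton] at hx ⊢
    tauto
  have hcard : ({v, a} : Finset V).card = 2 := Finset.card_pair h.1.symm
  have hF : C.Wall {v, a} := by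
    refine ⟨C.K.down_closed _ h.2.2.2 _ (hsub b) (by simp), fun s hs _ => ?_⟩
    rw [hcard]
    exact hdim s hs
  have hnF : ∀ {c : V}, C.IsTri v a c → c ∉ ({v, a} : Finset V) := by
    intro c hc
    simp only [Finset.mem_insert, Finset.mem_singleton, not_or]
    exact ⟨hc.2.1, hc.2.2.1.symm⟩
  have hneF : ∀ {c : V}, C.IsTri v a c → ({v, a, c} : Finset V) ≠ {v, a} := by
    intro c hc heq
    apply hnF hc
    rw [← heq]
    simp
  have hne : ∀ {c d : V}, C.IsTri v a c → C.IsTri v a d → c ≠ d →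
      ({v, a, c} : Finset V) ≠ {v, a, d} := by
    intro c d hc hd hcd heq
    have : c ∈ ({v, a, d} : Finset V) := by rw [← heq]; simp
    simp only [Finset.mem_insert, Finset.mem_singleton] at this
    rcases this with h1 | h1 | h1
    · exact hc.2.1 h1
    · exact hc.2.2.1 h1.symm
    · exact hcd h1
  obtain ⟨ζ, hζ, hζb, hsym⟩ := hF.reflection hB hT h.2.2.2 t1.2.2.2 t2.2.2.2 (hsub b) (hsub d1)
    (hsub d2) (hneF h) (hneF t1) (hneF t2) (hne h t1 hd1.symm) (hne t1 t2 hd12) (hne t2 h hd2)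
    (c1 := b) (by simp) (hnF h)
  have e1 := zs_tri h.1 h.2.1 h.2.2.1 hζ
  rw [hζb, one_smul] at e1
  refine ⟨ζ a, fun x y => ?_⟩
  have h1 := hsym y ((x - y * ζ a) • ev v a) ((ev_zs hv1 ha1).smul _)
  have g1 : y • ζ + (x - y * ζ a) • ev v a = x • ev v a + y • ev v b := by
    nth_rewrite 1 [e1]
    module
  have g2 : -(y • ζ) + (x - y * ζ a) • ev v a =
      (x - 2 * ζ a * y) • ev v a + (-y) • ev v b := by
    nth_rewrite 1 [e1]
    module
  rw [g1, g2] at h1
  exact h1

/-- In the Euclidean plane of the triangle, the symmetry in a thick edge is complex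
conjugation. -/
theorem LpComplex.IsTri.tz_conj (hB : BusemannConvex X) (hT : C.Tame)
    (hdim : ∀ s ∈ C.K.faces, s.card ≤ 3) {v a b : V} (h : C.IsTri v a b)
    (ht : C.IsThickEdge v a) (z : ℂ) :
    C.tz v a b (starRingEnd ℂ z) = C.tz v a b z := by
  obtain ⟨s, hs⟩ := LpComplex.IsTri.refl hB hT hdim h ht
  obtain ⟨pa, pb, θ1, θ2, hcos, -⟩ := LpComplex.IsTri.facts hB hT hdim h
  have hl := LpComplex.IsTri.low_len hB hT hdim h
  have htr := hl.transform (n' := C.tn v a b) (p := 1) (q := -2 * s) (r := 0) (s := -1)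
    (by norm_num) (fun x y => by
      rw [hs x y]
      congr 1 <;> ring)
  have h1 := (h.low_unique htr hl).2.1
  rw [← hcos] at h1
  set θ : ℝ := angleOf C.len v a b with hθ
  have h2 : s * C.len v a = -(C.len v b * Real.cos θ) := by
    have : C.len v a * (s * C.len v a) = C.len v a * (-(C.len v b * Real.cos θ)) := by
      linarith
    exact mul_left_cancel₀ pa.ne' this
  obtain ⟨x, y, rfl⟩ := LpComplex.IsTri.basis hB hT hdim h z
  have h3 : starRingEnd ℂ ((x * C.len v a) • (1 : ℂ) +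
      (y * C.len v b) • Complex.exp (θ * Complex.I)) =
      ((x - 2 * s * y) * C.len v a) • (1 : ℂ) +
      ((-y) * C.len v b) • Complex.exp (θ * Complex.I) := by
    have h4 : (x - 2 * s * y) * C.len v a = x * C.len v a + 2 * y * (C.len v b * Real.cos θ) := by
      linear_combination (-2 * y) * h2
    rw [h4]
    apply Complex.ext
    · simp only [Complex.conj_re, Complex.add_re, Complex.real_smul, Complex.mul_re,
        Complex.ofReal_re, Complex.ofReal_im, Complex.one_re, Complex.one_im,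
        Complex.exp_ofReal_mul_I_re, Complex.exp_ofReal_mul_I_im]
      ring
    · simp only [Complex.conj_im, Complex.add_im, Complex.real_smul, Complex.mul_im,
        Complex.ofReal_re, Complex.ofReal_im, Complex.one_re, Complex.one_im,
        Complex.exp_ofReal_mul_I_re, Complex.exp_ofReal_mul_I_im]
      ring
  rw [h3, LpComplex.IsTri.tz_tn hB hT hdim h, LpComplex.IsTri.tz_tn hB hT hdim h, ← hs]

theorem LpComplex.IsTri.tz_swap (hB : BusemannConvex X) (hT : C.Tame)
    (hdim : ∀ s ∈ C.K.faces, s.card ≤ 3) {v a b : V} (h : C.IsTri v a b) (z : ℂ) :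
    C.tz v b a z = C.tz v a b
      (Complex.exp (angleOf C.len v a b * Complex.I) * starRingEnd ℂ z) := by
  have hsymm : ∀ a b, C.len a b = C.len b a := fun a b => LpComplex.len_symm hB hT hdim a b
  obtain ⟨x, y, rfl⟩ := LpComplex.IsTri.basis hB hT hdim h.swap z
  rw [LpComplex.IsTri.tz_tn hB hT hdim h.swap, angleOf_comm hsymm v b a]
  set θ : ℝ := angleOf C.len v a b with hθ
  have h1 : Complex.exp (θ * Complex.I) * starRingEnd ℂ ((x * C.len v b) • (1 : ℂ) +
      (y * C.len v a) • Complex.exp (θ * Complex.I)) =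
      (y * C.len v a) • (1 : ℂ) + (x * C.len v b) • Complex.exp (θ * Complex.I) := by
    have h2 := Real.sin_sq_add_cos_sq θ
    apply Complex.ext
    · simp only [Complex.conj_re, Complex.conj_im, Complex.add_re, Complex.add_im,
        Complex.real_smul, Complex.mul_re, Complex.mul_im,
        Complex.ofReal_re, Complex.ofReal_im, Complex.one_re, Complex.one_im,
        Complex.exp_ofReal_mul_I_re, Complex.exp_ofReal_mul_I_im]
      linear_combination (y * C.len v a) * h2
    · simp only [Complex.conj_re, Complex.conj_im, Complex.add_re, Complex.add_im,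
        Complex.real_smul, Complex.mul_re, Complex.mul_im,
        Complex.ofReal_re, Complex.ofReal_im, Complex.one_re, Complex.one_im,
        Complex.exp_ofReal_mul_I_re, Complex.exp_ofReal_mul_I_im]
      ring
  rw [h1, LpComplex.IsTri.tz_tn hB hT hdim h, C.tn_swap]

/-- The angle of a triangle between two thick edges is a rational multiple of `π`, or the
triangle is Euclidean. -/
theorem LpComplex.IsTri.corner_dichotomy (hB : BusemannConvex X) (hT : C.Tame)
    (hdim : ∀ s ∈ C.K.faces, s.card ≤ 3) {v a b : V} (h : C.IsTri v a b)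
    (ha : C.IsThickEdge v a) (hb : C.IsThickEdge v b) :
    (∃ q : ℚ, angleOf C.len v a b = q * Real.pi) ∨ C.IsEuclideanTri C.len v a b := by
  set θ : ℝ := angleOf C.len v a b with hθ
  have h1 := LpComplex.IsTri.tz_conj hB hT hdim h ha
  have h2 : ∀ z, C.tz v a b (Complex.exp (θ * Complex.I) * z) =
      C.tz v a b (Complex.exp (θ * Complex.I) * starRingEnd ℂ z) := by
    intro z
    have h3 := LpComplex.IsTri.tz_conj hB hT hdim h.swap hb z
    rw [LpComplex.IsTri.tz_swap hB hT hdim h, LpComplex.IsTri.tz_swap hB hT hdim h z,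
      Complex.conj_conj, ← hθ] at h3
    exact h3
  have hconj : starRingEnd ℂ (Complex.exp (θ * Complex.I)) = Complex.exp (-(θ * Complex.I)) := by
    rw [← Complex.exp_conj]
    congr 1
    rw [map_mul, Complex.conj_ofReal, Complex.conj_I]
    ring
  have hrot : ∀ z, C.tz v a b (Complex.exp (((2 * θ : ℝ) : ℂ) * Complex.I) * z) =
      C.tz v a b z := by
    intro z
    have h3 := h2 (Complex.exp (-(θ * Complex.I)) * starRingEnd ℂ z)
    have e1 : Complex.exp (θ * Complex.I) * (Complex.exp (-(θ * Complex.I)) * starRingEnd ℂ z) =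
        starRingEnd ℂ z := by
      rw [← mul_assoc, ← Complex.exp_add, add_neg_cancel, Complex.exp_zero, one_mul]
    have e2 : Complex.exp (θ * Complex.I) *
        starRingEnd ℂ (Complex.exp (-(θ * Complex.I)) * starRingEnd ℂ z) =
        Complex.exp (((2 * θ : ℝ) : ℂ) * Complex.I) * z := by
      rw [map_mul, Complex.conj_conj, ← hconj, Complex.conj_conj, ← mul_assoc, ← Complex.exp_add]
      congr 2
      push_cast
      ring
    rw [e1, e2] at h3
    rw [← h3, h1]
  rcases rot_dichotomy (C.continuous_tz v a b) hrot with ⟨q, hq⟩ | hall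
  · left
    refine ⟨q / 2, ?_⟩
    push_cast
    linarith
  · right
    exact LpComplex.IsTri.euclid hB hT hdim h (LpComplex.tz_const hall)

/-- The lengths `C.len` are the Loewner lengths. -/
theorem LpComplex.isLoewner (hB : BusemannConvex X) (hT : C.Tame)
    (hdim : ∀ s ∈ C.K.faces, s.card ≤ 3) : C.IsLoewner C.len := by
  refine ⟨fun u w => ⟨C.len_nonneg u w, LpComplex.len_symm hB hT hdim u w⟩, fun v a b h => ?_⟩
  have hl := LpComplex.IsTri.low_len hB hT hdim h
  obtain ⟨m1, m2, m3⟩ := h.mem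
  have hn : ∀ x y, C.triNorm v a b x y = C.tn v a b x y := by
    intro x y
    rw [LpComplex.triNorm, ← C.vec_ev m1 m2, ← C.vec_ev m1 m3, ← C.tn_eq_norm]
  constructor
  · intro x y
    rw [hn, triForm]
    refine le_trans (le_of_eq ?_) (hl.1 x y).2
    ring
  · intro α β γ hf
    apply hl.2
    intro x y
    rw [← hn]
    exact hf x y

end Rational

end Pool.Agent.LpBusemann
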