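import Pool.Agent.LpBusemann.Wall

/-!
# Wall rigidity

Two simplices with a common wall in a Busemann convex complex have the same norm, up to a linear
map which fixes the wall and unfolds one simplex to the other side of the wall.
-/

open scoped ENNReal
open Set

namespace Pool.Agent.LpBusemann

universe u v

section Rigid

variable {p : ℝ≥0∞} [Fact (1 ≤ p)] {V : Type u} {X : Type v} [MetricSpace X]
  {C : LpComplex p V X}

theorem LpComplex.page_pt {T : Finset V} (hT : T ∈ C.K.faces) {q x : X} (hq : C.supp q ⊆ T)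
    (hx : C.supp x ⊆ T) {r : ℝ} (hr0 : 0 ≤ r) (hr : r ≤ 1 / 2) {f : V →₀ ℝ} (hf : ZS T f)
    (hfq : ∀ v, |f v| ≤ C.wt q v / 8) :
    ∃ z : X, C.wt z = C.wt q + f + r • (C.wt x - C.wt q) ∧ C.supp z ⊆ T ∧
      (∀ v, 3 / 8 * C.wt q v ≤ C.wt z v) := by
  classical
  have hlow : ∀ v, 3 / 8 * C.wt q v ≤ (C.wt q + f + r • (C.wt x - C.wt q)) v := by
    intro v
    simp only [Finsupp.add_apply, Finsupp.smul_apply, Finsupp.sub_apply, smul_eq_mul]
    have h1 := (abs_le.1 (hfq v)).1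
    have h2 := mul_nonneg hr0 (C.wt_nonneg x v)
    have h3 := mul_le_mul_of_nonneg_right hr (C.wt_nonneg q v)
    nlinarith
  have hzs : ZS T (f + r • (C.wt x - C.wt q)) := hf.add ((C.zs_sub hx hq).smul r)
  have hsup : (C.wt q + f + r • (C.wt x - C.wt q)).support ⊆ T := by
    rw [add_assoc]
    exact Finsupp.support_add.trans (Finset.union_subset hq hzs.1)
  obtain ⟨z, hz⟩ := C.exists_pt (C.wt q + f + r • (C.wt x - C.wt q)) hT hsup
    (fun v => by
      have h1 := hlow v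
      have h2 := C.wt_nonneg q v
      linarith) (by
      have h1 := C.wt_sum q hq
      have h2 := hzs.2
      have h3 : ∀ v, (C.wt q + f + r • (C.wt x - C.wt q)) v =
          C.wt q v + (f + r • (C.wt x - C.wt q)) v := by
        intro v
        rw [add_assoc, Finsupp.add_apply]
      simp only [h3, Finset.sum_add_distrib, h1, h2, add_zero])
  refine ⟨z, hz, ?_, ?_⟩
  · rw [C.supp_eq, hz]
    exact hsup
  · intro v
    rw [hz]
    exact hlow v

theorem LpComplex.Wall.page_dist {F : Finset V} (hF : C.Wall F) {A : ℝ} (hA0 : 0 < A)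
    (hA : C.Lip F A) {T : Finset V} (hT : T ∈ C.K.faces) {z z' : X} (hz : C.supp z ⊆ T)
    (hz' : C.supp z' ⊆ T) {m : ℝ} (hlow : ∀ v ∈ F, m ≤ C.wt z v)
    (hn : A * C.nrm T (C.wt z - C.wt z') < m) : dist z z' = C.nrm T (C.wt z - C.wt z') := by
  rw [← C.dist_pos_nrm]
  refine (hF.share hA0 hA ?_ hT hz hz').symm
  intro v hv
  have h1 := C.dist_le hT hz hz'
  rw [C.dist_pos_nrm] at h1
  have h2 := mul_le_mul_of_nonneg_left h1 hA0.le
  have h3 := hlow v hv
  linarith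

/-- Wall rigidity, for small vectors. -/
theorem LpComplex.Wall.rigid_small (hB : BusemannConvex X) (hTame : C.Tame) {F : Finset V}
    (hF : C.Wall F) {T1 T2 : Finset V} (hT1 : T1 ∈ C.K.faces) (hT2 : T2 ∈ C.K.faces)
    (hF1 : F ⊆ T1) (hF2 : F ⊆ T2) {c1 c2 : V} (hc1 : c1 ∈ T1) (hc1F : c1 ∉ F) (hc2 : c2 ∈ T2)
    (hc2F : c2 ∉ F) (hne : T1 ≠ T2) :
    ∃ (ξ1 ξ2 : V →₀ ℝ) (κ0 δ : ℝ), ZS T1 ξ1 ∧ 0 < ξ1 c1 ∧ ZS T2 ξ2 ∧ 0 < ξ2 c2 ∧ 0 < κ0 ∧
      0 < δ ∧ ∀ (κ : ℝ) (f : V →₀ ℝ), ZS F f → 0 < κ → κ ≤ κ0 → (∀ v, |f v| ≤ δ) →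
        C.nrm T1 f ≤ δ → C.nrm T1 (κ • ξ1 - f) = C.nrm T2 (κ • ξ2 + f) := by
  classical
  obtain ⟨A, hA0, hA⟩ := C.exists_lip hTame F
  have hT1F : T1 ≠ F := fun h => hc1F (h ▸ hc1)
  have hT2F : T2 ≠ F := fun h => hc2F (h ▸ hc2)
  have hc1T2 : c1 ∉ T2 := by
    intro h
    have e1 : T1 = insert c1 F := hF.max (Finset.subset_insert _ _)
      (fun h' => hc1F (h' ▸ Finset.mem_insert_self _ _)) hT1 (Finset.insert_subset hc1 hF1)
    have e2 : T2 = insert c1 F := hF.max (Finset.subset_insert _ _)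
      (fun h' => hc1F (h' ▸ Finset.mem_insert_self _ _)) hT2 (Finset.insert_subset h hF2)
    exact hne (e1.trans e2.symm)
  have hc2T1 : c2 ∉ T1 := by
    intro h
    have e1 : T1 = insert c2 F := hF.max (Finset.subset_insert _ _)
      (fun h' => hc2F (h' ▸ Finset.mem_insert_self _ _)) hT1 (Finset.insert_subset h hF1)
    have e2 : T2 = insert c2 F := hF.max (Finset.subset_insert _ _)
      (fun h' => hc2F (h' ▸ Finset.mem_insert_self _ _)) hT2 (Finset.insert_subset hc2 hF2)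
    exact hne (e1.trans e2.symm)
  have hFne := hF.nonempty
  have hcard : (0 : ℝ) < F.card := by exact_mod_cast hFne.card_pos
  -- points near the barycentre
  set K1 : ℝ := C.nrm T1 (Finsupp.single c1 1 - bary F) with hK1
  set K2 : ℝ := C.nrm T2 (Finsupp.single c2 1 - bary F) with hK2
  have hK1n : 0 ≤ K1 := C.nrm_nonneg _ _
  have hK2n : 0 ≤ K2 := C.nrm_nonneg _ _
  set ε : ℝ := min (1 / 2) (1 / (4 * F.card * A * (K1 + K2 + 1))) with hε
  have hε0 : 0 < ε := lt_min (by norm_num) (by positivity)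
  have hε2 : ε ≤ 1 / 2 := min_le_left _ _
  have hεK : A * (ε * (K1 + K2)) ≤ 1 / (4 * F.card) := by
    have h1 : ε ≤ 1 / (4 * F.card * A * (K1 + K2 + 1)) := min_le_right _ _
    have h2 : ε * (K1 + K2) ≤ 1 / (4 * F.card * A * (K1 + K2 + 1)) * (K1 + K2 + 1) :=
      mul_le_mul h1 (by linarith) (by linarith) (by positivity)
    have h3 : A * (1 / (4 * F.card * A * (K1 + K2 + 1)) * (K1 + K2 + 1)) = 1 / (4 * F.card) := by
      have : K1 + K2 + 1 ≠ 0 := by positivity
      field_simp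
    calc A * (ε * (K1 + K2)) ≤ A * (1 / (4 * F.card * A * (K1 + K2 + 1)) * (K1 + K2 + 1)) :=
          mul_le_mul_of_nonneg_left h2 hA0.le
      _ = _ := h3
  obtain ⟨z0, hz0⟩ := C.exists_pt (bary F) hF.1 bary_support (fun v => by
    by_cases hv : v ∈ F
    · rw [bary_apply_mem hv]; positivity
    · rw [bary_apply_notMem hv]) (bary_sum hFne)
  have hz0F : C.supp z0 ⊆ F := by rw [C.supp_eq, hz0]; exact bary_support
  have hpt : ∀ (T : Finset V) (c : V), T ∈ C.K.faces → F ⊆ T → c ∈ T → c ∉ F →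
      ∃ x : X, C.wt x = (1 - ε) • bary F + ε • Finsupp.single c 1 ∧ C.supp x = T ∧
        dist x z0 ≤ ε * C.nrm T (Finsupp.single c 1 - bary F) := by
    intro T c hTf hFT hcT hcF
    have hsup : ((1 - ε) • bary F + ε • Finsupp.single c (1 : ℝ)).support ⊆ T := by
      refine Finsupp.support_add.trans (Finset.union_subset ?_ ?_)
      · exact Finsupp.support_smul.trans (bary_support.trans hFT)
      · refine Finsupp.support_smul.trans (Finsupp.support_single_subset.trans ?_)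
        simpa using hcT
    have hsum : ∑ v ∈ T, ((1 - ε) • bary F + ε • Finsupp.single c (1 : ℝ)) v = 1 := by
      simp only [Finsupp.add_apply, Finsupp.smul_apply, smul_eq_mul, Finset.sum_add_distrib,
        ← Finset.mul_sum]
      have h1 : ∑ v ∈ T, bary F v = 1 := by
        rw [← bary_sum hFne]
        exact (Finset.sum_subset hFT fun v _ hv => bary_apply_notMem hv).symm
      have h2 : ∑ v ∈ T, (Finsupp.single c (1 : ℝ)) v = 1 := by
        simp only [Finsupp.single_apply]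
        rw [Finset.sum_ite_eq T c fun _ => (1 : ℝ)]
        simp [hcT]
      rw [h1, h2]
      ring
    obtain ⟨x, hx⟩ := C.exists_pt _ hTf hsup (fun v => by
      simp only [Finsupp.add_apply, Finsupp.smul_apply, smul_eq_mul]
      have h1 : 0 ≤ bary F v := by
        by_cases hv : v ∈ F
        · rw [bary_apply_mem hv]; positivity
        · rw [bary_apply_notMem hv]
      have h2 : 0 ≤ (Finsupp.single c (1 : ℝ)) v := by
        rw [Finsupp.single_apply]
        split_ifs <;> norm_num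
      have h3 : 0 ≤ (1 - ε) * bary F v := mul_nonneg (by linarith) h1
      have h4 : 0 ≤ ε * (Finsupp.single c (1 : ℝ)) v := mul_nonneg hε0.le h2
      linarith) hsum
    have hxT : C.supp x ⊆ T := by rw [C.supp_eq, hx]; exact hsup
    have hFx : F ⊆ C.supp x := by
      intro v hv
      have hvc : c ≠ v := fun h => hcF (h ▸ hv)
      rw [C.mem_supp, hx]
      simp only [Finsupp.add_apply, Finsupp.smul_apply, smul_eq_mul, bary_apply_mem hv,
        Finsupp.single_apply, if_neg hvc, mul_zero, add_zero]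
      exact mul_pos (by linarith) (by positivity)
    have hcx : c ∈ C.supp x := by
      rw [C.mem_supp, hx]
      simp only [Finsupp.add_apply, Finsupp.smul_apply, smul_eq_mul, bary_apply_notMem hcF,
        Finsupp.single_apply, if_true, mul_one, mul_zero, zero_add]
      exact hε0
    refine ⟨x, hx, ?_, ?_⟩
    · exact (hF.max hFx (fun h => hcF (h ▸ hcx)) hTf hxT).symm
    · have h1 := C.dist_le hTf hxT (hz0F.trans hFT)
      rw [C.dist_pos_nrm, hx, hz0] at h1
      have h2 : (1 - ε) • bary F + ε • Finsupp.single c (1 : ℝ) - bary F =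
          ε • (Finsupp.single c (1 : ℝ) - bary F) := by
        module
      rw [h2, C.nrm_smul, abs_of_pos hε0] at h1
      exact h1
  obtain ⟨x, hx, hxs, hxz⟩ := hpt T1 c1 hT1 hF1 hc1 hc1F
  obtain ⟨y, hy, hys, hyz⟩ := hpt T2 c2 hT2 hF2 hc2 hc2F
  have hxyd : dist x y ≤ ε * (K1 + K2) := by
    have := dist_triangle x z0 y
    rw [dist_comm z0 y] at this
    rw [← hK1] at hxz
    rw [← hK2] at hyz
    linarith
  have hxy : ∀ v ∈ F, A * dist x y < C.wt x v := by
    intro v hv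
    have hvc : c1 ≠ v := fun h => hc1F (h ▸ hv)
    have h1 : C.wt x v = (1 - ε) * (1 / F.card) := by
      rw [hx]
      simp only [Finsupp.add_apply, Finsupp.smul_apply, smul_eq_mul, bary_apply_mem hv,
        Finsupp.single_apply, if_neg hvc, mul_zero, add_zero]
    rw [h1]
    have h2 : A * dist x y ≤ 1 / (4 * F.card) :=
      (mul_le_mul_of_nonneg_left hxyd hA0.le).trans hεK
    have h3 : (1 : ℝ) / (4 * F.card) < (1 - ε) * (1 / F.card) := by
      have h4 : (1 : ℝ) / (4 * F.card) = 1 / 4 * (1 / F.card) := by field_simp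
      rw [h4]
      exact mul_lt_mul_of_pos_right (by linarith) (by positivity)
    linarith
  have hns : ¬ ∃ T ∈ C.K.faces, C.supp x ⊆ T ∧ C.supp y ⊆ T := by
    rintro ⟨T, hT, hxT, hyT⟩
    rw [hxs] at hxT
    rw [hys] at hyT
    have e1 := hF.max hF1 hT1F hT hxT
    have e2 := hF.max hF2 hT2F hT hyT
    exact hne (e1.symm.trans e2)
  obtain ⟨γ, hγ⟩ := hB.1 x y
  obtain ⟨q, hq, hqd⟩ := LpComplex.Wall.cross hTame hF hA0 hA hγ hxy hns
  rw [hxs, hys, C.dist_pos_nrm, C.dist_pos_nrm, C.nrm_sub_rev T2] at hqd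
  have hqT1 : C.supp q ⊆ T1 := by rw [hq]; exact hF1
  have hqT2 : C.supp q ⊆ T2 := by rw [hq]; exact hF2
  have hz1 : ZS T1 (C.wt x - C.wt q) := C.zs_sub hxs.le hqT1
  have hz2 : ZS T2 (C.wt y - C.wt q) := C.zs_sub hys.le hqT2
  have hp1 : 0 < (C.wt x - C.wt q) c1 := by
    rw [Finsupp.sub_apply, C.wt_eq_zero (x := q) (by rw [hq]; exact hc1F), sub_zero]
    exact C.mem_supp.1 (by rw [hxs]; exact hc1)
  have hp2 : 0 < (C.wt y - C.wt q) c2 := by
    rw [Finsupp.sub_apply, C.wt_eq_zero (x := q) (by rw [hq]; exact hc2F), sub_zero]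
    exact C.mem_supp.1 (by rw [hys]; exact hc2)
  set ζ1 : V →₀ ℝ := C.wt x - C.wt q with hζ1
  set ζ2 : V →₀ ℝ := C.wt y - C.wt q with hζ2
  set n1 : ℝ := C.nrm T1 ζ1 with hn1
  set n2 : ℝ := C.nrm T2 ζ2 with hn2
  have hn1p : 0 < n1 := C.nrm_pos hT1 hz1 (by
    intro h
    rw [h] at hp1
    simp at hp1)
  have hn2p : 0 < n2 := C.nrm_pos hT2 hz2 (by
    intro h
    rw [h] at hp2
    simp at hp2)
  obtain ⟨v0, hv0, hmin⟩ := F.exists_min_image (fun v => C.wt q v) hFne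
  set m0 : ℝ := C.wt q v0 with hm0
  have hm0p : 0 < m0 := C.mem_supp.1 (by rw [hq]; exact hv0)
  set R : ℝ := min (min (n1 / 2) (n2 / 2)) (m0 / (16 * A)) with hR
  have hRp : 0 < R := lt_min (lt_min (by linarith) (by linarith)) (by positivity)
  have hRn1 : R ≤ n1 / 2 := (min_le_left _ _).trans (min_le_left _ _)
  have hRn2 : R ≤ n2 / 2 := (min_le_left _ _).trans (min_le_right _ _)
  have hRA : A * R ≤ m0 / 16 := by
    have h1 : R ≤ m0 / (16 * A) := min_le_right _ _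
    calc A * R ≤ A * (m0 / (16 * A)) := mul_le_mul_of_nonneg_left h1 hA0.le
      _ = m0 / 16 := by field_simp
  set δ : ℝ := min (m0 / 8) (m0 / (16 * A)) with hδ
  have hδp : 0 < δ := lt_min (by linarith) (by positivity)
  have hδm : δ ≤ m0 / 8 := min_le_left _ _
  have hδA : A * δ ≤ m0 / 16 := by
    have h1 : δ ≤ m0 / (16 * A) := min_le_right _ _
    calc A * δ ≤ A * (m0 / (16 * A)) := mul_le_mul_of_nonneg_left h1 hA0.le
      _ = m0 / 16 := by field_simp
  -- the two pages; points at distance `r` from the wall point `q + f`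
  have hpage : ∀ (T : Finset V) (a : X), T ∈ C.K.faces → F ⊆ T → C.supp a ⊆ T →
      ∀ n : ℝ, 0 < n → R ≤ n / 2 → ∀ r : ℝ, 0 ≤ r → r ≤ R → ∀ f : V →₀ ℝ, ZS F f →
      (∀ v, |f v| ≤ δ) → ∃ z : X, C.wt z = C.wt q + f + (r / n) • (C.wt a - C.wt q) ∧
        C.supp z ⊆ T ∧ (∀ v, 3 / 8 * C.wt q v ≤ C.wt z v) := by
    intro T a hT hFT ha n hn hRn r hr0 hr f hf hfδ
    apply C.page_pt hT (by rw [hq]; exact hFT) ha (div_nonneg hr0 hn.le)
    · rw [div_le_iff₀ hn]
      linarith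
    · exact hf.mono hFT
    · intro v
      by_cases hv : v ∈ F
      · have h1 := hfδ v
        have h2 : m0 ≤ C.wt q v := hmin v hv
        linarith
      · rw [hf.notMem hv, abs_zero]
        have := C.wt_nonneg q v
        linarith
  have hlow38 : ∀ z : X, (∀ v, 3 / 8 * C.wt q v ≤ C.wt z v) → ∀ v ∈ F, 3 / 8 * m0 ≤ C.wt z v := by
    intro z hz v hv
    have h1 := hz v
    have h2 : m0 ≤ C.wt q v := hmin v hv
    linarith
  refine ⟨(1 / n1) • ζ1, (1 / n2) • ζ2, R / 2, δ, hz1.smul _, ?_, hz2.smul _, ?_, by linarith, hδp,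
    ?_⟩
  · rw [Finsupp.smul_apply, smul_eq_mul]
    positivity
  · rw [Finsupp.smul_apply, smul_eq_mul]
    positivity
  intro κ f hf hκ0 hκ hfδ hfn
  have hfn2 : C.nrm T2 f ≤ δ := by
    rw [← C.nrm_face hT2 hF2 hFne hf, C.nrm_face hT1 hF1 hFne hf]
    exact hfn
  have h0δ : ∀ v, |(0 : V →₀ ℝ) v| ≤ δ := by
    intro v
    simpa using hδp.le
  -- general distance formula inside one page
  have hin : ∀ (T : Finset V), T ∈ C.K.faces → F ⊆ T → C.nrm T f ≤ δ → ∀ (z z' : X),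
      C.supp z ⊆ T → C.supp z' ⊆ T → (∀ v, 3 / 8 * C.wt q v ≤ C.wt z v) →
      C.nrm T (C.wt z - C.wt z') ≤ 2 * R + δ → dist z z' = C.nrm T (C.wt z - C.wt z') := by
    intro T hT hFT hfT z z' hz hz' hzl hle
    refine hF.page_dist hA0 hA hT hz hz' (hlow38 z hzl) ?_
    have h1 := mul_le_mul_of_nonneg_left hle hA0.le
    rw [mul_add] at h1
    have h2 : A * (2 * R) ≤ m0 / 8 := by linarith
    linarith
  -- points of the two pages, with and without translation
  have P1 : ∀ r : ℝ, 0 ≤ r → r ≤ R → ∀ g : V →₀ ℝ, ZS F g → (∀ v, |g v| ≤ δ) →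
      ∃ z : X, C.wt z = C.wt q + g + (r / n1) • ζ1 ∧ C.supp z ⊆ T1 ∧
        (∀ v, 3 / 8 * C.wt q v ≤ C.wt z v) := fun r hr0 hr g hg hgδ =>
    hpage T1 x hT1 hF1 hxs.le n1 hn1p hRn1 r hr0 hr g hg hgδ
  have P2 : ∀ r : ℝ, 0 ≤ r → r ≤ R → ∀ g : V →₀ ℝ, ZS F g → (∀ v, |g v| ≤ δ) →
      ∃ z : X, C.wt z = C.wt q + g + (r / n2) • ζ2 ∧ C.supp z ⊆ T2 ∧
        (∀ v, 3 / 8 * C.wt q v ≤ C.wt z v) := fun r hr0 hr g hg hgδ =>
    hpage T2 y hT2 hF2 hys.le n2 hn2p hRn2 r hr0 hr g hg hgδ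
  -- radial distances
  have rad1 : ∀ (g : V →₀ ℝ) (r r' : ℝ) (z z' : X), 0 ≤ r → r ≤ R → 0 ≤ r' → r' ≤ R →
      C.wt z = C.wt q + g + (r / n1) • ζ1 → C.wt z' = C.wt q + g + (r' / n1) • ζ1 →
      C.supp z ⊆ T1 → C.supp z' ⊆ T1 → (∀ v, 3 / 8 * C.wt q v ≤ C.wt z v) →
      dist z z' = |r - r'| := by
    intro g r r' z z' hr0 hr hr0' hr' hz hz' hzs hzs' hzl
    have h1 : C.wt z - C.wt z' = ((r - r') / n1) • ζ1 := by
      rw [hz, hz', sub_div]
      module
    have h2 : C.nrm T1 (C.wt z - C.wt z') = |r - r'| := by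
      rw [h1, C.nrm_smul, abs_div, abs_of_pos hn1p, ← hn1]
      field_simp
    rw [hin T1 hT1 hF1 hfn z z' hzs hzs' hzl, h2]
    rw [h2]
    have : |r - r'| ≤ R := abs_le.2 ⟨by linarith, by linarith⟩
    linarith
  have rad2 : ∀ (g : V →₀ ℝ) (r r' : ℝ) (z z' : X), 0 ≤ r → r ≤ R → 0 ≤ r' → r' ≤ R →
      C.wt z = C.wt q + g + (r / n2) • ζ2 → C.wt z' = C.wt q + g + (r' / n2) • ζ2 →
      C.supp z ⊆ T2 → C.supp z' ⊆ T2 → (∀ v, 3 / 8 * C.wt q v ≤ C.wt z v) →
      dist z z' = |r - r'| := by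
    intro g r r' z z' hr0 hr hr0' hr' hz hz' hzs hzs' hzl
    have h1 : C.wt z - C.wt z' = ((r - r') / n2) • ζ2 := by
      rw [hz, hz', sub_div]
      module
    have h2 : C.nrm T2 (C.wt z - C.wt z') = |r - r'| := by
      rw [h1, C.nrm_smul, abs_div, abs_of_pos hn2p, ← hn2]
      field_simp
    rw [hin T2 hT2 hF2 hfn2 z z' hzs hzs' hzl, h2]
    rw [h2]
    have : |r - r'| ≤ R := abs_le.2 ⟨by linarith, by linarith⟩
    linarith
  -- the crossing distance
  have crossd : ∀ (g : V →₀ ℝ), ZS F g → (∀ v, |g v| ≤ δ) → ∀ (r r' : ℝ) (z z' : X), 0 < r →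
      r ≤ R → 0 < r' → r' ≤ R →
      C.wt z = C.wt q + g + (r / n1) • ζ1 → C.wt z' = C.wt q + g + (r' / n2) • ζ2 →
      C.supp z ⊆ T1 → C.supp z' ⊆ T2 → (∀ v, 3 / 8 * C.wt q v ≤ C.wt z v) →
      (∀ v, 3 / 8 * C.wt q v ≤ C.wt z' v) → dist z z' = r + r' := by
    intro g hg hgδ r r' z z' hr0 hr hr0' hr' hz hz' hzs hzs' hzl hzl'
    obtain ⟨w, hw, hws, hwl⟩ := P1 0 le_rfl hRp.le g hg hgδ
    have hw' : C.wt w = C.wt q + g := by rw [hw]; simp
    have hww2 : C.wt w = C.wt q + g + (0 / n2) • ζ2 := by rw [hw']; simp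
    have hwF : C.supp w ⊆ F := by
      rw [C.supp_eq, hw']
      exact Finsupp.support_add.trans (Finset.union_subset (by rw [← C.supp_eq, hq]) hg.1)
    have dzw : dist z w = r := by
      rw [rad1 g r 0 z w hr0.le hr le_rfl hRp.le hz hw hzs hws hzl, sub_zero, abs_of_pos hr0]
    have dwz' : dist z' w = r' := by
      rw [rad2 g r' 0 z' w hr0'.le hr' le_rfl hRp.le hz' hww2 hzs' (hwF.trans hF2) hzl',
        sub_zero, abs_of_pos hr0']
    have hup : dist z z' ≤ r + r' := by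
      have := dist_triangle z w z'
      rw [dist_comm w z', dzw, dwz'] at this
      exact this
    apply le_antisymm hup
    -- supports
    have hFz : F ⊆ C.supp z := by
      intro v hv
      rw [C.mem_supp]
      have := hlow38 z hzl v hv
      linarith
    have hFz' : F ⊆ C.supp z' := by
      intro v hv
      rw [C.mem_supp]
      have := hlow38 z' hzl' v hv
      linarith
    have hc1z : c1 ∈ C.supp z := by
      rw [C.mem_supp, hz]
      simp only [Finsupp.add_apply, Finsupp.smul_apply, smul_eq_mul, hg.notMem hc1F,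
        C.wt_eq_zero (x := q) (show c1 ∉ C.supp q by rw [hq]; exact hc1F), zero_add]
      positivity
    have hc2z : c2 ∈ C.supp z' := by
      rw [C.mem_supp, hz']
      simp only [Finsupp.add_apply, Finsupp.smul_apply, smul_eq_mul, hg.notMem hc2F,
        C.wt_eq_zero (x := q) (show c2 ∉ C.supp q by rw [hq]; exact hc2F), zero_add]
      positivity
    have hzT : C.supp z = T1 := (hF.max hFz (fun h => hc1F (h ▸ hc1z)) hT1 hzs).symm
    have hzT' : C.supp z' = T2 := (hF.max hFz' (fun h => hc2F (h ▸ hc2z)) hT2 hzs').symm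
    have hns' : ¬ ∃ T ∈ C.K.faces, C.supp z ⊆ T ∧ C.supp z' ⊆ T := by
      rintro ⟨T, hT, h1, h2⟩
      rw [hzT] at h1
      rw [hzT'] at h2
      exact hne ((hF.max hF1 hT1F hT h1).symm.trans (hF.max hF2 hT2F hT h2))
    have hAR : ∀ v ∈ F, A * dist z z' < C.wt z v := by
      intro v hv
      have h1 : A * dist z z' ≤ A * (2 * R) := mul_le_mul_of_nonneg_left (by linarith) hA0.le
      have h2 := hlow38 z hzl v hv
      linarith
    refine hF.cross_lower hA0 hA hAR hns' ?_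
    intro q' hq'
    rw [hzT, hzT', C.dist_pos_nrm, C.dist_pos_nrm]
    by_contra hlt
    push Not at hlt
    have hq'T1 : C.supp q' ⊆ T1 := by rw [hq']; exact hF1
    have hq'T2 : C.supp q' ⊆ T2 := by rw [hq']; exact hF2
    have hn0 : 0 ≤ C.nrm T2 (C.wt q' - C.wt z') := C.nrm_nonneg _ _
    -- coordinates of `q'`
    have hcoord : ∀ v ∈ F, 3 / 8 * m0 - m0 / 8 ≤ C.wt q' v := by
      intro v hv
      have h1 := hA v hv T1 hT1 (C.pt z) (C.pt q') hzs hq'T1
      rw [C.dist_place_nrm] at h1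
      have h2 : A * C.nrm T1 (C.wt z - C.wt q') ≤ A * (2 * R) :=
        mul_le_mul_of_nonneg_left (by linarith) hA0.le
      have h3 := (abs_le.1 h1).2
      have h4 := hlow38 z hzl v hv
      have h5 : C.wt z v - C.wt q' v ≤ A * C.nrm T1 (C.wt z - C.wt q') := h3
      linarith
    -- translate back
    obtain ⟨q'', hq''⟩ := C.exists_pt (C.wt q' - g) hF.1
      (Finsupp.support_sub.trans (Finset.union_subset (by rw [← C.supp_eq, hq']) hg.1))
      (fun v => by
        rw [Finsupp.sub_apply]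
        by_cases hv : v ∈ F
        · have h1 := hcoord v hv
          have h2 := (abs_le.1 (hgδ v)).2
          linarith
        · rw [hg.notMem hv, C.wt_eq_zero (x := q') (by rw [hq']; exact hv)]
          simp) (by
        simp only [Finsupp.sub_apply, Finset.sum_sub_distrib, hg.2,
          C.wt_sum q' (s := F) hq'.le, sub_zero])
    have hq''F : C.supp q'' ⊆ F := by
      rw [C.supp_eq, hq'']
      exact Finsupp.support_sub.trans (Finset.union_subset (by rw [← C.supp_eq, hq']) hg.1)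
    obtain ⟨a1, ha1, ha1s, -⟩ := P1 r hr0.le hr 0 (ZS.zero F) h0δ
    obtain ⟨a2, ha2, ha2s, -⟩ := P2 r' hr0'.le hr' 0 (ZS.zero F) h0δ
    rw [add_zero] at ha1 ha2
    have e1 : dist x a1 ≤ n1 - r := by
      have h1 := C.dist_le hT1 hxs.le ha1s
      rw [C.dist_pos_nrm] at h1
      have h2 : C.wt x - C.wt a1 = (1 - r / n1) • ζ1 := by
        rw [ha1, sub_smul, one_smul, hζ1]
        module
      have h3 : r / n1 ≤ 1 := by
        rw [div_le_one hn1p]
        linarith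
      rw [h2, C.nrm_smul, abs_of_nonneg (by linarith), ← hn1] at h1
      have h4 : (1 - r / n1) * n1 = n1 - r := by field_simp
      rwa [h4] at h1
    have e2 : dist a2 y ≤ n2 - r' := by
      have h1 := C.dist_le hT2 hys.le ha2s
      rw [C.dist_pos_nrm] at h1
      have h2 : C.wt y - C.wt a2 = (1 - r' / n2) • ζ2 := by
        rw [ha2, sub_smul, one_smul, hζ2]
        module
      have h3 : r' / n2 ≤ 1 := by
        rw [div_le_one hn2p]
        linarith
      rw [h2, C.nrm_smul, abs_of_nonneg (by linarith), ← hn2] at h1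
      have h4 : (1 - r' / n2) * n2 = n2 - r' := by field_simp
      rw [h4] at h1
      rwa [dist_comm]
    have e3 : dist a1 q'' ≤ C.nrm T1 (C.wt z - C.wt q') := by
      have h1 := C.dist_le hT1 ha1s (hq''F.trans hF1)
      rw [C.dist_pos_nrm] at h1
      have h2 : C.wt a1 - C.wt q'' = C.wt z - C.wt q' := by
        rw [ha1, hq'', hz]
        module
      rwa [h2] at h1
    have e4 : dist q'' a2 ≤ C.nrm T2 (C.wt q' - C.wt z') := by
      have h1 := C.dist_le hT2 (hq''F.trans hF2) ha2s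
      rw [C.dist_pos_nrm] at h1
      have h2 : C.wt q'' - C.wt a2 = C.wt q' - C.wt z' := by
        rw [ha2, hq'', hz']
        module
      rwa [h2] at h1
    have e5 := dist_triangle x a1 y
    have e6 := dist_triangle a1 q'' y
    have e7 := dist_triangle q'' a2 y
    rw [hqd] at e5
    linarith
  -- the points
  have hR2 : R / 2 ≤ R := by linarith
  obtain ⟨xs, hxs1, hxs2, hxs3⟩ := P1 (R / 2) (by linarith) hR2 0 (ZS.zero F) h0δ
  obtain ⟨m1, hm11, hm12, hm13⟩ := P1 κ hκ0.le (by linarith) 0 (ZS.zero F) h0δ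
  obtain ⟨qq, hqq1, hqq2, hqq3⟩ := P1 0 le_rfl hRp.le 0 (ZS.zero F) h0δ
  obtain ⟨ys, hys1, hys2, hys3⟩ := P2 (R / 2) (by linarith) hR2 0 (ZS.zero F) h0δ
  have hκR : 0 ≤ R / 2 - κ := by linarith
  obtain ⟨xt, hxt1, hxt2, hxt3⟩ := P1 (R / 2 - κ) hκR (by linarith) f hf hfδ
  obtain ⟨mt1, hmt11, hmt12, hmt13⟩ := P1 0 le_rfl hRp.le f hf hfδ
  obtain ⟨mt2, hmt21, hmt22, hmt23⟩ := P2 κ hκ0.le (by linarith) f hf hfδ
  obtain ⟨yt, hyt1, hyt2, hyt3⟩ := P2 (R / 2 + κ) (by linarith) (by linarith) f hf hfδ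
  have hqq1' : C.wt qq = C.wt q + 0 + (0 / n2) • ζ2 := by rw [hqq1]; simp
  have hqqF : C.supp qq ⊆ F := by
    rw [C.supp_eq, hqq1]
    simp only [add_zero, zero_div, zero_smul]
    rw [← C.supp_eq, hq]
  have hmt1' : C.wt mt1 = C.wt q + f + (0 / n2) • ζ2 := by rw [hmt11]; simp
  have hmt1F : C.supp mt1 ⊆ F := by
    rw [C.supp_eq, hmt11]
    simp only [zero_div, zero_smul, add_zero]
    exact Finsupp.support_add.trans (Finset.union_subset (by rw [← C.supp_eq, hq]) hf.1)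
  -- the distances along the first geodesic
  have d_xs_ys : dist xs ys = R := by
    rw [crossd 0 (ZS.zero F) h0δ (R / 2) (R / 2) xs ys (by linarith) hR2 (by linarith) hR2 hxs1
      hys1 hxs2 hys2 hxs3 hys3]
    ring
  have d_xs_m1 : dist xs m1 = R / 2 - κ := by
    rw [rad1 0 (R / 2) κ xs m1 (by linarith) hR2 hκ0.le (by linarith) hxs1 hm11 hxs2 hm12 hxs3,
      abs_of_nonneg hκR]
  have d_m1_ys : dist m1 ys = κ + R / 2 := by
    rw [crossd 0 (ZS.zero F) h0δ κ (R / 2) m1 ys hκ0 (by linarith) (by linarith) hR2 hm11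
      hys1 hm12 hys2 hm13 hys3]
  have d_xs_qq : dist xs qq = R / 2 := by
    rw [rad1 0 (R / 2) 0 xs qq (by linarith) hR2 le_rfl hRp.le hxs1 hqq1 hxs2 hqq2 hxs3, sub_zero,
      abs_of_pos (by linarith)]
  have d_qq_ys : dist qq ys = R / 2 := by
    rw [rad2 0 0 (R / 2) qq ys le_rfl hRp.le (by linarith) hR2 hqq1' hys1 (hqqF.trans hF2) hys2
      hqq3, zero_sub, abs_neg, abs_of_pos (by linarith)]
  -- the distances along the translated geodesic
  have d_mt1_mt2 : dist mt1 mt2 = κ := by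
    rw [rad2 f 0 κ mt1 mt2 le_rfl hRp.le hκ0.le (by linarith) hmt1' hmt21 (hmt1F.trans hF2) hmt22
      hmt13, zero_sub, abs_neg, abs_of_pos hκ0]
  have d_mt1_yt : dist mt1 yt = R / 2 + κ := by
    rw [rad2 f 0 (R / 2 + κ) mt1 yt le_rfl hRp.le (by linarith) (by linarith) hmt1' hyt1
      (hmt1F.trans hF2) hyt2 hmt13, zero_sub, abs_neg, abs_of_pos (by linarith)]
  have d_mt2_yt : dist mt2 yt = R / 2 := by
    rw [rad2 f κ (R / 2 + κ) mt2 yt hκ0.le (by linarith) (by linarith) (by linarith) hmt21 hyt1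
      hmt22 hyt2 hmt23, abs_sub_comm, abs_of_nonneg (by linarith)]
    ring
  have d_xt_mt1 : dist xt mt1 = R / 2 - κ := by
    rw [rad1 f (R / 2 - κ) 0 xt mt1 hκR (by linarith) le_rfl hRp.le hxt1 hmt11 hxt2 hmt12 hxt3,
      sub_zero, abs_of_nonneg hκR]
  have d_xt_mt2_yt : dist xt mt2 = R / 2 ∧ dist xt yt = R := by
    rcases hκR.eq_or_lt with h | h
    · -- `xt = mt1`
      have hxm : xt = mt1 := by
        have := d_xt_mt1
        rw [← h, dist_eq_zero] at this
        exact this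
      rw [hxm, d_mt1_mt2, d_mt1_yt]
      constructor <;> linarith
    · constructor
      · rw [crossd f hf hfδ (R / 2 - κ) κ xt mt2 h (by linarith) hκ0 (by linarith) hxt1 hmt21
          hxt2 hmt22 hxt3 hmt23]
        ring
      · rw [crossd f hf hfδ (R / 2 - κ) (R / 2 + κ) xt yt h (by linarith) (by linarith)
          (by linarith) hxt1 hyt1 hxt2 hyt2 hxt3 hyt3]
        ring
  obtain ⟨d_xt_mt2, d_xt_yt⟩ := d_xt_mt2_yt
  -- the two constants
  have hκb1 : C.nrm T1 ((κ / n1) • ζ1) = κ := by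
    rw [C.nrm_smul, abs_of_pos (by positivity), ← hn1]
    field_simp
  have hκb2 : C.nrm T2 ((κ / n2) • ζ2) = κ := by
    rw [C.nrm_smul, abs_of_pos (by positivity), ← hn2]
    field_simp
  have hale : C.nrm T1 ((κ / n1) • ζ1 - f) ≤ 2 * R + δ := by
    have h1 := C.nrm_add_le T1 ((κ / n1) • ζ1) (-f)
    rw [C.nrm_neg, hκb1, ← sub_eq_add_neg] at h1
    linarith
  have hble : C.nrm T2 ((κ / n2) • ζ2 + f) ≤ 2 * R + δ := by
    have h1 := C.nrm_add_le T2 ((κ / n2) • ζ2) f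
    rw [hκb2] at h1
    linarith
  have a_m : dist m1 mt1 = C.nrm T1 ((κ / n1) • ζ1 - f) := by
    have h1 : C.wt m1 - C.wt mt1 = (κ / n1) • ζ1 - f := by
      rw [hm11, hmt11]
      simp only [zero_div, zero_smul]
      module
    rw [hin T1 hT1 hF1 hfn m1 mt1 hm12 hmt12 hm13 (by rw [h1]; exact hale), h1]
  have a_x : dist xs xt = C.nrm T1 ((κ / n1) • ζ1 - f) := by
    have h1 : C.wt xs - C.wt xt = (κ / n1) • ζ1 - f := by
      rw [hxs1, hxt1, sub_div]
      module
    rw [hin T1 hT1 hF1 hfn xs xt hxs2 hxt2 hxs3 (by rw [h1]; exact hale), h1]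
  have b_q : dist qq mt2 = C.nrm T2 ((κ / n2) • ζ2 + f) := by
    have h1 : C.wt qq - C.wt mt2 = -((κ / n2) • ζ2 + f) := by
      rw [hqq1', hmt21]
      simp only [zero_div, zero_smul]
      module
    have h2 : C.nrm T2 (C.wt qq - C.wt mt2) = C.nrm T2 ((κ / n2) • ζ2 + f) := by
      rw [h1, C.nrm_neg]
    rw [hin T2 hT2 hF2 hfn2 qq mt2 (hqqF.trans hF2) hmt22 hqq3 (by rw [h2]; exact hble), h2]
  have b_y : dist ys yt = C.nrm T2 ((κ / n2) • ζ2 + f) := by
    have h1 : C.wt ys - C.wt yt = -((κ / n2) • ζ2 + f) := by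
      rw [hys1, hyt1, add_div]
      module
    have h2 : C.nrm T2 (C.wt ys - C.wt yt) = C.nrm T2 ((κ / n2) • ζ2 + f) := by
      rw [h1, C.nrm_neg]
    rw [hin T2 hT2 hF2 hfn2 ys yt hys2 hyt2 hys3 (by rw [h2]; exact hble), h2]
  -- Busemann convexity
  set a : ℝ := C.nrm T1 ((κ / n1) • ζ1 - f) with ha
  set b : ℝ := C.nrm T2 ((κ / n2) • ζ2 + f) with hb
  have hba : b ≤ a := by
    have h := hB.points (t := 1 / 2) ⟨by norm_num, by norm_num⟩
      (x := xs) (y := ys) (m := qq) (x' := xt) (y' := yt) (m' := mt2)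
      (by rw [d_xs_qq, d_xs_ys]; ring) (by rw [d_qq_ys, d_xs_ys]; ring)
      (by rw [d_xt_mt2, d_xt_yt]; ring) (by rw [d_mt2_yt, d_xt_yt]; ring)
    rw [b_q, a_x, b_y] at h
    linarith
  have hab : a ≤ b := by
    rcases hκR.eq_or_lt with h0 | h0
    · -- then `κ = R / 2`; use `xs = m1`
      have h1 : C.wt xs = C.wt m1 := by
        rw [hxs1, hm11, show R / 2 = κ by linarith]
      have h2 : xs = m1 := C.wt_injective h1
      -- a point further out on the first page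
      obtain ⟨x2, hx21, hx22, hx23⟩ := P1 R hRp.le le_rfl 0 (ZS.zero F) h0δ
      obtain ⟨xt2, hxt21, hxt22, hxt23⟩ := P1 (R / 2) (by linarith) hR2 f hf hfδ
      have d1 : dist x2 m1 = R / 2 := by
        rw [rad1 0 R κ x2 m1 hRp.le le_rfl hκ0.le (by linarith) hx21 hm11 hx22 hm12 hx23,
          abs_of_nonneg (by linarith)]
        linarith
      have d2 : dist x2 ys = R + R / 2 := by
        rw [crossd 0 (ZS.zero F) h0δ R (R / 2) x2 ys hRp le_rfl (by linarith) hR2 hx21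
          hys1 hx22 hys2 hx23 hys3]
      have d3 : dist xt2 mt1 = R / 2 := by
        rw [rad1 f (R / 2) 0 xt2 mt1 (by linarith) hR2 le_rfl hRp.le hxt21 hmt11 hxt22 hmt12 hxt23,
          sub_zero, abs_of_pos (by linarith)]
      have d4 : dist xt2 yt = R + R / 2 := by
        rw [crossd f hf hfδ (R / 2) (R / 2 + κ) xt2 yt (by linarith) hR2 (by linarith)
          (by linarith) hxt21 hyt1 hxt22 hyt2 hxt23 hyt3]
        linarith
      have a_x2 : dist x2 xt2 = a := by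
        have h3 : C.wt x2 - C.wt xt2 = (κ / n1) • ζ1 - f := by
          rw [hx21, hxt21, show κ = R - R / 2 by linarith, sub_div]
          module
        rw [hin T1 hT1 hF1 hfn x2 xt2 hx22 hxt22 hx23 (by rw [h3]; exact hale), h3]
      have h := hB.points (t := 1 / 3) ⟨by norm_num, by norm_num⟩
        (x := x2) (y := ys) (m := m1) (x' := xt2) (y' := yt) (m' := mt1)
        (by rw [d1, d2]; ring) (by rw [d_m1_ys, d2]; linarith)
        (by rw [d3, d4]; ring) (by rw [d_mt1_yt, d4]; linarith)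
      rw [a_m, a_x2, b_y] at h
      linarith
    · have ht : (R / 2 - κ) / R ∈ Icc (0 : ℝ) 1 :=
        ⟨div_nonneg hκR hRp.le, (div_le_one hRp).2 (by linarith)⟩
      have e1 : (R / 2 - κ) / R * R = R / 2 - κ := by field_simp
      have h := hB.points (t := (R / 2 - κ) / R) ht
        (x := xs) (y := ys) (m := m1) (x' := xt) (y' := yt) (m' := mt1)
        (by rw [d_xs_m1, d_xs_ys, e1]) (by rw [d_m1_ys, d_xs_ys, sub_mul, e1]; ring)
        (by rw [d_xt_mt1, d_xt_yt, e1]) (by rw [d_mt1_yt, d_xt_yt, sub_mul, e1]; ring)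
      rw [a_m, a_x, b_y] at h
      have hpos : 0 < (R / 2 - κ) / R := div_pos h0 hRp
      nlinarith
  have hfin : a = b := le_antisymm hab hba
  have g1 : κ • (1 / n1) • ζ1 - f = (κ / n1) • ζ1 - f := by
    rw [smul_smul, mul_one_div]
  have g2 : κ • (1 / n2) • ζ2 + f = (κ / n2) • ζ2 + f := by
    rw [smul_smul, mul_one_div]
  rw [g1, g2]
  exact hfin

/-- Wall rigidity. -/
theorem LpComplex.Wall.rigid (hB : BusemannConvex X) (hTame : C.Tame) {F : Finset V}
    (hF : C.Wall F) {T1 T2 : Finset V} (hT1 : T1 ∈ C.K.faces) (hT2 : T2 ∈ C.K.faces)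
    (hF1 : F ⊆ T1) (hF2 : F ⊆ T2) {c1 c2 : V} (hc1 : c1 ∈ T1) (hc1F : c1 ∉ F) (hc2 : c2 ∈ T2)
    (hc2F : c2 ∉ F) (hne : T1 ≠ T2) :
    ∃ ξ1 ξ2 : V →₀ ℝ, ZS T1 ξ1 ∧ 0 < ξ1 c1 ∧ ZS T2 ξ2 ∧ 0 < ξ2 c2 ∧
      ∀ (κ : ℝ) (f : V →₀ ℝ), ZS F f → C.nrm T1 (κ • ξ1 - f) = C.nrm T2 (κ • ξ2 + f) := by
  obtain ⟨ξ1, ξ2, κ0, δ, hz1, hp1, hz2, hp2, hκ0, hδ, hmain⟩ :=
    LpComplex.Wall.rigid_small hB hTame hF hT1 hT2 hF1 hF2 hc1 hc1F hc2 hc2F hne
  have hFne := hF.nonempty
  have hpos : ∀ (κ : ℝ) (f : V →₀ ℝ), ZS F f → 0 < κ →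
      C.nrm T1 (κ • ξ1 - f) = C.nrm T2 (κ • ξ2 + f) := by
    intro κ f hf hκ
    set M : ℝ := 1 + ∑ v ∈ F, |f v| with hM
    have hM0 : 0 < M := by
      have : 0 ≤ ∑ v ∈ F, |f v| := Finset.sum_nonneg fun _ _ => abs_nonneg _
      linarith
    have hfM : ∀ v, |f v| ≤ M := by
      intro v
      by_cases hv : v ∈ F
      · have := Finset.single_le_sum (f := fun v => |f v|) (fun _ _ => abs_nonneg _) hv
        linarith
      · rw [hf.notMem hv, abs_zero]
        exact hM0.le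
    have hN0 : 0 ≤ C.nrm T1 f := C.nrm_nonneg _ _
    set r : ℝ := min (κ0 / κ) (min (δ / M) (δ / (C.nrm T1 f + 1))) with hr
    have hr0 : 0 < r := lt_min (div_pos hκ0 hκ) (lt_min (div_pos hδ hM0) (div_pos hδ (by linarith)))
    have h1 : r * κ ≤ κ0 := by
      have : r ≤ κ0 / κ := min_le_left _ _
      calc r * κ ≤ κ0 / κ * κ := mul_le_mul_of_nonneg_right this hκ.le
        _ = κ0 := by field_simp
    have h2 : ∀ v, |(r • f) v| ≤ δ := by
      intro v
      rw [Finsupp.smul_apply, smul_eq_mul, abs_mul, abs_of_pos hr0]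
      have : r ≤ δ / M := (min_le_right _ _).trans (min_le_left _ _)
      calc r * |f v| ≤ δ / M * M := mul_le_mul this (hfM v) (abs_nonneg _) (div_pos hδ hM0).le
        _ = δ := by field_simp
    have h3 : C.nrm T1 (r • f) ≤ δ := by
      rw [C.nrm_smul, abs_of_pos hr0]
      have : r ≤ δ / (C.nrm T1 f + 1) := (min_le_right _ _).trans (min_le_right _ _)
      calc r * C.nrm T1 f ≤ δ / (C.nrm T1 f + 1) * (C.nrm T1 f + 1) :=
            mul_le_mul this (by linarith) hN0 (div_pos hδ (by linarith)).le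
        _ = δ := by field_simp
    have h4 := hmain (r * κ) (r • f) (hf.smul r) (mul_pos hr0 hκ) h1 h2 h3
    have e1 : (r * κ) • ξ1 - r • f = r • (κ • ξ1 - f) := by module
    have e2 : (r * κ) • ξ2 + r • f = r • (κ • ξ2 + f) := by module
    rw [e1, e2, C.nrm_smul, C.nrm_smul] at h4
    exact mul_left_cancel₀ (abs_pos.2 hr0.ne').ne' h4
  refine ⟨ξ1, ξ2, hz1, hp1, hz2, hp2, fun κ f hf => ?_⟩
  rcases lt_trichotomy κ 0 with h | h | h
  · have h1 := hpos (-κ) (-f) hf.neg (by linarith)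
    have e1 : (-κ) • ξ1 - -f = -(κ • ξ1 - f) := by module
    have e2 : (-κ) • ξ2 + -f = -(κ • ξ2 + f) := by module
    rwa [e1, e2, C.nrm_neg, C.nrm_neg] at h1
  · rw [h, zero_smul, zero_smul, zero_sub, zero_add, C.nrm_neg,
      ← C.nrm_face hT1 hF1 hFne hf, ← C.nrm_face hT2 hF2 hFne hf]
  · exact hpos κ f hf h

end Rigid

end Pool.Agent.LpBusemann
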