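import Pool.Agent.LpBusemann.Mirror
import Pool.Agent.LpBusemann.EvenP
import Pool.Agent.LpBusemann.Link

/-!
# Rotations which preserve the norm of a triangle
-/

open scoped ENNReal Topology
open Set

namespace Pool.Agent.LpBusemann

universe u v

/-- A continuous function on the plane which is invariant under a rotation by `α` is invariant
under all rotations, or `α` is a rational multiple of `π`. -/
theorem rot_dichotomy {N : ℂ → ℝ} (hN : Continuous N) {α : ℝ}
    (h : ∀ z, N (Complex.exp (α * Complex.I) * z) = N z) :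
    (∃ q : ℚ, α = q * Real.pi) ∨ ∀ (t : ℝ) (z : ℂ), N (Complex.exp (t * Complex.I) * z) = N z := by
  let G : AddSubgroup ℝ :=
    { carrier := {t | ∀ z, N (Complex.exp (t * Complex.I) * z) = N z}
      add_mem' := by
        intro s t hs ht z
        have : Complex.exp (((s + t : ℝ) : ℂ) * Complex.I) * z =
            Complex.exp (s * Complex.I) * (Complex.exp (t * Complex.I) * z) := by
          rw [← mul_assoc, ← Complex.exp_add]
          push_cast
          ring_nf
        rw [this, hs, ht]
      zero_mem' := by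
        intro z
        simp
      neg_mem' := by
        intro t ht z
        have := ht (Complex.exp (((-t : ℝ) : ℂ) * Complex.I) * z)
        rw [← mul_assoc, ← Complex.exp_add] at this
        rw [← this]
        congr 1
        push_cast
        simp }
  have hmem : ∀ t : ℝ, t ∈ G ↔ ∀ z, N (Complex.exp (t * Complex.I) * z) = N z := fun t => Iff.rfl
  have hcl : IsClosed (G : Set ℝ) := by
    have : (G : Set ℝ) = ⋂ z : ℂ, {t : ℝ | N (Complex.exp (t * Complex.I) * z) = N z} := by
      ext t
      simp only [SetLike.mem_coe, Set.mem_iInter, Set.mem_ofPred_eq]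
      exact hmem t
    rw [this]
    apply isClosed_iInter
    intro z
    apply isClosed_eq
    · exact hN.comp (by fun_prop)
    · exact continuous_const
  have h2π : (2 * Real.pi : ℝ) ∈ G := by
    rw [hmem]
    intro z
    push_cast
    rw [Complex.exp_two_pi_mul_I, one_mul]
  have hα : α ∈ G := h
  rcases AddSubgroup.dense_or_cyclic G with hd | ⟨a, ha⟩
  · right
    intro t
    have : (G : Set ℝ) = Set.univ := by
      rw [← hcl.closure_eq]
      exact hd.closure_eq
    have ht : t ∈ (G : Set ℝ) := by rw [this]; trivial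
    exact ht
  · left
    rw [ha, AddSubgroup.mem_closure_singleton] at h2π hα
    obtain ⟨k, hk⟩ := h2π
    obtain ⟨j, hj⟩ := hα
    have hk0 : (k : ℝ) ≠ 0 := by
      intro h0
      rw [zsmul_eq_mul, h0, zero_mul] at hk
      have := Real.pi_pos
      linarith
    refine ⟨2 * (j : ℚ) / k, ?_⟩
    rw [zsmul_eq_mul] at hk hj
    push_cast
    rw [← hj]
    field_simp
    linear_combination (j : ℝ) * hk

theorem sg_rot (t Θ : ℝ) (z : ℂ) :
    sg t (Complex.exp (-(Θ : ℂ) * Complex.I) * z) = sg (t + Θ) z := by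
  have h1 : Complex.exp (-(Θ : ℂ) * Complex.I) = (Real.cos Θ : ℂ) - (Real.sin Θ : ℂ) * Complex.I := by
    rw [Complex.exp_mul_I, Complex.cos_neg, Complex.sin_neg, Complex.ofReal_cos,
      Complex.ofReal_sin]
    ring
  rw [h1, sg, sg, Real.cos_add, Real.sin_add]
  simp only [Complex.mul_re, Complex.mul_im, Complex.sub_re, Complex.sub_im, Complex.ofReal_re,
    Complex.ofReal_im, Complex.I_re, Complex.I_im]
  ring

section Rot

variable {p : ℝ≥0∞} [Fact (1 ≤ p)] {V : Type u} {X : Type v} [MetricSpace X] [DecidableEq V]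
  (C : LpComplex p V X)

/-- The norm of the triangle `v a b` in the Euclidean plane in which it is placed with `v` at the
origin and `a` on the positive real axis. -/
noncomputable def LpComplex.tz (v a b : V) (z : ℂ) : ℝ :=
  C.tn v a b (-sg (angleOf C.len v a b) z / (C.len v a * Real.sin (angleOf C.len v a b)))
    (sg 0 z / (C.len v b * Real.sin (angleOf C.len v a b)))

theorem LpComplex.tn_eq_norm (v a b : V) (x y : ℝ) :
    C.tn v a b x y = ‖x • C.vec {v, a, b} (ev v a) + y • C.vec {v, a, b} (ev v b)‖ := by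
  rw [LpComplex.tn, ← C.norm_vec, map_add, map_smul, map_smul]

theorem continuous_sg (t : ℝ) : Continuous (sg t) := by
  unfold sg
  fun_prop

theorem LpComplex.continuous_tz (v a b : V) : Continuous (C.tz v a b) := by
  unfold LpComplex.tz
  simp only [C.tn_eq_norm]
  have h1 := continuous_sg (angleOf C.len v a b)
  have h2 := continuous_sg 0
  fun_prop

theorem LpComplex.tz_smul (v a b : V) (r : ℝ) (z : ℂ) :
    C.tz v a b (r • z) = |r| * C.tz v a b z := by
  rw [LpComplex.tz, LpComplex.tz, sg_smul, sg_smul, ← C.tn_smul]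
  congr 1 <;> ring

variable {C}

theorem sg_exp (T φ : ℝ) : sg T (Complex.exp (φ * Complex.I)) = Real.sin (φ - T) := by
  rw [sg, Complex.exp_ofReal_mul_I_re, Complex.exp_ofReal_mul_I_im, Real.sin_sub]

theorem LpComplex.IsTri.tz_tn (hB : BusemannConvex X) (hT : C.Tame)
    (hdim : ∀ s ∈ C.K.faces, s.card ≤ 3) {v a b : V} (h : C.IsTri v a b) (x y : ℝ) :
    C.tz v a b ((x * C.len v a) • (1 : ℂ) +
      (y * C.len v b) • Complex.exp (angleOf C.len v a b * Complex.I)) = C.tn v a b x y := by
  obtain ⟨pa, pb, θ1, θ2, -, -⟩ := LpComplex.IsTri.facts hB hT hdim h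
  have hs : 0 < Real.sin (angleOf C.len v a b) := Real.sin_pos_of_pos_of_lt_pi θ1 θ2
  have h1 : ∀ T, sg T (1 : ℂ) = -Real.sin T := by
    intro T
    have := sg_exp T 0
    rwa [Complex.ofReal_zero, zero_mul, Complex.exp_zero, zero_sub, Real.sin_neg] at this
  rw [LpComplex.tz, sg_add, sg_add, sg_smul, sg_smul, sg_smul, sg_smul, h1, h1, sg_exp, sg_exp,
    sub_self, Real.sin_zero, sub_zero]
  congr 1
  · field_simp
    ring
  · field_simp
    ring

/-- Every point of the plane in the basis of the triangle. -/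
theorem LpComplex.IsTri.basis (hB : BusemannConvex X) (hT : C.Tame)
    (hdim : ∀ s ∈ C.K.faces, s.card ≤ 3) {v a b : V} (h : C.IsTri v a b) (z : ℂ) :
    ∃ x y : ℝ, z = (x * C.len v a) • (1 : ℂ) +
      (y * C.len v b) • Complex.exp (angleOf C.len v a b * Complex.I) := by
  obtain ⟨pa, pb, θ1, θ2, -, -⟩ := LpComplex.IsTri.facts hB hT hdim h
  have hs : 0 < Real.sin (angleOf C.len v a b) := Real.sin_pos_of_pos_of_lt_pi θ1 θ2
  set θ : ℝ := angleOf C.len v a b with hθ
  refine ⟨(z.re - z.im * Real.cos θ / Real.sin θ) / C.len v a,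
    z.im / (C.len v b * Real.sin θ), ?_⟩
  apply Complex.ext
  · simp only [Complex.add_re, Complex.real_smul, Complex.mul_re, Complex.ofReal_re,
      Complex.ofReal_im, Complex.one_re, Complex.one_im, Complex.exp_ofReal_mul_I_re,
      Complex.exp_ofReal_mul_I_im]
    field_simp
    ring
  · simp only [Complex.add_im, Complex.real_smul, Complex.mul_im, Complex.ofReal_re,
      Complex.ofReal_im, Complex.one_re, Complex.one_im, Complex.exp_ofReal_mul_I_re,
      Complex.exp_ofReal_mul_I_im]
    field_simp
    ring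

/-- The Euclidean norm in the basis of the triangle. -/
theorem LpComplex.IsTri.norm_sq (hB : BusemannConvex X) (hT : C.Tame)
    (hdim : ∀ s ∈ C.K.faces, s.card ≤ 3) {v a b : V} (h : C.IsTri v a b) (x y : ℝ) :
    ‖(x * C.len v a) • (1 : ℂ) +
      (y * C.len v b) • Complex.exp (angleOf C.len v a b * Complex.I)‖ ^ 2 =
    C.len v a ^ 2 * x ^ 2 + (C.len v a ^ 2 + C.len v b ^ 2 - C.len a b ^ 2) * x * y +
      C.len v b ^ 2 * y ^ 2 := by
  obtain ⟨pa, pb, θ1, θ2, hcos, -⟩ := LpComplex.IsTri.facts hB hT hdim h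
  set θ : ℝ := angleOf C.len v a b with hθ
  rw [← Complex.normSq_eq_norm_sq, Complex.normSq_apply]
  simp only [Complex.add_re, Complex.add_im, Complex.real_smul, Complex.mul_re, Complex.mul_im,
    Complex.ofReal_re, Complex.ofReal_im, Complex.one_re, Complex.one_im,
    Complex.exp_ofReal_mul_I_re, Complex.exp_ofReal_mul_I_im]
  have h1 := Real.sin_sq_add_cos_sq θ
  have h2 : C.len v a ^ 2 + C.len v b ^ 2 - C.len a b ^ 2 =
      2 * (C.len v a * C.len v b * Real.cos θ) := by rw [hcos]; ring
  rw [h2]
  linear_combination (y ^ 2 * C.len v b ^ 2) * h1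

end Rot

end Pool.Agent.LpBusemann
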