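import Pool.Agent.LpBusemann.Mirror
import Pool.Agent.LpBusemann.MirrorDefs

/-!
# Thick walls of full-dimensional simplices are mirrors
-/

open scoped ENNReal
open Set

namespace Pool.Agent.LpBusemann

universe u v

section Thick

variable {p : ℝ≥0∞} [Fact (1 ≤ p)] {V : Type u} {X : Type v} [MetricSpace X]
  {C : LpComplex p V X}

theorem LpComplex.IsWallOf.wall {F T : Finset V} (h : C.IsWallOf F T) : C.Wall F := by
  obtain ⟨h1, h2, h3, h4, h5⟩ := h
  refine ⟨C.K.down_closed _ h2 _ h3 h1, fun s hs hFs => ?_⟩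
  rw [← h4]
  exact h5 s hs hFs

theorem LpComplex.IsWallOf.ne {F T : Finset V} (h : C.IsWallOf F T) : T ≠ F := by
  obtain ⟨h1, h2, h3, h4, h5⟩ := h
  rintro rfl
  omega

theorem LpComplex.IsWallOf.exists_apex {F T : Finset V} (h : C.IsWallOf F T) :
    ∃ c ∈ T, c ∉ F := by
  by_contra hno
  push Not at hno
  exact h.ne (Finset.Subset.antisymm (fun v hv => hno v hv) h.2.2.1)

/-- Across a wall the two copies of it differ by a signed permutation of the coordinates, and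
more: the unfolding is a signed permutation. -/
theorem LpComplex.IsWallOf.signed (hB : BusemannConvex X) (hTame : C.Tame) (hp2 : p ≠ 2)
    (hpt : p ≠ ⊤) {F T1 T2 : Finset V} (h1 : C.IsWallOf F T1) (h2 : C.IsWallOf F T2)
    (hne : T1 ≠ T2) (hf1 : C.IsFull T1) (hf2 : C.IsFull T2) :
    ∃ (π : Fin (C.S.dim T1) ≃ Fin (C.S.dim T2)) (ε : Fin (C.S.dim T1) → ℝ),
      (∀ i, ε i = 1 ∨ ε i = -1) ∧
      (∀ v ∈ F, ∀ w ∈ F, ∀ i, C.S.vtx T2 v (π i) - C.S.vtx T2 w (π i) =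
        ε i * (C.S.vtx T1 v i - C.S.vtx T1 w i)) := by
  classical
  obtain ⟨c1, hc1, hc1F⟩ := h1.exists_apex
  obtain ⟨c2, hc2, hc2F⟩ := h2.exists_apex
  obtain ⟨g, μ, hμ, ha, hf⟩ := h1.wall.unfold hB hTame h1.2.1 h2.2.1 h1.2.2.1 h2.2.2.1 hc1 hc1F
    hc2 hc2F hne
  have hcard : T1.card = T2.card := by rw [h1.2.2.2.1, h2.2.2.2.1]
  obtain ⟨π, ε, hε, hπ⟩ := LpComplex.Full.signed hp2 hpt h1.2.1 hf1.symm hf2.symm hcard
    (fun a haz => ⟨(ha a haz).1, (ha a haz).2.1⟩)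
  refine ⟨π, ε, hε, fun v hv w hw i => ?_⟩
  have hz : ZS F (ev w v) := ev_zs hw hv
  have h3 := hπ (ev w v) (hz.mono h1.2.2.1) i
  rw [hf _ hz, C.vec_ev (h2.2.2.1 hw) (h2.2.2.1 hv), C.vec_ev (h1.2.2.1 hw) (h1.2.2.1 hv)] at h3
  simpa using h3

theorem LpComplex.IsThickWallOf.mirror (hB : BusemannConvex X) (hTame : C.Tame) (hp2 : p ≠ 2)
    (hpt : p ≠ ⊤) {F T : Finset V} (h : C.IsThickWallOf F T) (hfull : C.IsFull T) :
    C.InMirror F T := by
  classical
  obtain ⟨h1, T2, T3, h21, h31, h32, h2, h3⟩ := h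
  obtain ⟨c1, hc1, hc1F⟩ := h1.exists_apex
  obtain ⟨g, μ, hμ, ha, hf⟩ := h1.wall.turn hB hTame h1.2.1 h2.2.1 h3.2.1 h1.2.2.1 h2.2.2.1
    h3.2.2.1 h1.ne h2.ne h3.ne h21.symm h32.symm h31 hc1 hc1F
  obtain ⟨π, ε, hε, hπ⟩ := LpComplex.Full.signed hp2 hpt h1.2.1 hfull.symm hfull.symm rfl
    (fun a haz => ⟨(ha a haz).1, (ha a haz).2.1⟩)
  obtain ⟨f0, hf0⟩ := h1.1
  -- the turn is not the identity
  have hnid : ∃ i, π i ≠ i ∨ ε i = -1 := by
    by_contra hno
    push Not at hno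
    have hid : ∀ a, ZS T a → g a = a := by
      intro a haz
      have hz : ZS T (g a - a) := (ha a haz).1.sub haz
      have h0 : C.vec T (g a - a) = 0 := by
        ext i
        have h4 := hπ a haz i
        have h5 : ε i = 1 := by
          rcases hε i with h6 | h6
          · exact h6
          · exact absurd h6 (hno i).2
        rw [(hno i).1, h5, one_mul] at h4
        rw [map_sub]
        simp [h4]
      have := LpComplex.vec_inj h1.2.1 hz h0
      rwa [sub_eq_zero] at this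
    have hza : ZS T (ev f0 c1) := ev_zs (h1.2.2.1 hf0) hc1
    have h4 := (ha _ hza).2.2
    rw [hid _ hza] at h4
    have hne : f0 ≠ c1 := fun h' => hc1F (h' ▸ hf0)
    have hac : ev f0 c1 c1 = 1 := by simp [ev, hne]
    rw [hac] at h4
    linarith
  have hfix : ∀ v ∈ F, ∀ w ∈ F, ∀ i, C.S.vtx T v (π i) - C.S.vtx T w (π i) =
      ε i * (C.S.vtx T v i - C.S.vtx T w i) := by
    intro v hv w hw i
    have hz : ZS F (ev w v) := ev_zs hw hv
    have h4 := hπ (ev w v) (hz.mono h1.2.2.1) i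
    rw [hf _ hz, C.vec_ev (h1.2.2.1 hw) (h1.2.2.1 hv)] at h4
    simpa using h4
  obtain ⟨i, hi⟩ := hnid
  by_cases hπi : π i = i
  · have hεi : ε i = -1 := by
      rcases hi with h4 | h4
      · exact absurd hπi h4
      · exact h4
    refine ⟨C.S.vtx T f0 i, Or.inl ⟨i, fun v hv => ?_⟩⟩
    have h4 := hfix v hv f0 hf0 i
    rw [hπi, hεi] at h4
    linarith
  · rcases hε i with h5 | h5
    · refine ⟨C.S.vtx T f0 (π i) - C.S.vtx T f0 i, Or.inr (Or.inl ⟨π i, i, hπi, fun v hv => ?_⟩)⟩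
      have h4 := hfix v hv f0 hf0 i
      rw [h5] at h4
      linarith
    · refine ⟨C.S.vtx T f0 (π i) + C.S.vtx T f0 i, Or.inr (Or.inr ⟨π i, i, hπi, fun v hv => ?_⟩)⟩
      have h4 := hfix v hv f0 hf0 i
      rw [h5] at h4
      linarith

/-- Two points in a mirror: their difference. -/
theorem mirror_diff {A B : Fin 2 → ℝ} (h : ∃ c : ℝ, (∃ i, A i = c ∧ B i = c) ∨
    (∃ i j, i ≠ j ∧ A i - A j = c ∧ B i - B j = c) ∨
    (∃ i j, i ≠ j ∧ A i + A j = c ∧ B i + B j = c)) :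
    B 0 - A 0 = 0 ∨ B 1 - A 1 = 0 ∨ B 0 - A 0 = B 1 - A 1 ∨ B 0 - A 0 = -(B 1 - A 1) := by
  obtain ⟨c, h | h | h⟩ := h
  · obtain ⟨i, h1, h2⟩ := h
    fin_cases i
    · left
      simp only [Fin.zero_eta] at h1 h2
      linarith
    · right; left
      simp only [Fin.mk_one] at h1 h2
      linarith
  · obtain ⟨i, j, hij, h1, h2⟩ := h
    fin_cases i <;> fin_cases j
    · exact absurd rfl hij
    · right; right; left
      simp only [Fin.zero_eta, Fin.mk_one] at h1 h2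
      linarith
    · right; right; left
      simp only [Fin.zero_eta, Fin.mk_one] at h1 h2
      linarith
    · exact absurd rfl hij
  · obtain ⟨i, j, hij, h1, h2⟩ := h
    fin_cases i <;> fin_cases j
    · exact absurd rfl hij
    · right; right; right
      simp only [Fin.zero_eta, Fin.mk_one] at h1 h2
      linarith
    · right; right; right
      simp only [Fin.zero_eta, Fin.mk_one] at h1 h2
      linarith
    · exact absurd rfl hij

theorem right_iso_two {u0 u1 w0 w1 : ℝ} (hu : u0 = 0 ∨ u1 = 0 ∨ u0 = u1 ∨ u0 = -u1)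
    (hw : w0 = 0 ∨ w1 = 0 ∨ w0 = w1 ∨ w0 = -w1)
    (hd : w0 - u0 = 0 ∨ w1 - u1 = 0 ∨ w0 - u0 = w1 - u1 ∨ w0 - u0 = -(w1 - u1))
    (hc : u0 * w1 - u1 * w0 ≠ 0) :
    (u0 * w0 + u1 * w1 = 0 ∧ u0 ^ 2 + u1 ^ 2 = w0 ^ 2 + w1 ^ 2) ∨
    (-u0 * (w0 - u0) + -u1 * (w1 - u1) = 0 ∧
      u0 ^ 2 + u1 ^ 2 = (w0 - u0) ^ 2 + (w1 - u1) ^ 2) ∨
    (-w0 * (u0 - w0) + -w1 * (u1 - w1) = 0 ∧
      w0 ^ 2 + w1 ^ 2 = (u0 - w0) ^ 2 + (u1 - w1) ^ 2) := by
  rcases hu with hu | hu | hu | hu <;> rcases hw with hw | hw | hw | hw <;>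
    rcases hd with hd | hd | hd | hd <;> grind

/-- The plane version of `IsRightIsosceles`, up to the choice of the vertex. -/
theorem right_iso {n : ℕ} (hn : n = 2) (A B D : Fin n → ℝ)
    (hAB : ∃ c : ℝ, (∃ i, A i = c ∧ B i = c) ∨
      (∃ i j, i ≠ j ∧ A i - A j = c ∧ B i - B j = c) ∨
      (∃ i j, i ≠ j ∧ A i + A j = c ∧ B i + B j = c))
    (hAD : ∃ c : ℝ, (∃ i, A i = c ∧ D i = c) ∨
      (∃ i j, i ≠ j ∧ A i - A j = c ∧ D i - D j = c) ∨
      (∃ i j, i ≠ j ∧ A i + A j = c ∧ D i + D j = c))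
    (hBD : ∃ c : ℝ, (∃ i, B i = c ∧ D i = c) ∨
      (∃ i j, i ≠ j ∧ B i - B j = c ∧ D i - D j = c) ∨
      (∃ i j, i ≠ j ∧ B i + B j = c ∧ D i + D j = c))
    (hind : ∀ s t : ℝ, (∀ i, s * (B i - A i) + t * (D i - A i) = 0) → s = 0 ∧ t = 0) :
    (∑ i, (B i - A i) * (D i - A i) = 0 ∧ ∑ i, (B i - A i) ^ 2 = ∑ i, (D i - A i) ^ 2) ∨
    (∑ i, (A i - B i) * (D i - B i) = 0 ∧ ∑ i, (A i - B i) ^ 2 = ∑ i, (D i - B i) ^ 2) ∨
    (∑ i, (A i - D i) * (B i - D i) = 0 ∧ ∑ i, (A i - D i) ^ 2 = ∑ i, (B i - D i) ^ 2) := by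
  subst hn
  have h1 := mirror_diff hAB
  have h2 := mirror_diff hAD
  have h3 := mirror_diff hBD
  have hc : (B 0 - A 0) * (D 1 - A 1) - (B 1 - A 1) * (D 0 - A 0) ≠ 0 := by
    intro h0
    have e1 := hind (D 0 - A 0) (-(B 0 - A 0)) (fun i => by
      fin_cases i
      · simp only [Fin.zero_eta]; ring
      · simp only [Fin.mk_one]; linarith)
    have e2 := hind (D 1 - A 1) (-(B 1 - A 1)) (fun i => by
      fin_cases i
      · simp only [Fin.zero_eta]; linarith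
      · simp only [Fin.mk_one]; ring)
    have e3 := hind 1 0 (fun i => by
      fin_cases i
      · simp only [Fin.zero_eta]; linarith [e1.2]
      · simp only [Fin.mk_one]; linarith [e2.2])
    exact one_ne_zero e3.1
  have h3' : (D 0 - A 0) - (B 0 - A 0) = 0 ∨ (D 1 - A 1) - (B 1 - A 1) = 0 ∨
      (D 0 - A 0) - (B 0 - A 0) = (D 1 - A 1) - (B 1 - A 1) ∨
      (D 0 - A 0) - (B 0 - A 0) = -((D 1 - A 1) - (B 1 - A 1)) := by
    rcases h3 with h | h | h | h
    · left; linarith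
    · right; left; linarith
    · right; right; left; linarith
    · right; right; right; linarith
  simp only [Fin.sum_univ_two]
  rcases right_iso_two h1 h2 h3' hc with ⟨e1, e2⟩ | ⟨e1, e2⟩ | ⟨e1, e2⟩
  · exact Or.inl ⟨e1, e2⟩
  · right; left
    constructor
    · linarith
    · nlinarith [e2]
  · right; right
    constructor
    · linarith
    · nlinarith [e2]

theorem LpComplex.rightIsosceles (hB : BusemannConvex X) (hTame : C.Tame) (hp2 : p ≠ 2)
    (hpt : p ≠ ⊤) [DecidableEq V] {T : Finset V} (hT : T ∈ C.K.faces) (hcard : T.card = 3)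
    (hfull : C.IsFull T)
    (hthick : ∀ F : Finset V, F ⊆ T → F.card = 2 → C.IsThickWallOf F T) :
    C.IsRightIsosceles T := by
  obtain ⟨a, b, d, hab, had, hbd, rfl⟩ := Finset.card_eq_three.1 hcard
  have hdim : C.S.dim {a, b, d} = 2 := by
    have := hfull
    unfold LpComplex.IsFull at this
    omega
  have hmir : ∀ x y : V, x ≠ y → x ∈ ({a, b, d} : Finset V) → y ∈ ({a, b, d} : Finset V) →
      ∃ c : ℝ, (∃ i, C.S.vtx {a, b, d} x i = c ∧ C.S.vtx {a, b, d} y i = c) ∨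
      (∃ i j, i ≠ j ∧ C.S.vtx {a, b, d} x i - C.S.vtx {a, b, d} x j = c ∧
        C.S.vtx {a, b, d} y i - C.S.vtx {a, b, d} y j = c) ∨
      (∃ i j, i ≠ j ∧ C.S.vtx {a, b, d} x i + C.S.vtx {a, b, d} x j = c ∧
        C.S.vtx {a, b, d} y i + C.S.vtx {a, b, d} y j = c) := by
    intro x y hxy hx hy
    have hsub : ({x, y} : Finset V) ⊆ {a, b, d} := by
      intro z hz
      rw [Finset.mem_insert, Finset.mem_singleton] at hz
      rcases hz with rfl | rfl
      · exact hx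
      · exact hy
    have hxm : x ∈ ({x, y} : Finset V) := by simp
    have hym : y ∈ ({x, y} : Finset V) := by simp
    obtain ⟨c, h | h | h⟩ := (hthick {x, y} hsub (Finset.card_pair hxy)).mirror hB hTame hp2 hpt
      hfull
    · obtain ⟨i, h⟩ := h
      exact ⟨c, Or.inl ⟨i, h x hxm, h y hym⟩⟩
    · obtain ⟨i, j, hij, h⟩ := h
      exact ⟨c, Or.inr (Or.inl ⟨i, j, hij, h x hxm, h y hym⟩)⟩
    · obtain ⟨i, j, hij, h⟩ := h
      exact ⟨c, Or.inr (Or.inr ⟨i, j, hij, h x hxm, h y hym⟩)⟩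
  have ha : a ∈ ({a, b, d} : Finset V) := by simp
  have hb : b ∈ ({a, b, d} : Finset V) := by simp
  have hd : d ∈ ({a, b, d} : Finset V) := by simp
  have hind : ∀ s t : ℝ, (∀ i, s * (C.S.vtx {a, b, d} b i - C.S.vtx {a, b, d} a i) +
      t * (C.S.vtx {a, b, d} d i - C.S.vtx {a, b, d} a i) = 0) → s = 0 ∧ t = 0 := by
    intro s t h
    have hz : ZS {a, b, d} (s • ev a b + t • ev a d) :=
      ((ev_zs ha hb).smul s).add ((ev_zs ha hd).smul t)
    have h0 : C.vec {a, b, d} (s • ev a b + t • ev a d) = 0 := by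
      rw [map_add, map_smul, map_smul, C.vec_ev ha hb, C.vec_ev ha hd]
      ext i
      simpa using h i
    have h1 := LpComplex.vec_inj hT hz h0
    have hb1 := DFunLike.congr_fun h1 b
    have hd1 := DFunLike.congr_fun h1 d
    simp only [Finsupp.add_apply, Finsupp.smul_apply, smul_eq_mul, ev_apply,
      Finsupp.zero_apply] at hb1 hd1
    simp only [hab, hab.symm, had, had.symm, hbd, hbd.symm, if_true, if_false, sub_zero,
      mul_one, mul_zero, add_zero, zero_add] at hb1 hd1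
    exact ⟨hb1, hd1⟩
  rcases right_iso hdim (C.S.vtx {a, b, d} a) (C.S.vtx {a, b, d} b) (C.S.vtx {a, b, d} d)
    (hmir a b hab ha hb) (hmir a d had ha hd) (hmir b d hbd hb hd) hind with
    ⟨e1, e2⟩ | ⟨e1, e2⟩ | ⟨e1, e2⟩
  · exact ⟨a, b, d, hab, had, hbd, rfl, e1, e2⟩
  · refine ⟨b, a, d, hab.symm, hbd, had, ?_, e1, e2⟩
    ext z
    simp only [Finset.mem_insert, Finset.mem_singleton]
    tauto
  · refine ⟨d, a, b, had.symm, hbd.symm, hab, ?_, e1, e2⟩
    ext z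
    simp only [Finset.mem_insert, Finset.mem_singleton]
    tauto

end Thick

end Pool.Agent.LpBusemann
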