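import Pool.Agent.LpBusemann.Rigid
import Pool.Agent.LpBusemann.Loewner

/-!
# Triangles: coordinates at a vertex, chains of triangles around a vertex
-/

open scoped ENNReal
open Set

namespace Pool.Agent.LpBusemann

universe u v

/-- The vector from the vertex `v` to the vertex `a`. -/
noncomputable def ev {V : Type u} (v a : V) : V →₀ ℝ := Finsupp.single a 1 - Finsupp.single v 1

theorem ev_self {V : Type u} (v : V) : ev v v = 0 := by simp [ev]

theorem ev_swap {V : Type u} (v a : V) : ev a v = -ev v a := by simp [ev]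

theorem ev_sub {V : Type u} (v a b : V) : ev a b = ev v b - ev v a := by
  simp only [ev]
  abel

theorem ev_apply {V : Type u} [DecidableEq V] (v a w : V) :
    ev v a w = (if a = w then 1 else 0) - (if v = w then 1 else 0) := by
  simp only [ev, Finsupp.sub_apply, Finsupp.single_apply]

theorem ev_zs {V : Type u} {v a : V} {s : Finset V} (hv : v ∈ s) (ha : a ∈ s) :
    ZS s (ev v a) := by
  classical
  refine ⟨?_, ?_⟩
  · refine Finsupp.support_sub.trans (Finset.union_subset ?_ ?_)
    · refine Finsupp.support_single_subset.trans ?_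
      simpa using ha
    · refine Finsupp.support_single_subset.trans ?_
      simpa using hv
  · simp only [ev_apply, Finset.sum_sub_distrib]
    rw [Finset.sum_ite_eq s a fun _ => (1 : ℝ), Finset.sum_ite_eq s v fun _ => (1 : ℝ)]
    simp [hv, ha]

section Tn

variable {p : ℝ≥0∞} [Fact (1 ≤ p)] {V : Type u} {X : Type v} [MetricSpace X] [DecidableEq V]
  (C : LpComplex p V X)

/-- The norm of the triangle `v a b` in the coordinates at its vertex `v`. -/
noncomputable def LpComplex.tn (v a b : V) (x y : ℝ) : ℝ :=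
  C.nrm {v, a, b} (x • ev v a + y • ev v b)

theorem LpComplex.tn_nonneg (v a b : V) (x y : ℝ) : 0 ≤ C.tn v a b x y := C.nrm_nonneg _ _

theorem LpComplex.tn_smul (v a b : V) (r x y : ℝ) :
    C.tn v a b (r * x) (r * y) = |r| * C.tn v a b x y := by
  rw [LpComplex.tn, LpComplex.tn, ← C.nrm_smul]
  congr 1
  module

theorem LpComplex.tn_neg (v a b : V) (x y : ℝ) : C.tn v a b (-x) (-y) = C.tn v a b x y := by
  have := C.tn_smul v a b (-1) x y
  rw [neg_one_mul, neg_one_mul, abs_neg, abs_one, one_mul] at this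
  exact this

theorem LpComplex.tn_add_le (v a b : V) (x y x' y' : ℝ) :
    C.tn v a b (x + x') (y + y') ≤ C.tn v a b x y + C.tn v a b x' y' := by
  rw [LpComplex.tn, LpComplex.tn, LpComplex.tn]
  refine le_trans (le_of_eq ?_) (C.nrm_add_le _ _ _)
  congr 1
  module

theorem LpComplex.tn_swap (v a b : V) (x y : ℝ) : C.tn v a b x y = C.tn v b a y x := by
  rw [LpComplex.tn, LpComplex.tn, show ({v, b, a} : Finset V) = {v, a, b} by
    rw [Finset.pair_comm b a], add_comm]

/-- A chain of triangles `v, a i, a (i + 1)`, `i < m`, around the vertex `v`, with Euclidean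
lengths `l i` of the edges `v, a i` and angles `θ i`. Consecutive triangles are different, and
their norms are related by the linear map which is an isometry for the Euclidean metrics. -/
structure LpComplex.Chain (v : V) (m : ℕ) (a : ℕ → V) (l θ : ℕ → ℝ) : Prop where
  face : ∀ i < m, ({v, a i, a (i + 1)} : Finset V) ∈ C.K.faces
  ne_v : ∀ i ≤ m, a i ≠ v
  ne_succ : ∀ i < m, a i ≠ a (i + 1)
  turn : ∀ i, i + 1 < m → a i ≠ a (i + 2)
  l_pos : ∀ i ≤ m, 0 < l i
  θ_pos : ∀ i < m, 0 < θ i
  θ_lt : ∀ i < m, θ i < Real.pi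
  adj : ∀ i, i + 1 < m → ∃ μ lam : ℝ, 0 < lam ∧
    (∀ x y, C.tn v (a i) (a (i + 1)) x y =
      C.tn v (a (i + 1)) (a (i + 2)) (y - μ * x) (-(lam * x))) ∧
    lam * l (i + 2) * Real.sin (θ (i + 1)) = l i * Real.sin (θ i) ∧
    l i * Real.cos (θ i) = -(μ * l (i + 1)) - lam * l (i + 2) * Real.cos (θ (i + 1))

end Tn

end Pool.Agent.LpBusemann
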