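import Pool.Agent.LpBusemann.Rigid
import Pool.Agent.LpBusemann.Tri

/-!
# Unfolding across walls, reflections in thick walls
-/

open scoped ENNReal
open Set

namespace Pool.Agent.LpBusemann

universe u v

section Unfold

variable {p : ℝ≥0∞} [Fact (1 ≤ p)] {V : Type u} {X : Type v} [MetricSpace X]
  {C : LpComplex p V X}

theorem LpComplex.Wall.eq_insert [DecidableEq V] {F T : Finset V} (hF : C.Wall F)
    (hT : T ∈ C.K.faces) (hFT : F ⊆ T) {c : V} (hc : c ∈ T) (hcF : c ∉ F) : T = insert c F :=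
  hF.max (Finset.subset_insert _ _) (fun h => hcF (h ▸ Finset.mem_insert_self _ _)) hT
    (Finset.insert_subset hc hFT)

/-- Unfolding: the linear isometry between the shapes of two simplices with a common wall. -/
theorem LpComplex.Wall.unfold (hB : BusemannConvex X) (hTame : C.Tame) {F : Finset V}
    (hF : C.Wall F) {T1 T2 : Finset V} (hT1 : T1 ∈ C.K.faces) (hT2 : T2 ∈ C.K.faces)
    (hF1 : F ⊆ T1) (hF2 : F ⊆ T2) {c1 c2 : V} (hc1 : c1 ∈ T1) (hc1F : c1 ∉ F) (hc2 : c2 ∈ T2)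
    (hc2F : c2 ∉ F) (hne : T1 ≠ T2) :
    ∃ (g : (V →₀ ℝ) →ₗ[ℝ] (V →₀ ℝ)) (μ : ℝ), 0 < μ ∧
      (∀ a, ZS T1 a → ZS T2 (g a) ∧ C.nrm T2 (g a) = C.nrm T1 a ∧ g a c2 = -(μ * a c1)) ∧
      ∀ f, ZS F f → g f = f := by
  classical
  obtain ⟨ξ1, ξ2, hz1, hp1, hz2, hp2, hmain⟩ :=
    LpComplex.Wall.rigid hB hTame hF hT1 hT2 hF1 hF2 hc1 hc1F hc2 hc2F hne
  have e1 := hF.eq_insert hT1 hF1 hc1 hc1F
  have e2 := hF.eq_insert hT2 hF2 hc2 hc2F
  have hc12 : c1 ≠ c2 := by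
    rintro rfl
    exact hne (e1.trans e2.symm)
  have hc2T1 : c2 ∉ T1 := by
    rw [e1, Finset.mem_insert, not_or]
    exact ⟨hc12.symm, hc2F⟩
  refine ⟨LinearMap.id - (Finsupp.lapply c1).smulRight ((ξ1 c1)⁻¹ • (ξ1 + ξ2)),
    ξ2 c2 / ξ1 c1, div_pos hp2 hp1, ?_, ?_⟩
  · intro a ha
    set κ : ℝ := a c1 / ξ1 c1 with hκ
    set f : V →₀ ℝ := a - κ • ξ1 with hf
    have hfF : ZS F f := by
      have h1 : ZS T1 f := ha.sub (hz1.smul κ)
      have h2 : f c1 = 0 := by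
        simp only [hf, hκ, Finsupp.sub_apply, Finsupp.smul_apply, smul_eq_mul]
        field_simp
        ring
      refine ⟨?_, ?_⟩
      · intro v hv
        have h3 := h1.1 hv
        rw [e1, Finset.mem_insert] at h3
        rcases h3 with h3 | h3
        · exfalso
          rw [h3] at hv
          exact (Finsupp.mem_support_iff.1 hv) h2
        · exact h3
      · have h3 := h1.2
        rw [e1, Finset.sum_insert hc1F, h2, zero_add] at h3
        exact h3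
    have hg : (LinearMap.id - (Finsupp.lapply c1).smulRight ((ξ1 c1)⁻¹ • (ξ1 + ξ2)) :
        (V →₀ ℝ) →ₗ[ℝ] (V →₀ ℝ)) a = f - κ • ξ2 := by
      simp only [LinearMap.sub_apply, LinearMap.id_coe, id_eq, LinearMap.smulRight_apply,
        Finsupp.lapply_apply, smul_smul, hf, hκ, ← div_eq_mul_inv]
      module
    rw [hg]
    refine ⟨(hfF.mono hF2).sub (hz2.smul κ), ?_, ?_⟩
    · have h1 := hmain κ (-f) hfF.neg
      have h2 : κ • ξ1 - -f = a := by rw [hf]; module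
      have h3 : κ • ξ2 + -f = -(f - κ • ξ2) := by module
      rw [h2, h3, C.nrm_neg] at h1
      exact h1.symm
    · simp only [Finsupp.sub_apply, Finsupp.smul_apply, smul_eq_mul, hfF.notMem hc2F, hκ]
      ring
  · intro f hf
    have h1 : f c1 = 0 := hf.notMem hc1F
    simp only [LinearMap.sub_apply, LinearMap.id_coe, id_eq, LinearMap.smulRight_apply,
      Finsupp.lapply_apply, h1, zero_smul, sub_zero]

/-- Going around a thick wall: an isometry of the shape which fixes the wall and exchanges its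
two sides. -/
theorem LpComplex.Wall.turn (hB : BusemannConvex X) (hTame : C.Tame) {F : Finset V}
    (hF : C.Wall F) {T1 T2 T3 : Finset V} (hT1 : T1 ∈ C.K.faces) (hT2 : T2 ∈ C.K.faces)
    (hT3 : T3 ∈ C.K.faces) (hF1 : F ⊆ T1) (hF2 : F ⊆ T2) (hF3 : F ⊆ T3) (h1 : T1 ≠ F)
    (h2 : T2 ≠ F) (h3 : T3 ≠ F) (h12 : T1 ≠ T2) (h23 : T2 ≠ T3) (h31 : T3 ≠ T1) {c1 : V}
    (hc1 : c1 ∈ T1) (hc1F : c1 ∉ F) :
    ∃ (g : (V →₀ ℝ) →ₗ[ℝ] (V →₀ ℝ)) (μ : ℝ), 0 < μ ∧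
      (∀ a, ZS T1 a → ZS T1 (g a) ∧ C.nrm T1 (g a) = C.nrm T1 a ∧ g a c1 = -(μ * a c1)) ∧
      ∀ f, ZS F f → g f = f := by
  have hex : ∀ {T : Finset V}, F ⊆ T → T ≠ F → ∃ c ∈ T, c ∉ F := by
    intro T hFT hne
    by_contra hno
    push Not at hno
    exact hne (Finset.Subset.antisymm (fun v hv => hno v hv) hFT)
  obtain ⟨c2, hc2, hc2F⟩ := hex hF2 h2
  obtain ⟨c3, hc3, hc3F⟩ := hex hF3 h3
  obtain ⟨g1, μ1, hμ1, ha1, hf1⟩ := hF.unfold hB hTame hT1 hT2 hF1 hF2 hc1 hc1F hc2 hc2F h12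
  obtain ⟨g2, μ2, hμ2, ha2, hf2⟩ := hF.unfold hB hTame hT2 hT3 hF2 hF3 hc2 hc2F hc3 hc3F h23
  obtain ⟨g3, μ3, hμ3, ha3, hf3⟩ := hF.unfold hB hTame hT3 hT1 hF3 hF1 hc3 hc3F hc1 hc1F h31
  refine ⟨g3 ∘ₗ g2 ∘ₗ g1, μ3 * μ2 * μ1, by positivity, ?_, ?_⟩
  · intro a ha
    obtain ⟨z1, n1, k1⟩ := ha1 a ha
    obtain ⟨z2, n2, k2⟩ := ha2 _ z1
    obtain ⟨z3, n3, k3⟩ := ha3 _ z2
    simp only [LinearMap.coe_comp, Function.comp_apply]
    refine ⟨z3, by rw [n3, n2, n1], ?_⟩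
    rw [k3, k2, k1]
    ring
  · intro f hf
    simp only [LinearMap.coe_comp, Function.comp_apply]
    rw [hf1 f hf, hf2 f hf, hf3 f hf]

end Unfold

end Pool.Agent.LpBusemann
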