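import Pool.Agent.LpBusemann.Defs

/-!
# Conical bicombings on complexes of type l^p are unique geodesic bicombings

Proofs for the problem MP_e44843_al. The main points: near any point `w` the length metric from
`w` is the metric of a simplex (`LpComplex.star`); a geodesic contains a shorter one which stays
in the interior of one simplex and is straight there (`exists_const_supp`, `straight`); if two
geodesics from `x` to `y` branch at a point `q`, a conical bicombing joins two nearby points of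
them, at equal distance from `q`, by a geodesic all of whose points are at that same distance
from `q`, against strict convexity (`LpComplex.unique`).
-/

open scoped ENNReal
open Set

namespace Pool.Agent.LpBusemann

universe u v

theorem half_rpow_le {q : ℝ} (hq : 1 < q) (a b : ℝ) :
    |(1 / 2 : ℝ) * (a + b)| ^ q ≤ (1 / 2 : ℝ) * (|a| ^ q + |b| ^ q) := by
  have h1 : |(1 / 2 : ℝ) * (a + b)| ≤ (1 / 2 : ℝ) * |a| + (1 / 2 : ℝ) * |b| := by
    rw [abs_mul, abs_of_pos (by norm_num : (0 : ℝ) < 1 / 2)]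
    have := abs_add_le a b
    linarith
  have h2 : |(1 / 2 : ℝ) * (a + b)| ^ q ≤ ((1 / 2 : ℝ) * |a| + (1 / 2 : ℝ) * |b|) ^ q :=
    Real.rpow_le_rpow (abs_nonneg _) h1 (by linarith)
  have h3 := (convexOn_rpow hq.le).2 (mem_Ici.2 (abs_nonneg a)) (mem_Ici.2 (abs_nonneg b))
    (show (0 : ℝ) ≤ 1 / 2 by norm_num) (show (0 : ℝ) ≤ 1 / 2 by norm_num) (by norm_num)
  simp only [smul_eq_mul] at h3
  linarith

theorem half_rpow_lt {q : ℝ} (hq : 1 < q) {a b : ℝ} (hab : a ≠ b) :
    |(1 / 2 : ℝ) * (a + b)| ^ q < (1 / 2 : ℝ) * (|a| ^ q + |b| ^ q) := by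
  by_cases h : |a| = |b|
  · have hb : a = -b := by
      rcases abs_eq_abs.1 h with h' | h'
      · exact absurd h' hab
      · exact h'
    have hb0 : b ≠ 0 := by
      rintro rfl
      apply hab
      simpa using hb
    have h0 : (1 / 2 : ℝ) * (a + b) = 0 := by rw [hb]; ring
    rw [h0, abs_zero, Real.zero_rpow (by linarith)]
    have h1 : 0 < |a| ^ q := Real.rpow_pos_of_pos (by rw [h]; exact abs_pos.2 hb0) _
    have h2 : 0 < |b| ^ q := Real.rpow_pos_of_pos (abs_pos.2 hb0) _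
    linarith
  · have h1 : |(1 / 2 : ℝ) * (a + b)| ≤ (1 / 2 : ℝ) * |a| + (1 / 2 : ℝ) * |b| := by
      rw [abs_mul, abs_of_pos (by norm_num : (0 : ℝ) < 1 / 2)]
      have := abs_add_le a b
      linarith
    have h2 : |(1 / 2 : ℝ) * (a + b)| ^ q ≤ ((1 / 2 : ℝ) * |a| + (1 / 2 : ℝ) * |b|) ^ q :=
      Real.rpow_le_rpow (abs_nonneg _) h1 (by linarith)
    have h3 := (strictConvexOn_rpow hq).2 (mem_Ici.2 (abs_nonneg a)) (mem_Ici.2 (abs_nonneg b)) h
      (show (0 : ℝ) < 1 / 2 by norm_num) (show (0 : ℝ) < 1 / 2 by norm_num) (by norm_num)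
    simp only [smul_eq_mul] at h3
    linarith

/-- The finite-dimensional space of type l^p is strictly convex for p strictly between 1 and
infinity. -/
theorem strictConvexSpace_piLp {p : ℝ≥0∞} [Fact (1 ≤ p)] (hp1 : 1 < p) (hpt : p ≠ ⊤) (n : ℕ) :
    StrictConvexSpace ℝ (PiLp p (fun _ : Fin n => ℝ)) := by
  have hq : 1 < p.toReal := by
    have := (ENNReal.toReal_lt_toReal ENNReal.one_ne_top hpt).2 hp1
    simpa using this
  have hq0 : 0 < p.toReal := by linarith
  refine StrictConvexSpace.of_norm_combo_ne_one ?_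
  intro x y hx hy hxy
  refine ⟨1 / 2, 1 / 2, by norm_num, by norm_num, by norm_num, ?_⟩
  have key : ∀ z : PiLp p (fun _ : Fin n => ℝ), ‖z‖ = 1 ↔ ∑ i, |z i| ^ p.toReal = 1 := by
    intro z
    rw [PiLp.norm_eq_sum hq0]
    simp only [Real.norm_eq_abs]
    constructor
    · intro h
      have hnn : 0 ≤ ∑ i, |z i| ^ p.toReal :=
        Finset.sum_nonneg fun i _ => Real.rpow_nonneg (abs_nonneg _) _
      have h2 : ((∑ i, |z i| ^ p.toReal) ^ (1 / p.toReal)) ^ p.toReal = 1 := by
        rw [h, Real.one_rpow]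
      rwa [← Real.rpow_mul hnn, one_div, inv_mul_cancel₀ hq0.ne', Real.rpow_one] at h2
    · intro h
      rw [h, Real.one_rpow]
  rw [key] at hx hy
  intro hcon
  rw [key] at hcon
  have hne : ∃ i, x i ≠ y i := by
    by_contra hno
    push Not at hno
    exact hxy (PiLp.ext hno)
  obtain ⟨i0, hi0⟩ := hne
  have hlt : ∑ i, |((1 / 2 : ℝ) • x + (1 / 2 : ℝ) • y) i| ^ p.toReal <
      ∑ i, (1 / 2 : ℝ) * (|x i| ^ p.toReal + |y i| ^ p.toReal) := by
    apply Finset.sum_lt_sum
    · intro i _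
      have := half_rpow_le hq (x i) (y i)
      simpa [mul_add] using this
    · refine ⟨i0, Finset.mem_univ _, ?_⟩
      have := half_rpow_lt hq hi0
      simpa [mul_add] using this
  rw [hcon, ← Finset.mul_sum, Finset.sum_add_distrib, hx, hy] at hlt
  norm_num at hlt

section Bound

theorem coord_bound {E : Type*} [NormedAddCommGroup E] [NormedSpace ℝ E] {ι : Type*} [Fintype ι]
    (f : ι → E) (h : AffineIndependent ℝ f) :
    ∃ A : ℝ, 0 < A ∧ ∀ a : ι → ℝ, ∑ i, a i = 0 → ∀ i, |a i| ≤ A * ‖∑ i, a i • f i‖ := by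
  classical
  let W : Submodule ℝ (ι → ℝ) := LinearMap.ker (∑ i, LinearMap.proj i : (ι → ℝ) →ₗ[ℝ] ℝ)
  have hW : ∀ a : ι → ℝ, a ∈ W ↔ ∑ i, a i = 0 := by
    intro a
    simp [W]
  let L : W →ₗ[ℝ] E := (Fintype.linearCombination ℝ f).comp W.subtype
  have hL : ∀ a : W, L a = ∑ i, (a : ι → ℝ) i • f i := by
    intro a
    simp [L, Fintype.linearCombination_apply]
  have hker : LinearMap.ker L = ⊥ := by
    rw [LinearMap.ker_eq_bot']
    intro a ha
    rw [hL] at ha
    have h0 := (affineIndependent_iff.1 h) Finset.univ (a : ι → ℝ) ((hW _).1 a.2) ha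
    ext i
    simpa using h0 i (Finset.mem_univ i)
  obtain ⟨A, hA0, hA⟩ := L.exists_antilipschitzWith hker
  refine ⟨A, by exact_mod_cast hA0, ?_⟩
  intro a ha i
  have h1 := hA.le_mul_dist (⟨a, (hW a).2 ha⟩ : W) 0
  rw [dist_zero_right, map_zero, dist_zero_right, hL] at h1
  have h2 : |a i| ≤ ‖a‖ := by
    simpa using norm_le_pi_norm a i
  exact h2.trans h1

end Bound

section Strings

variable {V : Type u} {K : Cpx V} {p : ℝ≥0∞} [Fact (1 ≤ p)] (S : LpShapes K p)

theorem Pt.support_nonempty (x : Pt K) : x.w.support.Nonempty :=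
  K.nonempty_of_mem _ x.support_mem

theorem Pt.pos_of_mem (x : Pt K) {v : V} (hv : v ∈ x.w.support) : 0 < x.w v :=
  lt_of_le_of_ne (x.nonneg v) (Finsupp.mem_support_iff.1 hv).symm

theorem Pt.sum_eq_one (x : Pt K) {s : Finset V} (hx : x.w.support ⊆ s) : ∑ v ∈ s, x.w v = 1 := by
  rw [← x.sum_one, Finsupp.sum]
  exact (Finset.sum_subset hx fun v _ hv => Finsupp.notMem_support_iff.1 hv).symm

/-- The distance inside a simplex does not depend on the simplex. -/
theorem dist_place_eq {s t : Finset V} (hs : s ∈ K.faces) (ht : t ∈ K.faces) {x y : Pt K}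
    (hxs : x.w.support ⊆ s) (hys : y.w.support ⊆ s) (hxt : x.w.support ⊆ t)
    (hyt : y.w.support ⊆ t) :
    dist (S.place s x) (S.place s y) = dist (S.place t x) (S.place t y) := by
  classical
  have hne : (x.w.support ∪ y.w.support).Nonempty :=
    x.support_nonempty.mono Finset.subset_union_left
  have h1 := S.compat s hs (x.w.support ∪ y.w.support) (Finset.union_subset hxs hys) hne x y
    Finset.subset_union_left Finset.subset_union_right
  have h2 := S.compat t ht (x.w.support ∪ y.w.support) (Finset.union_subset hxt hyt) hne x y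
    Finset.subset_union_left Finset.subset_union_right
  exact h1.symm.trans h2

theorem StringLength.nonneg {S : LpShapes K p} {x y : Pt K} {l : ℝ} (h : StringLength S x y l) :
    0 ≤ l := by
  induction h with
  | nil x => exact le_rfl
  | cons s x y z l hs hx hy h ih => exact add_nonneg dist_nonneg ih

theorem StringLength.single {s : Finset V} (hs : s ∈ K.faces) {x y : Pt K}
    (hx : x.w.support ⊆ s) (hy : y.w.support ⊆ s) :
    StringLength S x y (dist (S.place s x) (S.place s y)) := by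
  have h := StringLength.cons (S := S) s x y y 0 hs hx hy (StringLength.nil y)
  rwa [add_zero] at h

theorem StringLength.star {S : LpShapes K p} {z w : Pt K} {l : ℝ} (h : StringLength S z w l) :
    ∀ {A ε : ℝ}, 0 < A → (∀ v ∈ w.w.support, ∀ s ∈ K.faces, v ∈ s → ∀ x y : Pt K,
      x.w.support ⊆ s → y.w.support ⊆ s →
        |x.w v - y.w v| ≤ A * dist (S.place s x) (S.place s y)) →
      (∀ v ∈ w.w.support, A * ε ≤ w.w v) → l < ε →
      w.w.support ⊆ z.w.support ∧ ∀ s ∈ K.faces, z.w.support ⊆ s →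
        dist (S.place s z) (S.place s w) ≤ l := by
  induction h with
  | nil x =>
    intro A ε hA0 hA hε hl
    exact ⟨Finset.Subset.refl _, fun s _ _ => by rw [dist_self]⟩
  | cons s z z' w l hs hz hz' h ih =>
    intro A ε hA0 hA hε hl
    have hd0 : 0 ≤ dist (S.place s z) (S.place s z') := dist_nonneg
    obtain ⟨ih1, ih2⟩ := ih hA0 hA hε (by linarith)
    have hw : w.w.support ⊆ s := ih1.trans hz'
    have h3 : dist (S.place s z) (S.place s w) ≤ dist (S.place s z) (S.place s z') + l :=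
      (dist_triangle _ (S.place s z') _).trans (by have := ih2 s hs hz'; linarith)
    have h4 : w.w.support ⊆ z.w.support := by
      intro v hv
      have h5 := hA v hv s hs (hw hv) z w hz hw
      have h6 : A * dist (S.place s z) (S.place s w) < A * ε :=
        mul_lt_mul_of_pos_left (by linarith) hA0
      have h7 := hε v hv
      have h8 := (abs_lt.1 (lt_of_le_of_lt h5 h6)).1
      rw [Finsupp.mem_support_iff]
      intro h0
      rw [h0] at h8
      linarith
    refine ⟨h4, fun t ht hzt => ?_⟩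
    rw [dist_place_eq S ht hs hzt (h4.trans hzt) hz hw]
    exact h3

end Strings

section Complex

variable {p : ℝ≥0∞} [Fact (1 ≤ p)] {V : Type u} {X : Type v} [MetricSpace X]
  (C : LpComplex p V X)

/-- The support of a point of `X`: the smallest simplex that contains it. -/
def LpComplex.supp (x : X) : Finset V := (C.pt x).w.support

/-- The position of a point of `X` in the shape of a simplex. -/
noncomputable def LpComplex.pos (s : Finset V) (x : X) : PiLp p (fun _ : Fin (C.S.dim s) => ℝ) :=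
  C.S.place s (C.pt x)

/-- The regularity used in the proof: near every vertex the simplices have bounded dimension and
bounded-below heights. -/
def LpComplex.Tame : Prop :=
  ∀ v : V, ∃ (A : ℝ) (N : ℕ), ∀ s ∈ C.K.faces, v ∈ s → s.card ≤ N ∧ ∀ x y : Pt C.K,
    x.w.support ⊆ s → y.w.support ⊆ s →
      |x.w v - y.w v| ≤ A * dist (C.S.place s x) (C.S.place s y)

theorem LpComplex.dist_le {s : Finset V} (hs : s ∈ C.K.faces) {x y : X} (hx : C.supp x ⊆ s)
    (hy : C.supp y ⊆ s) : dist x y ≤ dist (C.pos s x) (C.pos s y) := by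
  rw [C.dist_eq]
  exact csInf_le ⟨0, fun l hl => StringLength.nonneg hl⟩ (StringLength.single C.S hs hx hy)

theorem LpComplex.star (hT : C.Tame) (w : X) : ∃ ε : ℝ, 0 < ε ∧ ∀ z : X, dist w z < ε →
    C.supp w ⊆ C.supp z ∧ ∀ s ∈ C.K.faces, C.supp z ⊆ s →
      dist (C.pos s w) (C.pos s z) = dist w z := by
  classical
  choose A N hAN using hT
  -- a common constant for the vertices of the support
  obtain ⟨B, hB⟩ : ∃ B : ℝ, ∀ v ∈ (C.pt w).w.support, A v ≤ B := by
    obtain ⟨B, hB⟩ := ((C.pt w).w.support.finite_toSet.image A).bddAbove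
    exact ⟨B, fun v hv => hB ⟨v, hv, rfl⟩⟩
  obtain ⟨v0, hv0, hmin⟩ := (C.pt w).w.support.exists_min_image (fun v => (C.pt w).w v)
    (C.pt w).support_nonempty
  have hm : 0 < (C.pt w).w v0 := (C.pt w).pos_of_mem hv0
  set A' : ℝ := max B 1 with hA'
  have hA'0 : 0 < A' := lt_of_lt_of_le one_pos (le_max_right _ _)
  refine ⟨(C.pt w).w v0 / A', div_pos hm hA'0, ?_⟩
  intro z hz
  have key : ∀ l, StringLength C.S (C.pt z) (C.pt w) l → l < (C.pt w).w v0 / A' →
      C.supp w ⊆ C.supp z ∧ ∀ s ∈ C.K.faces, C.supp z ⊆ s →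
        dist (C.pos s z) (C.pos s w) ≤ l := by
    intro l hl hlt
    refine hl.star hA'0 ?_ ?_ hlt
    · intro v hv s hs hvs x y hx hy
      refine ((hAN v s hs hvs).2 x y hx hy).trans ?_
      exact mul_le_mul_of_nonneg_right ((hB v hv).trans (le_max_left _ _)) dist_nonneg
    · intro v hv
      rw [mul_div_cancel₀ _ hA'0.ne']
      exact hmin v hv
  have hne : {l | StringLength C.S (C.pt z) (C.pt w) l}.Nonempty := C.connected z w
  rw [dist_comm, C.dist_eq] at hz
  obtain ⟨l0, hl0, hl0'⟩ := exists_lt_of_csInf_lt hne hz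
  obtain ⟨k1, k2⟩ := key l0 hl0 hl0'
  refine ⟨k1, fun s hs hzs => ?_⟩
  apply le_antisymm
  · rw [dist_comm, dist_comm w z, C.dist_eq]
    apply le_csInf hne
    intro l hl
    by_cases hlt : l < (C.pt w).w v0 / A'
    · exact (key l hl hlt).2 s hs hzs
    · exact (k2 s hs hzs).trans (hl0'.le.trans (not_lt.1 hlt))
  · exact C.dist_le hs (k1.trans hzs) hzs

end Complex

section TameProofs

variable {p : ℝ≥0∞} [Fact (1 ≤ p)] {V : Type u} {X : Type v} [MetricSpace X]
  (C : LpComplex p V X)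

theorem LpComplex.place_eq (s : Finset V) (x : Pt C.K) :
    C.S.place s x = ∑ v : s, x.w v • C.S.vtx s v := by
  rw [LpShapes.place]
  exact (Finset.sum_coe_sort s fun v => x.w v • C.S.vtx s v).symm

theorem LpComplex.dist_place (s : Finset V) (x y : Pt C.K) :
    dist (C.S.place s x) (C.S.place s y) = ‖∑ v : s, (x.w v - y.w v) • C.S.vtx s v‖ := by
  rw [dist_eq_norm, C.place_eq, C.place_eq, ← Finset.sum_sub_distrib]
  simp only [sub_smul]

theorem LpComplex.sum_sub_eq_zero {s : Finset V} {x y : Pt C.K} (hx : x.w.support ⊆ s)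
    (hy : y.w.support ⊆ s) : ∑ v : s, (x.w v - y.w v) = 0 := by
  rw [Finset.sum_coe_sort s fun v => x.w v - y.w v, Finset.sum_sub_distrib, x.sum_eq_one hx,
    y.sum_eq_one hy, sub_self]

theorem LpComplex.SameShape.refl (s : Finset V) : C.SameShape s s :=
  ⟨Equiv.refl _, fun _ _ _ _ _ _ => rfl⟩

/-- A locally finite complex satisfies the hypothesis of `result`. -/
theorem LpComplex.locallyFiniteShapes_of_locallyFinite
    (h : ∀ v : V, {s : Finset V | s ∈ C.K.faces ∧ v ∈ s}.Finite) : C.LocallyFiniteShapes :=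
  fun v => ⟨_, h v, fun _ hs => hs.1, fun s hs hv => ⟨s, ⟨hs, hv⟩, SameShape.refl C s⟩⟩

/-- A complex with finitely many isometry types of simplices satisfies the hypothesis of
`result`. -/
theorem LpComplex.locallyFiniteShapes_of_finite {F : Set (Finset V)} (hF : F.Finite)
    (hFK : F ⊆ C.K.faces) (h : ∀ s ∈ C.K.faces, ∃ t ∈ F, C.SameShape s t) :
    C.LocallyFiniteShapes :=
  fun _ => ⟨F, hF, hFK, fun s hs _ => h s hs⟩

theorem LpComplex.LocallyFiniteShapes.tame {C : LpComplex p V X} (h : C.LocallyFiniteShapes) :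
    C.Tame := by
  classical
  have hb : ∀ s : Finset V, ∃ A : ℝ, s ∈ C.K.faces → ∀ a : s → ℝ, ∑ i, a i = 0 →
      ∀ i, |a i| ≤ A * ‖∑ i, a i • C.S.vtx s i‖ := by
    intro s
    by_cases hs : s ∈ C.K.faces
    · obtain ⟨A, -, hA⟩ := coord_bound (fun v : s => C.S.vtx s v) (C.S.indep s hs)
      exact ⟨A, fun _ => hA⟩
    · exact ⟨0, fun h => absurd h hs⟩
  choose A hA using hb
  intro v
  obtain ⟨F, hF, hFK, hsh⟩ := h v
  obtain ⟨B, hB⟩ := (hF.image A).bddAbove
  obtain ⟨N, hN⟩ := (hF.image Finset.card).bddAbove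
  refine ⟨B, N, fun s hs hv => ?_⟩
  obtain ⟨t, ht, e, he⟩ := hsh s hs hv
  constructor
  · have hc : s.card = t.card := by
      simpa using Fintype.card_congr e
    rw [hc]
    exact hN ⟨t, ht, rfl⟩
  · intro x y hx hy
    have hdist : dist (C.S.place s x) (C.S.place s y) =
        ‖∑ u : t, (x.w (e.symm u) - y.w (e.symm u)) • C.S.vtx t u‖ := by
      rw [C.place_eq, C.place_eq, he (fun v => x.w v) (fun v => y.w v) (fun v => x.nonneg v)
        (by rw [Finset.sum_coe_sort s fun v => x.w v]; exact x.sum_eq_one hx)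
        (fun v => y.nonneg v)
        (by rw [Finset.sum_coe_sort s fun v => y.w v]; exact y.sum_eq_one hy),
        dist_eq_norm, ← Finset.sum_sub_distrib]
      rw [← e.sum_comp]
      simp only [sub_smul, Equiv.symm_apply_apply]
    have hsum : ∑ u : t, (x.w (e.symm u) - y.w (e.symm u)) = 0 := by
      rw [← e.sum_comp]
      simp only [Equiv.symm_apply_apply]
      exact C.sum_sub_eq_zero hx hy
    have h1 := hA t (hFK ht) (fun u : t => x.w (e.symm u) - y.w (e.symm u)) hsum (e ⟨v, hv⟩)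
    simp only [Equiv.symm_apply_apply] at h1
    rw [hdist]
    exact h1.trans (mul_le_mul_of_nonneg_right (hB ⟨t, ht, rfl⟩) (norm_nonneg _))

end TameProofs

section Main

variable {p : ℝ≥0∞} [Fact (1 ≤ p)] {V : Type u} {X : Type v} [MetricSpace X]
  (C : LpComplex p V X)

/-- A geodesic segment contains a shorter one that stays in the interior of one simplex. -/
theorem LpComplex.exists_const_supp (hT : C.Tame) {c : ℝ → X} {a b L : ℝ} (hab : a < b)
    (hL : 0 < L) (hc : ∀ s ∈ Icc a b, ∀ t ∈ Icc a b, dist (c s) (c t) = |s - t| * L) :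
    ∃ a' b' : ℝ, a ≤ a' ∧ a' < b' ∧ b' ≤ b ∧ ∀ t ∈ Icc a' b', C.supp (c t) = C.supp (c a') := by
  obtain ⟨ε, hε, hst⟩ := C.star hT (c a)
  set b1 : ℝ := min b (a + ε / (2 * L)) with hb1
  have hab1 : a < b1 := lt_min hab (by have : 0 < ε / (2 * L) := by positivity
                                       linarith)
  have hb1b : b1 ≤ b := min_le_left _ _
  have hnear : ∀ t ∈ Icc a b1, C.supp (c a) ⊆ C.supp (c t) := by
    intro t ht
    refine (hst (c t) ?_).1
    rw [hc a ⟨le_rfl, hab.le⟩ t ⟨ht.1, ht.2.trans hb1b⟩, abs_sub_comm, abs_of_nonneg (by linarith [ht.1])]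
    have h1 : t - a ≤ ε / (2 * L) := by
      have := ht.2.trans (min_le_right _ _)
      linarith
    calc (t - a) * L ≤ ε / (2 * L) * L := mul_le_mul_of_nonneg_right h1 hL.le
      _ = ε / 2 := by field_simp
      _ < ε := by linarith
  obtain ⟨v, hv⟩ := (C.pt (c a)).support_nonempty
  obtain ⟨A, N, hAN⟩ := hT v
  set Q : Set ℕ := (fun t => (C.supp (c t)).card) '' Icc a b1 with hQ
  have hQne : Q.Nonempty := ⟨_, a, ⟨le_rfl, hab1.le⟩, rfl⟩
  have hQb : BddAbove Q := by
    refine ⟨N, ?_⟩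
    rintro _ ⟨t, ht, rfl⟩
    exact (hAN _ (C.pt (c t)).support_mem (hnear t ht hv)).1
  obtain ⟨t0, ht0, hmax⟩ := Nat.sSup_mem hQne hQb
  have hmax' : ∀ t ∈ Icc a b1, (C.supp (c t)).card ≤ (C.supp (c t0)).card := by
    intro t ht
    have h1 : (C.supp (c t)).card ≤ sSup Q := le_csSup hQb ⟨t, ht, rfl⟩
    simp only at hmax
    rw [hmax]
    exact h1
  obtain ⟨δ, hδ, hst0⟩ := C.star hT (c t0)
  have hloc : ∀ t ∈ Icc a b1, |t - t0| ≤ δ / (2 * L) → C.supp (c t) = C.supp (c t0) := by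
    intro t ht htt
    refine (Finset.eq_of_subset_of_card_le (hst0 (c t) ?_).1 (hmax' t ht)).symm
    rw [hc t0 ⟨ht0.1, ht0.2.trans hb1b⟩ t ⟨ht.1, ht.2.trans hb1b⟩, abs_sub_comm]
    calc |t - t0| * L ≤ δ / (2 * L) * L := mul_le_mul_of_nonneg_right htt hL.le
      _ = δ / 2 := by field_simp
      _ < δ := by linarith
  have hδL : 0 < δ / (2 * L) := by positivity
  rcases lt_or_eq_of_le ht0.2 with hlt | heq
  · refine ⟨t0, min b1 (t0 + δ / (2 * L)), ht0.1, lt_min hlt (by linarith),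
      (min_le_left _ _).trans hb1b, fun t ht => ?_⟩
    refine hloc t ⟨ht0.1.trans ht.1, ht.2.trans (min_le_left _ _)⟩ ?_
    rw [abs_of_nonneg (by linarith [ht.1])]
    have := ht.2.trans (min_le_right _ _)
    linarith
  · refine ⟨max a (t0 - δ / (2 * L)), t0, le_max_left _ _, max_lt (by rw [heq]; exact hab1)
      (by linarith), ht0.2.trans hb1b, ?_⟩
    have h1 : ∀ t ∈ Icc (max a (t0 - δ / (2 * L))) t0, C.supp (c t) = C.supp (c t0) := by
      intro t ht
      refine hloc t ⟨(le_max_left _ _).trans ht.1, ht.2.trans ht0.2⟩ ?_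
      rw [abs_sub_comm, abs_of_nonneg (by linarith [ht.2])]
      have := (le_max_right a (t0 - δ / (2 * L))).trans ht.1
      linarith
    intro t ht
    rw [h1 t ht, h1 _ ⟨le_rfl, ?_⟩]
    exact (ht.1.trans ht.2)

/-- A geodesic segment inside one simplex is straight there. -/
theorem LpComplex.straight (hT : C.Tame) {c : ℝ → X} {a b L : ℝ} (hL : 0 < L)
    (hc : ∀ s ∈ Icc a b, ∀ t ∈ Icc a b, dist (c s) (c t) = |s - t| * L)
    {r : Finset V} (hr : r ∈ C.K.faces) (hsupp : ∀ t ∈ Icc a b, C.supp (c t) ⊆ r)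
    {s t : ℝ} (hs : a ≤ s) (hst : s ≤ t) (ht : t ≤ b) :
    dist (C.pos r (c s)) (C.pos r (c t)) = (t - s) * L := by
  have hloc : ∀ x ∈ Icc a b, ∃ η : ℝ, 0 < η ∧ ∀ y ∈ Icc a b, |y - x| < η →
      dist (C.pos r (c x)) (C.pos r (c y)) = |y - x| * L := by
    intro x hx
    obtain ⟨ε, hε, hstar⟩ := C.star hT (c x)
    refine ⟨ε / L, div_pos hε hL, fun y hy hxy => ?_⟩
    have hd : dist (c x) (c y) = |y - x| * L := by rw [hc x hx y hy, abs_sub_comm]
    rw [(hstar (c y) ?_).2 r hr (hsupp y hy), hd]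
    rw [hd]
    exact (lt_div_iff₀ hL).1 hxy
  have hcont : ContinuousOn (fun y => C.pos r (c y)) (Icc a b) := by
    intro x hx
    rw [Metric.continuousWithinAt_iff]
    intro e he
    obtain ⟨η, hη, hη'⟩ := hloc x hx
    refine ⟨min η (e / L), lt_min hη (div_pos he hL), fun {y} hy hyx => ?_⟩
    rw [Real.dist_eq] at hyx
    rw [dist_comm, hη' y hy (lt_of_lt_of_le hyx (min_le_left _ _))]
    exact (lt_div_iff₀ hL).1 (lt_of_lt_of_le hyx (min_le_right _ _))
  have hsab : s ∈ Icc a b := ⟨hs, hst.trans ht⟩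
  have htab : t ∈ Icc a b := ⟨hs.trans hst, ht⟩
  apply le_antisymm
  · have hsub : Icc s t ⊆ {y | dist (C.pos r (c s)) (C.pos r (c y)) ≤ (y - s) * L} := by
      apply IsClosed.Icc_subset_of_forall_exists_gt
      · have hcl : IsClosed {y ∈ Icc s t | dist (C.pos r (c s)) (C.pos r (c y)) ≤ (y - s) * L} := by
          apply isClosed_Icc.isClosed_le
          · exact continuous_dist.comp_continuousOn
              (continuousOn_const.prodMk (hcont.mono (Icc_subset_Icc hs ht)))
          · fun_prop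
        have heq : {y | dist (C.pos r (c s)) (C.pos r (c y)) ≤ (y - s) * L} ∩ Icc s t =
            {y ∈ Icc s t | dist (C.pos r (c s)) (C.pos r (c y)) ≤ (y - s) * L} := by
          ext y
          simp [and_comm]
        rw [heq]
        exact hcl
      · simp
      · rintro x ⟨hx1, hx2⟩ y hy
        have hxab : x ∈ Icc a b := ⟨hs.trans hx2.1, hx2.2.le.trans ht⟩
        obtain ⟨η, hη, hη'⟩ := hloc x hxab
        set x' : ℝ := min (min y t) (x + η / 2) with hx'
        have hxx' : x < x' := lt_min (lt_min hy hx2.2) (by linarith)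
        have hx't : x' ≤ t := (min_le_left _ _).trans (min_le_right _ _)
        have hx'y : x' ≤ y := (min_le_left _ _).trans (min_le_left _ _)
        have hx'η : x' ≤ x + η / 2 := min_le_right _ _
        refine ⟨x', ?_, hxx', hx'y⟩
        have h1 := hη' x' ⟨hxab.1.trans hxx'.le, hx't.trans ht⟩ (by
          rw [abs_of_pos (by linarith)]
          linarith)
        rw [abs_of_pos (by linarith)] at h1
        change dist (C.pos r (c s)) (C.pos r (c x')) ≤ (x' - s) * L
        have hx1' : dist (C.pos r (c s)) (C.pos r (c x)) ≤ (x - s) * L := hx1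
        calc dist (C.pos r (c s)) (C.pos r (c x'))
            ≤ dist (C.pos r (c s)) (C.pos r (c x)) + dist (C.pos r (c x)) (C.pos r (c x')) :=
              dist_triangle _ _ _
          _ ≤ (x - s) * L + (x' - x) * L := by linarith
          _ = (x' - s) * L := by ring
    exact hsub ⟨hst, le_rfl⟩
  · have h1 := C.dist_le hr (hsupp s hsab) (hsupp t htab)
    rw [hc s hsab t htab, abs_sub_comm, abs_of_nonneg (by linarith)] at h1
    exact h1

end Main

section Unique

variable {p : ℝ≥0∞} [Fact (1 ≤ p)] {V : Type u} {X : Type v} [MetricSpace X]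
  (C : LpComplex p V X)

theorem IsGeodesic.continuousOn {X : Type v} [MetricSpace X] {γ : ℝ → X} {x y : X}
    (h : IsGeodesic γ x y) : ContinuousOn γ (Icc (0 : ℝ) 1) := by
  intro t ht
  rw [Metric.continuousWithinAt_iff]
  intro e he
  have hD : 0 < dist x y + 1 := by have := dist_nonneg (x := x) (y := y); linarith
  refine ⟨e / (dist x y + 1), div_pos he hD, fun {s} hs hst => ?_⟩
  rw [h.2.2 s hs t ht]
  rw [Real.dist_eq] at hst
  have h1 : |s - t| * dist x y ≤ |s - t| * (dist x y + 1) :=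
    mul_le_mul_of_nonneg_left (by linarith) (abs_nonneg _)
  exact lt_of_le_of_lt h1 ((lt_div_iff₀ hD).1 hst)

theorem IsGeodesic.const {X : Type v} [MetricSpace X] {γ : ℝ → X} {x : X}
    (h : IsGeodesic γ x x) {t : ℝ} (ht : t ∈ Icc (0 : ℝ) 1) : γ t = x := by
  have h1 := h.2.2 t ht 0 ⟨le_rfl, zero_le_one⟩
  rw [dist_self, mul_zero, dist_eq_zero, h.1] at h1
  exact h1

/-- A piece of a geodesic, reparametrised on `[0, 1]`, is a geodesic. -/
theorem IsGeodesic.piece {X : Type v} [MetricSpace X] {γ : ℝ → X} {x y : X}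
    (h : IsGeodesic γ x y) {a b : ℝ} (ha : a ∈ Icc (0 : ℝ) 1) (hb : b ∈ Icc (0 : ℝ) 1) :
    IsGeodesic (fun s => γ ((1 - s) * a + s * b)) (γ a) (γ b) := by
  have hin : ∀ s ∈ Icc (0 : ℝ) 1, (1 - s) * a + s * b ∈ Icc (0 : ℝ) 1 := by
    intro s hs
    have := (convex_Icc (0 : ℝ) 1) ha hb (show 0 ≤ 1 - s by linarith [hs.2]) hs.1 (by ring)
    simpa using this
  refine ⟨by simp, by simp, fun s hs t ht => ?_⟩
  rw [h.2.2 _ (hin s hs) _ (hin t ht), h.2.2 a ha b hb, ← mul_assoc, ← abs_mul]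
  congr 1
  rw [abs_eq_abs]
  right
  ring

theorem IsConvexBicombing.conical {X : Type v} [MetricSpace X] {σ : X → X → ℝ → X}
    (h : IsConvexBicombing σ) : IsConicalBicombing σ := by
  refine ⟨h.1, fun x y x' y' t ht => ?_⟩
  have h1 := (h.2 x y x' y').2 (show (0 : ℝ) ∈ Icc (0 : ℝ) 1 from ⟨le_rfl, zero_le_one⟩)
    (show (1 : ℝ) ∈ Icc (0 : ℝ) 1 from ⟨zero_le_one, le_rfl⟩)
    (show 0 ≤ 1 - t by linarith [ht.2]) ht.1 (by ring)
  simp only [smul_eq_mul, mul_zero, mul_one, zero_add] at h1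
  rwa [(h.1 x y).1, (h.1 x' y').1, (h.1 x y).2.1, (h.1 x' y').2.1] at h1

/-- In a tame l^p complex with a conical bicombing, geodesics are unique. -/
theorem LpComplex.unique (hp1 : 1 < p) (hpt : p ≠ ⊤) (hT : C.Tame) {σ : X → X → ℝ → X}
    (hσ : IsConicalBicombing σ) {x y : X} {γ γ' : ℝ → X} (hγ : IsGeodesic γ x y)
    (hγ' : IsGeodesic γ' x y) : EqOn γ γ' (Icc (0 : ℝ) 1) := by
  intro t1 ht1
  by_contra hne
  have h00 : (0 : ℝ) ∈ Icc (0 : ℝ) 1 := ⟨le_rfl, zero_le_one⟩
  have h11 : (1 : ℝ) ∈ Icc (0 : ℝ) 1 := ⟨zero_le_one, le_rfl⟩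
  have hD : 0 < dist x y := by
    rcases (dist_nonneg (x := x) (y := y)).lt_or_eq with h | h
    · exact h
    · exfalso
      have hxy : x = y := dist_eq_zero.1 h.symm
      subst hxy
      exact hne ((hγ.const ht1).trans (hγ'.const ht1).symm)
  -- the last coincidence of the two geodesics before `t1`
  have hcl : IsClosed {t ∈ Icc (0 : ℝ) t1 | dist (γ t) (γ' t) ≤ 0} := by
    apply isClosed_Icc.isClosed_le
    · exact continuous_dist.comp_continuousOn
        ((hγ.continuousOn.mono (Icc_subset_Icc le_rfl ht1.2)).prodMk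
          (hγ'.continuousOn.mono (Icc_subset_Icc le_rfl ht1.2)))
    · exact continuousOn_const
  have hZne : {t ∈ Icc (0 : ℝ) t1 | dist (γ t) (γ' t) ≤ 0}.Nonempty := by
    refine ⟨0, ⟨le_rfl, ht1.1⟩, ?_⟩
    rw [hγ.1, hγ'.1, dist_self]
  have hZb : BddAbove {t ∈ Icc (0 : ℝ) t1 | dist (γ t) (γ' t) ≤ 0} := ⟨t1, fun t ht => ht.1.2⟩
  obtain ⟨hτ1, hτ2⟩ := hcl.csSup_mem hZne hZb
  set τ : ℝ := sSup {t ∈ Icc (0 : ℝ) t1 | dist (γ t) (γ' t) ≤ 0} with hτ
  have hcoin : γ τ = γ' τ := dist_le_zero.1 hτ2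
  have hτt1 : τ < t1 := by
    refine lt_of_le_of_ne hτ1.2 ?_
    intro h
    rw [h] at hcoin
    exact hne hcoin
  have hafter : ∀ t, τ < t → t ≤ t1 → γ t ≠ γ' t := by
    intro t ht htt h
    have : t ≤ τ := le_csSup hZb ⟨⟨hτ1.1.trans ht.le, htt⟩, by rw [h, dist_self]⟩
    linarith
  have hτ01 : τ ∈ Icc (0 : ℝ) 1 := ⟨hτ1.1, hτ1.2.trans ht1.2⟩
  obtain ⟨ε, hε, hstar⟩ := C.star hT (γ τ)
  set t : ℝ := min t1 (τ + ε / (2 * dist x y)) with ht
  have htτ : τ < t := lt_min hτt1 (by have : 0 < ε / (2 * dist x y) := by positivity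
                                      linarith)
  have htt1 : t ≤ t1 := min_le_left _ _
  have ht01 : t ∈ Icc (0 : ℝ) 1 := ⟨hτ01.1.trans htτ.le, htt1.trans ht1.2⟩
  have hβε : (t - τ) * dist x y < ε := by
    have h1 : t - τ ≤ ε / (2 * dist x y) := by
      have : t ≤ τ + ε / (2 * dist x y) := min_le_right _ _
      linarith
    calc (t - τ) * dist x y ≤ ε / (2 * dist x y) * dist x y :=
          mul_le_mul_of_nonneg_right h1 hD.le
      _ = ε / 2 := by field_simp
      _ < ε := by linarith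
  have hzz : γ t ≠ γ' t := hafter t htτ htt1
  have hL : 0 < dist (γ t) (γ' t) := dist_pos.2 hzz
  have hc := hσ.1 (γ t) (γ' t)
  -- the geodesic from `γ t` to `γ' t` stays at constant distance from `γ τ`
  have hle1 : ∀ s ∈ Icc (0 : ℝ) 1, dist (γ τ) (σ (γ t) (γ' t) s) ≤ (t - τ) * dist x y := by
    intro s hs
    have h1 := hσ.2 (γ τ) (γ τ) (γ t) (γ' t) s hs
    have h2 : dist (γ τ) (γ t) = (t - τ) * dist x y := by
      rw [hγ.2.2 τ hτ01 t ht01, abs_sub_comm, abs_of_nonneg (by linarith)]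
    have h3 : dist (γ τ) (γ' t) = (t - τ) * dist x y := by
      rw [hcoin, hγ'.2.2 τ hτ01 t ht01, abs_sub_comm, abs_of_nonneg (by linarith)]
    rw [(hσ.1 (γ τ) (γ τ)).const hs, h2, h3] at h1
    linarith
  have hle2 : ∀ s ∈ Icc (0 : ℝ) 1, dist (σ (γ t) (γ' t) s) y ≤ (1 - t) * dist x y := by
    intro s hs
    have h1 := hσ.2 (γ t) (γ' t) y y s hs
    have h2 := hγ.2.2 t ht01 1 h11
    rw [hγ.2.1, abs_sub_comm, abs_of_nonneg (by linarith [ht01.2])] at h2
    have h3 := hγ'.2.2 t ht01 1 h11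
    rw [hγ'.2.1, abs_sub_comm, abs_of_nonneg (by linarith [ht01.2])] at h3
    rw [(hσ.1 y y).const hs, h2, h3] at h1
    linarith
  have heq : ∀ s ∈ Icc (0 : ℝ) 1, dist (γ τ) (σ (γ t) (γ' t) s) = (t - τ) * dist x y := by
    intro s hs
    apply le_antisymm (hle1 s hs)
    have h2 := hγ.2.2 τ hτ01 1 h11
    rw [hγ.2.1, abs_sub_comm, abs_of_nonneg (by linarith [hτ01.2])] at h2
    have h3 := dist_triangle (γ τ) (σ (γ t) (γ' t) s) y
    have h4 := hle2 s hs
    nlinarith
  obtain ⟨a, b, ha0, hab, hb1, hconst⟩ := C.exists_const_supp hT one_pos hL hc.2.2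
  set r : Finset V := C.supp (σ (γ t) (γ' t) a) with hr
  have hrK : r ∈ C.K.faces := (C.pt _).support_mem
  have hin : ∀ s ∈ Icc a b, s ∈ Icc (0 : ℝ) 1 := fun s hs => ⟨ha0.trans hs.1, hs.2.trans hb1⟩
  have hpos : ∀ s ∈ Icc a b, dist (C.pos r (γ τ)) (C.pos r (σ (γ t) (γ' t) s)) =
      (t - τ) * dist x y := by
    intro s hs
    have h1 : dist (γ τ) (σ (γ t) (γ' t) s) < ε := by rw [heq s (hin s hs)]; exact hβε
    rw [(hstar _ h1).2 r hrK (hconst s hs).le, heq s (hin s hs)]
  have hstr : ∀ s s' : ℝ, a ≤ s → s ≤ s' → s' ≤ b →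
      dist (C.pos r (σ (γ t) (γ' t) s)) (C.pos r (σ (γ t) (γ' t) s')) =
        (s' - s) * dist (γ t) (γ' t) := fun s s' h1 h2 h3 =>
    C.straight hT hL (fun u hu v hv => hc.2.2 u (hin u hu) v (hin v hv)) hrK
      (fun u hu => (hconst u hu).le) h1 h2 h3
  have := strictConvexSpace_piLp hp1 hpt (C.S.dim r)
  have ham : a ≤ (a + b) / 2 := by linarith
  have hmb : (a + b) / 2 ≤ b := by linarith
  have hmid : C.pos r (σ (γ t) (γ' t) ((a + b) / 2)) =
      midpoint ℝ (C.pos r (σ (γ t) (γ' t) a)) (C.pos r (σ (γ t) (γ' t) b)) := by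
    apply eq_midpoint_of_dist_eq_half
    · rw [hstr a _ le_rfl ham hmb, hstr a b le_rfl hab.le le_rfl]
      ring
    · rw [hstr _ b ham hmb le_rfl, hstr a b le_rfl hab.le le_rfl]
      ring
  have hda := hpos a ⟨le_rfl, hab.le⟩
  have hdb := hpos b ⟨hab.le, le_rfl⟩
  have hdm := hpos ((a + b) / 2) ⟨ham, hmb⟩
  have hdab := hstr a b le_rfl hab.le le_rfl
  rw [dist_comm, dist_eq_norm] at hda hdb hdm
  have hlt := (norm_midpoint_lt_iff (hda.trans hdb.symm)).2 (by
    intro h
    have h' : C.pos r (σ (γ t) (γ' t) a) = C.pos r (σ (γ t) (γ' t) b) := by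
      simpa using h
    rw [h', dist_self] at hdab
    have : 0 < (b - a) * dist (γ t) (γ' t) := mul_pos (by linarith) hL
    linarith)
  have hvec : (1 / 2 : ℝ) • ((C.pos r (σ (γ t) (γ' t) a) - C.pos r (γ τ)) +
      (C.pos r (σ (γ t) (γ' t) b) - C.pos r (γ τ))) =
      C.pos r (σ (γ t) (γ' t) ((a + b) / 2)) - C.pos r (γ τ) := by
    rw [hmid, midpoint_eq_smul_add, invOf_eq_inv]
    module
  rw [hvec, hda, hdm] at hlt
  exact lt_irrefl _ hlt

theorem busemannConvex_of_bicombing (hp1 : 1 < p) (hpt : p ≠ ⊤) (hT : C.Tame)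
    {σ : X → X → ℝ → X} (hσ : IsConicalBicombing σ) : BusemannConvex X := by
  refine ⟨fun x y => ⟨σ x y, hσ.1 x y⟩, fun x y γ γ' hγ hγ' => C.unique hp1 hpt hT hσ hγ hγ', ?_⟩
  intro x y x' y' γ γ' hγ hγ'
  refine ⟨convex_Icc 0 1, ?_⟩
  intro a ha b hb α β hα hβ hαβ
  have hβ01 : β ∈ Icc (0 : ℝ) 1 := ⟨hβ, by linarith⟩
  have hα' : α = 1 - β := by linarith
  subst hα'
  have h1 := hσ.2 (γ a) (γ b) (γ' a) (γ' b) β hβ01
  rw [C.unique hp1 hpt hT hσ (hσ.1 (γ a) (γ b)) (hγ.piece ha hb) hβ01,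
    C.unique hp1 hpt hT hσ (hσ.1 (γ' a) (γ' b)) (hγ'.piece ha hb) hβ01] at h1
  simpa only [smul_eq_mul] using h1

end Unique

end Pool.Agent.LpBusemann
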