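import Pool.Agent.LpBusemann.Norms

/-!
# The metric near a wall, crossing geodesics
-/

open scoped ENNReal
open Set

namespace Pool.Agent.LpBusemann

universe u v

section Near

variable {p : ℝ≥0∞} [Fact (1 ≤ p)] {V : Type u} {X : Type v} [MetricSpace X]
  {C : LpComplex p V X}

theorem LpComplex.Wall.nonempty {F : Finset V} (hF : C.Wall F) : F.Nonempty :=
  C.K.nonempty_of_mem F hF.1

/-- A short string, when the distance is short. -/
theorem LpComplex.Wall.short {F : Finset V} (hF : C.Wall F) {A : ℝ} (hA0 : 0 < A) {x y : X}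
    (hxy : ∀ v ∈ F, A * dist x y < C.wt x v) :
    ∃ ρ l0 : ℝ, StringLength C.S (C.pt x) (C.pt y) l0 ∧ l0 < ρ ∧
      ∀ l, l < ρ → ∀ v ∈ F, A * l < C.wt x v := by
  obtain ⟨v0, hv0, hmin⟩ := F.exists_min_image (fun v => C.wt x v) hF.nonempty
  have h1 : dist x y < C.wt x v0 / A := by
    rw [lt_div_iff₀ hA0, mul_comm]
    exact hxy v0 hv0
  rw [C.dist_eq] at h1
  obtain ⟨l0, hl0, hl0'⟩ := exists_lt_of_csInf_lt (C.connected x y) h1
  refine ⟨C.wt x v0 / A, l0, hl0, hl0', fun l hl v hv => ?_⟩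
  rw [lt_div_iff₀ hA0, mul_comm] at hl
  exact lt_of_lt_of_le hl (hmin v hv)

/-- Near the interior of a wall, the distance of two points of one simplex is their distance in
the simplex. -/
theorem LpComplex.Wall.share {F : Finset V} (hF : C.Wall F) {A : ℝ} (hA0 : 0 < A)
    (hA : C.Lip F A) {x y : X} (hxy : ∀ v ∈ F, A * dist x y < C.wt x v) {T : Finset V}
    (hT : T ∈ C.K.faces) (hx : C.supp x ⊆ T) (hy : C.supp y ⊆ T) :
    dist (C.pos T x) (C.pos T y) = dist x y := by
  obtain ⟨ρ, l0, hl0, hlt, hρ⟩ := hF.short hA0 hxy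
  have key : ∀ l, StringLength C.S (C.pt x) (C.pt y) l → l < ρ →
      dist (C.pos T x) (C.pos T y) ≤ l := fun l hl hlρ =>
    (StringLength.wall hF hA0 hA hl (hρ l hlρ)).2.2.1 T hT hx hy
  apply le_antisymm
  · rw [C.dist_eq x y]
    apply le_csInf (C.connected x y)
    intro l hl
    by_cases h : l < ρ
    · exact key l hl h
    · exact (key l0 hl0 hlt).trans (hlt.le.trans (not_lt.1 h))
  · exact C.dist_le hT hx hy

/-- Near the interior of a wall, a lower bound for the distance of two points in no common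
simplex. -/
theorem LpComplex.Wall.cross_lower {F : Finset V} (hF : C.Wall F) {A : ℝ} (hA0 : 0 < A)
    (hA : C.Lip F A) {x y : X} (hxy : ∀ v ∈ F, A * dist x y < C.wt x v)
    (hns : ¬ ∃ T ∈ C.K.faces, C.supp x ⊆ T ∧ C.supp y ⊆ T) {B : ℝ}
    (hB : ∀ q : X, C.supp q = F → B ≤ dist (C.pos (C.supp x) x) (C.pos (C.supp x) q) +
      dist (C.pos (C.supp y) q) (C.pos (C.supp y) y)) : B ≤ dist x y := by
  obtain ⟨ρ, l0, hl0, hlt, hρ⟩ := hF.short hA0 hxy
  have key : ∀ l, StringLength C.S (C.pt x) (C.pt y) l → l < ρ → B ≤ l := by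
    intro l hl hlρ
    obtain ⟨q, hq, hq2⟩ := (StringLength.wall hF hA0 hA hl (hρ l hlρ)).2.2.2 hns
    have h1 := hB (C.pt.symm q) (by rw [LpComplex.supp, Equiv.apply_symm_apply]; exact hq)
    rw [LpComplex.pos, LpComplex.pos, LpComplex.pos, LpComplex.pos, Equiv.apply_symm_apply] at h1
    exact h1.trans hq2
  rw [C.dist_eq x y]
  apply le_csInf (C.connected x y)
  intro l hl
  by_cases h : l < ρ
  · exact key l hl h
  · exact (key l0 hl0 hlt).trans (hlt.le.trans (not_lt.1 h))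

/-- Coordinates along a geodesic. -/
theorem IsGeodesic.wt_lip {γ : ℝ → X} {x y : X} (hγ : IsGeodesic γ x y) {F : Finset V} {A : ℝ}
    (hA0 : 0 < A) (hA : C.Lip F A) {v : V} (hv : v ∈ F) {s t : ℝ} (hs : s ∈ Icc (0 : ℝ) 1)
    (ht : t ∈ Icc (0 : ℝ) 1) :
    |C.wt (γ s) v - C.wt (γ t) v| ≤ A * dist x y * |s - t| := by
  have := hA.bound hA0 (γ s) (γ t) hv
  rw [hγ.2.2 s hs t ht] at this
  linarith

/-- A short geodesic between two points near the interior of a wall, in no common simplex,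
crosses the wall. -/
theorem LpComplex.Wall.cross (hT : C.Tame) {F : Finset V} (hF : C.Wall F) {A : ℝ} (hA0 : 0 < A)
    (hA : C.Lip F A) {x y : X} {γ : ℝ → X} (hγ : IsGeodesic γ x y)
    (hxy : ∀ v ∈ F, A * dist x y < C.wt x v)
    (hns : ¬ ∃ T ∈ C.K.faces, C.supp x ⊆ T ∧ C.supp y ⊆ T) :
    ∃ q : X, C.supp q = F ∧ dist x y = dist (C.pos (C.supp x) x) (C.pos (C.supp x) q) +
      dist (C.pos (C.supp y) q) (C.pos (C.supp y) y) := by
  classical
  have h00 : (0 : ℝ) ∈ Icc (0 : ℝ) 1 := ⟨le_rfl, zero_le_one⟩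
  have h11 : (1 : ℝ) ∈ Icc (0 : ℝ) 1 := ⟨zero_le_one, le_rfl⟩
  -- the geodesic stays in the open star of `F`
  have hstar : ∀ t ∈ Icc (0 : ℝ) 1, ∀ v ∈ F, C.wt x v - A * dist x y ≤ C.wt (γ t) v := by
    intro t ht v hv
    have h1 := hA.bound hA0 x (γ t) hv
    have h2 := hγ.2.2 0 h00 t ht
    rw [hγ.1, zero_sub, abs_neg, abs_of_nonneg ht.1] at h2
    have h3 : dist x (γ t) ≤ dist x y := by
      rw [h2]
      exact mul_le_of_le_one_left dist_nonneg ht.2
    have h4 := (abs_le.1 h1).2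
    have h5 := mul_le_mul_of_nonneg_left h3 hA0.le
    linarith
  have hstar' : ∀ t ∈ Icc (0 : ℝ) 1, F ⊆ C.supp (γ t) := by
    intro t ht v hv
    rw [C.mem_supp]
    have := hstar t ht v hv
    have := hxy v hv
    linarith
  have hFx : F ⊆ C.supp x := by have := hstar' 0 h00; rwa [hγ.1] at this
  have hFy : F ⊆ C.supp y := by have := hstar' 1 h11; rwa [hγ.2.1] at this
  have hxF : C.supp x ≠ F := by
    intro h
    exact hns ⟨C.supp y, C.supp_mem y, by rw [h]; exact hFy, Finset.Subset.refl _⟩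
  obtain ⟨c1, hc1, hc1F⟩ : ∃ c1 ∈ C.supp x, c1 ∉ F := by
    by_contra hno
    push Not at hno
    exact hxF (Finset.Subset.antisymm (fun v hv => hno v hv) hFx)
  have hc1y : c1 ∉ C.supp y := by
    intro h
    have hsub : insert c1 F ⊆ C.supp y := Finset.insert_subset h hFy
    have hsubx : insert c1 F ⊆ C.supp x := Finset.insert_subset hc1 hFx
    have hx1 : C.supp x = insert c1 F := hF.max (Finset.subset_insert _ _)
      (fun h' => hc1F (h' ▸ Finset.mem_insert_self _ _)) (C.supp_mem x) hsubx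
    exact hns ⟨C.supp y, C.supp_mem y, by rw [hx1]; exact hsub, Finset.Subset.refl _⟩
  have hx1 : C.supp x = insert c1 F := hF.max (Finset.subset_insert _ _)
    (fun h' => hc1F (h' ▸ Finset.mem_insert_self _ _)) (C.supp_mem x)
    (Finset.insert_subset hc1 hFx)
  obtain ⟨A1, hA10, hA1⟩ := C.exists_lip hT {c1}
  -- first exit from the interior of the simplex of `x`
  have hcont : ContinuousOn (fun t => C.wt (γ t) c1) (Icc (0 : ℝ) 1) := by
    intro t ht
    rw [Metric.continuousWithinAt_iff]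
    intro e he
    have hK : 0 < A1 * dist x y + 1 := by positivity
    refine ⟨e / (A1 * dist x y + 1), div_pos he hK, fun {s} hs hst => ?_⟩
    rw [Real.dist_eq] at hst ⊢
    have h1 := hγ.wt_lip hA10 hA1 (Finset.mem_singleton_self c1) hs ht
    have h2 : A1 * dist x y * |s - t| ≤ (A1 * dist x y + 1) * |s - t| :=
      mul_le_mul_of_nonneg_right (by linarith) (abs_nonneg _)
    have h3 : (A1 * dist x y + 1) * |s - t| < e := by
      rw [mul_comm]
      exact (lt_div_iff₀ hK).1 hst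
    linarith
  have hcl : IsClosed {t ∈ Icc (0 : ℝ) 1 | C.wt (γ t) c1 ≤ 0} :=
    isClosed_Icc.isClosed_le hcont continuousOn_const
  have hne : {t ∈ Icc (0 : ℝ) 1 | C.wt (γ t) c1 ≤ 0}.Nonempty :=
    ⟨1, h11, by rw [hγ.2.1, C.wt_eq_zero hc1y]⟩
  have hbd : BddBelow {t ∈ Icc (0 : ℝ) 1 | C.wt (γ t) c1 ≤ 0} := ⟨0, fun t ht => ht.1.1⟩
  obtain ⟨ht0, ht0'⟩ := hcl.csInf_mem hne hbd
  set t0 : ℝ := sInf {t ∈ Icc (0 : ℝ) 1 | C.wt (γ t) c1 ≤ 0} with ht0def
  have ht0pos : 0 < t0 := by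
    rcases ht0.1.eq_or_lt with h | h
    · exfalso
      rw [← h, hγ.1] at ht0'
      exact absurd (C.mem_supp.1 hc1) (not_lt.2 ht0')
    · exact h
  have hbefore : ∀ t, 0 ≤ t → t < t0 → C.supp (γ t) = C.supp x := by
    intro t ht htt
    have ht1 : t ∈ Icc (0 : ℝ) 1 := ⟨ht, htt.le.trans ht0.2⟩
    have h1 : c1 ∈ C.supp (γ t) := by
      rw [C.mem_supp]
      by_contra hno
      have : t0 ≤ t := csInf_le hbd ⟨ht1, not_lt.1 hno⟩
      linarith
    rw [hx1]
    exact hF.max (Finset.subset_insert _ _)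
      (fun h' => hc1F (h' ▸ Finset.mem_insert_self _ _)) (C.supp_mem _)
      (Finset.insert_subset h1 (hstar' t ht1))
  have hsub : C.supp (γ t0) ⊆ F := by
    intro v hv
    by_contra hvF
    have hvc : v ≠ c1 := by
      rintro rfl
      exact absurd (C.mem_supp.1 hv) (not_lt.2 ht0')
    have hvx : v ∉ C.supp x := by
      rw [hx1, Finset.mem_insert]
      rintro (h | h)
      · exact hvc h
      · exact hvF h
    obtain ⟨A2, hA20, hA2⟩ := C.exists_lip hT {v}
    have hlim : ∀ t, 0 ≤ t → t < t0 → C.wt (γ t0) v ≤ A2 * dist x y * (t0 - t) := by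
      intro t ht htt
      have ht1 : t ∈ Icc (0 : ℝ) 1 := ⟨ht, htt.le.trans ht0.2⟩
      have h1 := hγ.wt_lip hA20 hA2 (Finset.mem_singleton_self v) ht0 ht1
      rw [abs_of_pos (show 0 < t0 - t by linarith)] at h1
      have h2 : C.wt (γ t) v = 0 := C.wt_eq_zero (by rw [hbefore t ht htt]; exact hvx)
      rw [h2, sub_zero] at h1
      exact (le_abs_self _).trans h1
    have hpos := C.mem_supp.1 hv
    have hK : 0 < A2 * dist x y + 1 := by positivity
    set r : ℝ := min t0 (C.wt (γ t0) v / (2 * (A2 * dist x y + 1))) with hr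
    have hr0 : 0 < r := lt_min ht0pos (by positivity)
    have hrt : r ≤ t0 := min_le_left _ _
    have h1 := hlim (t0 - r) (by linarith) (by linarith)
    rw [show t0 - (t0 - r) = r by ring] at h1
    have h2 : A2 * dist x y * r ≤ (A2 * dist x y + 1) * (C.wt (γ t0) v /
        (2 * (A2 * dist x y + 1))) :=
      mul_le_mul (by linarith) (min_le_right _ _) hr0.le hK.le
    have h3 : (A2 * dist x y + 1) * (C.wt (γ t0) v / (2 * (A2 * dist x y + 1))) =
        C.wt (γ t0) v / 2 := by field_simp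
    linarith
  have hq : C.supp (γ t0) = F := Finset.Subset.antisymm hsub (hstar' t0 ht0)
  refine ⟨γ t0, hq, ?_⟩
  have hd1 := hγ.2.2 0 h00 t0 ht0
  rw [hγ.1, zero_sub, abs_neg, abs_of_nonneg ht0.1] at hd1
  have hd2 := hγ.2.2 t0 ht0 1 h11
  rw [hγ.2.1, abs_sub_comm, abs_of_nonneg (by linarith [ht0.2])] at hd2
  have hdD : dist x y = dist x (γ t0) + dist (γ t0) y := by
    rw [hd1, hd2]
    ring
  have hle : dist x (γ t0) ≤ dist x y := by
    rw [hd1]
    exact mul_le_of_le_one_left dist_nonneg ht0.2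
  rw [hF.share hA0 hA (x := x) (y := γ t0) (T := C.supp x) ?_ (C.supp_mem x)
    (Finset.Subset.refl _) (by rw [hq]; exact hFx),
    hF.share hA0 hA (x := γ t0) (y := y) (T := C.supp y) ?_ (C.supp_mem y)
    (by rw [hq]; exact hFy) (Finset.Subset.refl _)]
  · exact hdD
  · intro v hv
    have h1 := hxy v hv
    have h2 := (abs_le.1 (hA.bound hA0 x (γ t0) hv)).2
    rw [hdD, mul_add] at h1
    linarith
  · intro v hv
    have h1 := hxy v hv
    have h2 := mul_le_mul_of_nonneg_left hle hA0.le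
    linarith

end Near

end Pool.Agent.LpBusemann
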